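import Mathlib

set_option autoImplicit false

namespace Pool.Agent.H867.BS

variable {A : Type*} [CommRing A] {H : Type*} [AddCommGroup H] [Module A H]

/-- `q` acts injectively -/
def Inj (H : Type*) [AddCommGroup H] [Module A H] (q : A) : Prop := ∀ v : H, q • v = 0 → v = 0

/-- The four families of relations between the classes of
`x^a y^b / ((x+y)^k f^m)`, `f = y^3 - x^4 + x^2 y^2`. -/
structure Rec (β0 β1 β2 β3 : A) (φ : ℤ → ℤ → ℕ → ℕ → H) : Prop where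
  r1 : ∀ (a b : ℤ) (k m : ℕ), ((a : A) + 1 + β0) • φ a b k m + (β1 - k) • φ (a + 1) b (k + 1) m +
    (β3 - m) • ((2 : A) • φ (a + 2) (b + 2) k (m + 1) - (4 : A) • φ (a + 4) b k (m + 1)) = 0
  r2 : ∀ (a b : ℤ) (k m : ℕ), ((b : A) + 1 + β2) • φ a b k m + (β1 - k) • φ a (b + 1) (k + 1) m +
    (β3 - m) • ((3 : A) • φ a (b + 3) k (m + 1) + (2 : A) • φ (a + 2) (b + 2) k (m + 1)) = 0
  r3 : ∀ (a b : ℤ) (k m : ℕ), φ a b k m = φ (a + 1) b (k + 1) m + φ a (b + 1) (k + 1) m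
  r4 : ∀ (a b : ℤ) (k m : ℕ), φ a b k m = φ a (b + 3) k (m + 1) - φ (a + 4) b k (m + 1) +
    φ (a + 2) (b + 2) k (m + 1)

variable {β0 β1 β2 β3 : A} {φ : ℤ → ℤ → ℕ → ℕ → H}

theorem Rec.smul (hφ : Rec β0 β1 β2 β3 φ) (τ : A) :
    Rec β0 β1 β2 β3 (fun a b k m => τ • φ a b k m) where
  r1 a b k m := by
    have h := congrArg (fun v => τ • v) (hφ.r1 a b k m)
    simp only [smul_zero] at h
    rw [← h]; module
  r2 a b k m := by
    have h := congrArg (fun v => τ • v) (hφ.r2 a b k m)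
    simp only [smul_zero] at h
    rw [← h]; module
  r3 a b k m := by
    have h := congrArg (fun v => τ • v) (hφ.r3 a b k m)
    simp only [smul_add] at h
    exact h
  r4 a b k m := by
    have h := congrArg (fun v => τ • v) (hφ.r4 a b k m)
    simp only [smul_add, smul_sub] at h
    exact h

theorem Rec.r5 (hφ : Rec β0 β1 β2 β3 φ) (a b : ℤ) (k m : ℕ) :
    ((a : A) + b - k + 2 + β0 + β1 + β2 + 4 * (β3 - m)) • φ a b k m =
      (β3 - m) • φ a (b + 3) k (m + 1) := by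
  have h1 := hφ.r1 a b k m
  have h2 := hφ.r2 a b k m
  have h3 := hφ.r3 a b k m
  have h4 := hφ.r4 a b k m
  linear_combination (norm := module) (1 : A) • h1 + (1 : A) • h2 + (β1 - k) • h3 +
    (4 * (β3 - m)) • h4

/-- relation (II') -/
theorem Rec.s2 (hφ : Rec β0 β1 β2 β3 φ) (a b : ℤ) (k : ℕ) :
    (β1 - k) • φ (a + 1) b (k + 1) 0 =
      ((3 * a + 4 * b - 4 * k + 7 : A) + 3 * β0 + 4 * β1 + 4 * β2 + 12 * β3) • φ a b k 0 +
      (2 * ((a : A) + b - k + 2 + β0 + β1 + β2 + 4 * β3 + 1)) • φ (a + 2) (b - 1) k 0 := by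
  have h1 := hφ.r1 a b k 0
  have h4 := hφ.r4 a b k 0
  have h5 := hφ.r5 a b k 0
  have h6 := hφ.r5 (a + 2) (b - 1) k 0
  rw [show b - 1 + 3 = b + 2 by ring] at h6
  push_cast at h1 h4 h5 h6 ⊢
  simp only [sub_zero] at h1 h4 h5 h6 ⊢
  linear_combination (norm := module) (1 : A) • h1 + (4 * β3) • h4 - (4 : A) • h5 - (2 : A) • h6

/-- relation (III') -/
theorem Rec.s3 (hφ : Rec β0 β1 β2 β3 φ) (a b : ℤ) (k : ℕ) :
    (β1 - k) • φ a (b + 1) (k + 1) 0 =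
      (-((3 * a + 4 * b - 3 * k + 7 : A) + 3 * β0 + 3 * β1 + 4 * β2 + 12 * β3)) • φ a b k 0 -
      (2 * ((a : A) + b - k + 2 + β0 + β1 + β2 + 4 * β3 + 1)) • φ (a + 2) (b - 1) k 0 := by
  have h1 := hφ.s2 a b k
  have h3 := hφ.r3 a b k 0
  linear_combination (norm := module) - (1 : A) • h1 - (β1 - k) • h3

/-- relation (I) -/
theorem Rec.i1 (hφ : Rec β0 β1 β2 β3 φ) (a b : ℤ) :
    ((a : A) + b + 2 + β0 + β1 + β2 + 3 * β3) • φ a b 0 0 =
      ((a : A) + b + 3 + β0 + β1 + β2 + 4 * β3) • (φ (a + 4) (b - 3) 0 0 -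
        φ (a + 2) (b - 1) 0 0) := by
  have h4 := hφ.r4 a b 0 0
  have h5 := hφ.r5 a b 0 0
  have h6 := hφ.r5 (a + 2) (b - 1) 0 0
  have h7 := hφ.r5 (a + 4) (b - 3) 0 0
  rw [show b - 1 + 3 = b + 2 by ring] at h6
  rw [show b - 3 + 3 = b by ring] at h7
  push_cast at h4 h5 h6 h7 ⊢
  simp only [sub_zero] at h4 h5 h6 h7 ⊢
  linear_combination (norm := module) (-β3) • h4 + (1 : A) • h5 + (1 : A) • h6 - (1 : A) • h7

/-- relation (IV) -/
theorem Rec.i4 (hφ : Rec β0 β1 β2 β3 φ) (a b : ℤ) :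
    ((3 * a + 4 * b + 7 : A) + 3 * β0 + 4 * β1 + 4 * β2 + 12 * β3) • φ a b 0 0 +
      ((3 * a + 4 * b + 6 : A) + 3 * β0 + 3 * β1 + 4 * β2 + 12 * β3) • φ (a + 1) (b - 1) 0 0 +
      (2 * ((a : A) + b + 3 + β0 + β1 + β2 + 4 * β3)) •
        (φ (a + 2) (b - 1) 0 0 + φ (a + 3) (b - 2) 0 0) = 0 := by
  have h2 := hφ.s2 a b 0
  have h3 := hφ.s3 (a + 1) (b - 1) 0
  rw [show b - 1 + 1 = b by ring, show b - 1 - 1 = b - 2 by ring,
    show a + 1 + 2 = a + 3 by ring] at h3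
  push_cast at h2 h3 ⊢
  simp only [mul_zero, sub_zero] at h2 h3 ⊢
  linear_combination (norm := module) (1 : A) • h3 - (1 : A) • h2

/-- the elements that act injectively -/
structure Units (H : Type*) [AddCommGroup H] [Module A H] (β0 β1 β2 β3 : A) : Prop where
  u1 : ∀ k : ℕ, Inj H (β1 - (k : A))
  u3 : ∀ m : ℕ, Inj H (β3 - (m : A))
  uc : ∀ n : ℤ, Inj H ((n : A) + β0 + β1 + β2 + 4 * β3)
  ud : ∀ n : ℤ, Inj H ((n : A) + β0 + β1 + β2 + 3 * β3)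
  uh : ∀ n : ℤ, n ≠ 0 → Inj H ((n : A) + 3 * β0 + 3 * β1 + 4 * β2 + 12 * β3 + 9)

theorem Rec.w1 (hφ : Rec β0 β1 β2 β3 φ) (hu : Units H β0 β1 β2 β3)
    (h0 : ∀ i j : ℕ, φ i j 0 0 = 0) (n : ℕ) :
    ∀ a b : ℤ, b = 2 - n → 8 ≤ 3 * a + 4 * b → φ a b 0 0 = 0 := by
  induction n using Nat.strong_induction_on with
  | _ n ih =>
    intro a b hb hw
    rcases le_or_gt 0 b with h | h
    · obtain ⟨i, rfl⟩ := Int.eq_ofNat_of_zero_le (show 0 ≤ a by omega)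
      obtain ⟨j, rfl⟩ := Int.eq_ofNat_of_zero_le h
      exact h0 i j
    · have e1 := ih (n - 3) (by omega) (a - 4) (b + 3) (by omega) (by omega)
      have e2 := ih (n - 2) (by omega) (a - 2) (b + 2) (by omega) (by omega)
      have h1 := hφ.i1 (a - 4) (b + 3)
      rw [show a - 4 + 4 = a by ring, show b + 3 - 3 = b by ring, show a - 4 + 2 = a - 2 by ring,
        show b + 3 - 1 = b + 2 by ring, e1, e2, smul_zero, sub_zero] at h1
      apply hu.uc (a + b + 2)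
      push_cast at h1 ⊢
      rw [h1]
      congr 1
      ring

theorem Rec.w2 (hφ : Rec β0 β1 β2 β3 φ) (hu : Units H β0 β1 β2 β3)
    (h0 : ∀ i j : ℕ, φ i j 0 0 = 0) (n : ℕ) :
    ∀ a b : ℤ, a = 3 - n → 8 ≤ 3 * a + 4 * b → φ a b 0 0 = 0 := by
  induction n using Nat.strong_induction_on with
  | _ n ih =>
    intro a b hb hw
    rcases le_or_gt 0 a with h | h
    · obtain ⟨i, rfl⟩ := Int.eq_ofNat_of_zero_le h
      obtain ⟨j, rfl⟩ := Int.eq_ofNat_of_zero_le (show 0 ≤ b by omega)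
      exact h0 i j
    · have e1 := ih (n - 4) (by omega) (a + 4) (b - 3) (by omega) (by omega)
      have e2 := ih (n - 2) (by omega) (a + 2) (b - 1) (by omega) (by omega)
      have h1 := hφ.i1 a b
      rw [e1, e2, sub_zero, smul_zero] at h1
      apply hu.ud (a + b + 2)
      push_cast at h1 ⊢
      rw [← h1]

theorem Rec.w3 (hφ : Rec β0 β1 β2 β3 φ) (hu : Units H β0 β1 β2 β3)
    (h0 : ∀ i j : ℕ, φ i j 0 0 = 0) (a b : ℤ) (hw : 8 ≤ 3 * a + 4 * b) : φ a b 0 0 = 0 := by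
  rcases le_or_gt b 2 with h | h
  · exact hφ.w1 hu h0 (2 - b).toNat a b (by omega) hw
  · rcases le_or_gt a 3 with h' | h'
    · exact hφ.w2 hu h0 (3 - a).toNat a b (by omega) hw
    · obtain ⟨i, rfl⟩ := Int.eq_ofNat_of_zero_le (show 0 ≤ a by omega)
      obtain ⟨j, rfl⟩ := Int.eq_ofNat_of_zero_le (show 0 ≤ b by omega)
      exact h0 i j

theorem Rec.w5 (hφ : Rec β0 β1 β2 β3 φ) (hu : Units H β0 β1 β2 β3)
    (hz : φ 2 (-1) 0 0 = 0) (h4 : ∀ a b : ℤ, 3 * a + 4 * b = 4 → φ a b 0 0 = 0) (t : ℤ) :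
    φ (2 - 4 * t) (-1 + 3 * t) 0 0 = 0 := by
  induction t using Int.induction_on with
  | zero => simpa using hz
  | succ t ih =>
    have h1 := hφ.i1 (2 - 4 * (t + 1)) (-1 + 3 * (t + 1))
    rw [show (2 - 4 * ((t : ℤ) + 1)) + 4 = 2 - 4 * t by ring,
      show (-1 + 3 * ((t : ℤ) + 1)) - 3 = -1 + 3 * t by ring, ih,
      h4 (2 - 4 * (t + 1) + 2) (-1 + 3 * (t + 1) - 1) (by ring), sub_zero, smul_zero] at h1
    apply hu.ud (2 - 4 * (t + 1) + (-1 + 3 * (t + 1)) + 2)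
    push_cast at h1 ⊢
    rw [← h1]
  | pred t ih =>
    have h1 := hφ.i1 (2 - 4 * (-(t : ℤ))) (-1 + 3 * (-(t : ℤ)))
    rw [ih, h4 (2 - 4 * (-(t : ℤ)) + 2) (-1 + 3 * (-(t : ℤ)) - 1) (by ring), sub_zero, smul_zero,
      show (2 - 4 * (-(t : ℤ))) + 4 = 2 - 4 * (-(t : ℤ) - 1) by ring,
      show (-1 + 3 * (-(t : ℤ))) - 3 = -1 + 3 * (-(t : ℤ) - 1) by ring] at h1
    apply hu.uc (2 - 4 * (-(t : ℤ)) + (-1 + 3 * (-(t : ℤ))) + 3)
    push_cast at h1 ⊢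
    rw [← h1]

theorem Rec.w4 (hφ : Rec β0 β1 β2 β3 φ) (hu : Units H β0 β1 β2 β3)
    (h0 : ∀ i j : ℕ, φ i j 0 0 = 0) (hz : φ 2 (-1) 0 0 = 0) (n : ℕ) :
    ∀ a b : ℤ, 3 * a + 4 * b = 8 - n → φ a b 0 0 = 0 := by
  induction n using Nat.strong_induction_on with
  | _ n ih =>
    intro a b hw
    have ih' : ∀ a' b' : ℤ, 8 - n < 3 * a' + 4 * b' → φ a' b' 0 0 = 0 := by
      intro a' b' h'
      rcases le_or_gt 8 (3 * a' + 4 * b') with h8 | h8
      · exact hφ.w3 hu h0 a' b' h8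
      · exact ih (8 - (3 * a' + 4 * b')).toNat (by omega) a' b' (by omega)
    rcases eq_or_ne (3 * a + 4 * b) 2 with h2 | h2
    · obtain ⟨t, ht⟩ : ∃ t : ℤ, b = -1 + 3 * t := ⟨(b + 1) / 3, by omega⟩
      have ha : a = 2 - 4 * t := by omega
      rw [ht, ha]
      exact hφ.w5 hu hz (fun a' b' h' => ih' a' b' (by omega)) t
    · have h1 := hφ.i4 (a - 1) (b + 1)
      rw [ih' (a - 1) (b + 1) (by omega), show a - 1 + 1 = a by ring,
        show b + 1 - 1 = b by ring, show a - 1 + 2 = a + 1 by ring,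
        show a - 1 + 3 = a + 2 by ring, show b + 1 - 2 = b - 1 by ring,
        ih' (a + 1) b (by omega), ih' (a + 2) (b - 1) (by omega), smul_zero, add_zero, smul_zero,
        zero_add, add_zero] at h1
      apply hu.uh (3 * a + 4 * b - 2) (by omega)
      rw [← h1]
      congr 1
      push_cast
      ring

/-- vanishing -/
theorem Rec.vanish (hφ : Rec β0 β1 β2 β3 φ) (hu : Units H β0 β1 β2 β3)
    (h0 : ∀ i j : ℕ, φ i j 0 0 = 0) (hz : φ 2 (-1) 0 0 = 0) (a b : ℤ) (k m : ℕ) :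
    φ a b k m = 0 := by
  have h00 : ∀ a b : ℤ, φ a b 0 0 = 0 := by
    intro a b
    rcases le_or_gt 8 (3 * a + 4 * b) with h8 | h8
    · exact hφ.w3 hu h0 a b h8
    · exact hφ.w4 hu h0 hz (8 - (3 * a + 4 * b)).toNat a b (by omega)
  have hk : ∀ (k : ℕ) (a b : ℤ), φ a b k 0 = 0 := by
    intro k
    induction k with
    | zero => exact h00
    | succ k ih =>
      intro a b
      have h1 := hφ.s2 (a - 1) b k
      rw [ih, ih, smul_zero, smul_zero, add_zero, show a - 1 + 1 = a by ring] at h1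
      exact hu.u1 k _ h1
  induction m generalizing a b with
  | zero => exact hk k a b
  | succ m ih =>
    have h1 := hφ.r5 a (b - 3) k m
    rw [ih, smul_zero, show b - 3 + 3 = b by ring] at h1
    exact hu.u3 m _ h1.symm

/-- the two relations satisfied by the class of `x^2 y^(-1)` -/
theorem Rec.special (hφ : Rec β0 β1 β2 β3 φ) (hu : Units H β0 β1 β2 β3)
    (h0 : ∀ i j : ℕ, φ i j 0 0 = 0) :
    (3 * β0 + 3 * β1 + 4 * β2 + 12 * β3 + 9) • φ 2 (-1) 0 0 = 0 ∧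
      (2 * β1 * (β1 - 1) + β0 + β1 - 1) • φ 2 (-1) 0 0 = 0 := by
  have h01 : φ 0 1 0 0 = 0 := h0 0 1
  have h10 : φ 1 0 0 0 = 0 := h0 1 0
  have h20 : φ 2 0 0 0 = 0 := h0 2 0
  have h00 : φ 0 0 0 0 = 0 := h0 0 0
  have h41 : φ 4 (-1) 0 0 = 0 := hφ.w3 hu h0 _ _ (by norm_num)
  have h52 : φ 5 (-2) 0 0 = 0 := by
    have h1 := hφ.i1 1 1
    rw [show (1 : ℤ) + 4 = 5 by ring, show (1 : ℤ) - 3 = -2 by ring, show (1 : ℤ) + 2 = 3 by ring,
      show (1 : ℤ) - 1 = 0 by ring, show φ 3 0 0 0 = 0 from h0 3 0,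
      show φ 1 1 0 0 = 0 from h0 1 1, smul_zero, sub_zero] at h1
    apply hu.uc 5
    rw [h1]
    congr 1
    push_cast
    ring
  have h42 : φ 4 (-2) 0 0 = 0 := by
    have h1 := hφ.i1 0 1
    rw [show (0 : ℤ) + 4 = 4 by ring, show (1 : ℤ) - 3 = -2 by ring, show (0 : ℤ) + 2 = 2 by ring,
      show (1 : ℤ) - 1 = 0 by ring, h20, h01, smul_zero, sub_zero] at h1
    apply hu.uc 4
    rw [h1]
    congr 1
    push_cast
    ring
  have h31 : φ 3 (-1) 0 0 = 0 := by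
    have h1 := hφ.i4 2 0
    rw [show (2 : ℤ) + 1 = 3 by ring, show (0 : ℤ) - 1 = -1 by ring, show (2 : ℤ) + 2 = 4 by ring,
      show (0 : ℤ) - 2 = -2 by ring, show (2 : ℤ) + 3 = 5 by ring, h20, h41, h52, smul_zero,
      add_zero, smul_zero, add_zero, zero_add] at h1
    apply hu.uh 3 (by norm_num)
    rw [← h1]
    congr 1
    push_cast
    ring
  have hh : (3 * β0 + 3 * β1 + 4 * β2 + 12 * β3 + 9) • φ 2 (-1) 0 0 = 0 := by
    have h1 := hφ.i4 1 0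
    rw [show (1 : ℤ) + 1 = 2 by ring, show (0 : ℤ) - 1 = -1 by ring, show (1 : ℤ) + 2 = 3 by ring,
      show (0 : ℤ) - 2 = -2 by ring, show (1 : ℤ) + 3 = 4 by ring, h10, h31, h42, smul_zero,
      add_zero, smul_zero, add_zero, zero_add] at h1
    rw [← h1]
    congr 1
    push_cast
    ring
  refine ⟨hh, ?_⟩
  have e1 := hφ.i4 (-2) 2
  rw [show (-2 : ℤ) + 1 = -1 by ring, show (2 : ℤ) - 1 = 1 by ring, show (-2 : ℤ) + 2 = 0 by ring,
    show (2 : ℤ) - 2 = 0 by ring, show (-2 : ℤ) + 3 = 1 by ring, h01, h10, add_zero, smul_zero,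
    add_zero] at e1
  have e2 := hφ.i4 (-1) 1
  rw [show (-1 : ℤ) + 1 = 0 by ring, show (1 : ℤ) - 1 = 0 by ring, show (-1 : ℤ) + 2 = 1 by ring,
    show (1 : ℤ) - 2 = -1 by ring, show (-1 : ℤ) + 3 = 2 by ring, h00, h10, zero_add, smul_zero,
    add_zero] at e2
  have e3 := hφ.i1 (-2) 2
  rw [show (-2 : ℤ) + 4 = 2 by ring, show (2 : ℤ) - 1 = 1 by ring, show (-2 : ℤ) + 2 = 0 by ring,
    show (2 : ℤ) - 3 = -1 by ring, h01, sub_zero] at e3
  push_cast at e1 e2 e3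
  set h : A := 3 * β0 + 3 * β1 + 4 * β2 + 12 * β3 + 9 with hh'
  set D : A := 2 + β0 + β1 + β2 + 3 * β3 with hD
  have hv : ((h - 1 + β1) * (h + β1) - 2 * (h - 1) * D) • φ 2 (-1) 0 0 = 0 := by
    apply hu.uc 3
    push_cast
    linear_combination (norm := skip) ((h - 1 + β1) * D) • e1 - ((h - 1) * D) • e2 -
      ((h - 1 + β1) * (h + β1)) • e3
    rw [hh', hD]
    module
  linear_combination (norm := skip) (2 : A) • hv - (h + 3 * β1 - β0) • hh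
  rw [hh', hD]
  module

end Pool.Agent.H867.BS
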