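import Pool.Agent.H867.BS.Kash
import Pool.Agent.H867.BS.Rec

set_option autoImplicit false
set_option linter.unusedSimpArgs false

namespace Pool.Agent.H867.BS

/-- A commutative `A`-algebra with two commuting derivations and elements
`x, y, 1/x, 1/y, 1/(x+y), 1/f` (no relations are imposed between them). -/
structure Dat (A E : Type*) [CommRing A] [CommRing E] [Algebra A E] where
  dx : Derivation A E E
  dy : Derivation A E E
  comm : ∀ g, dx (dy g) = dy (dx g)
  x : E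
  y : E
  xi : E
  yi : E
  U : E
  V : E
  b0 : A
  b1 : A
  b2 : A
  b3 : A
  dxx : dx x = 1
  dyx : dy x = 0
  dxy : dx y = 0
  dyy : dy y = 1
  dxxi : dx xi = - xi ^ 2
  dyxi : dy xi = 0
  dxyi : dx yi = 0
  dyyi : dy yi = - yi ^ 2
  dxU : dx U = - U ^ 2
  dyU : dy U = - U ^ 2
  dxV : dx V = - (-4 * x ^ 3 + 2 * x * y ^ 2) * V ^ 2
  dyV : dy V = - (3 * y ^ 2 + 2 * x ^ 2 * y) * V ^ 2
  span : ∀ g : E, g ∈ Submodule.span A (Set.range fun t : ℕ × ℕ × ℕ × ℕ × ℕ × ℕ =>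
    x ^ t.1 * y ^ t.2.1 * (xi ^ t.2.2.1 * yi ^ t.2.2.2.1 * U ^ t.2.2.2.2.1 * V ^ t.2.2.2.2.2))

variable {A E : Type*} [CommRing A] [CommRing E] [Algebra A E] (D : Dat A E)

namespace Dat

/-- `ω_x = β₀/x + β₁/(x+y) + β₃ f_x/f` -/
def wx : E := algebraMap A E D.b0 * D.xi + algebraMap A E D.b1 * D.U +
  algebraMap A E D.b3 * ((-4 * D.x ^ 3 + 2 * D.x * D.y ^ 2) * D.V)

/-- `ω_y = β₂/y + β₁/(x+y) + β₃ f_y/f` -/
def wy : E := algebraMap A E D.b2 * D.yi + algebraMap A E D.b1 * D.U +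
  algebraMap A E D.b3 * ((3 * D.y ^ 2 + 2 * D.x ^ 2 * D.y) * D.V)

/-- `∇_x` -/
def DX : Module.End A E := (D.dx : E →ₗ[A] E) + LinearMap.mulLeft A D.wx

/-- `∇_y` -/
def DY : Module.End A E := (D.dy : E →ₗ[A] E) + LinearMap.mulLeft A D.wy

theorem DX_apply (g : E) : D.DX g = D.dx g + D.wx * g := rfl
theorem DY_apply (g : E) : D.DY g = D.dy g + D.wy * g := rfl

theorem dx_two : D.dx 2 = 0 := by simpa using D.dx.map_natCast 2
theorem dy_two : D.dy 2 = 0 := by simpa using D.dy.map_natCast 2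
theorem dx_three : D.dx 3 = 0 := by simpa using D.dx.map_natCast 3
theorem dy_three : D.dy 3 = 0 := by simpa using D.dy.map_natCast 3
theorem dx_four : D.dx 4 = 0 := by simpa using D.dx.map_natCast 4
theorem dy_four : D.dy 4 = 0 := by simpa using D.dy.map_natCast 4

theorem closed : D.dx D.wy = D.dy D.wx := by
  simp only [wx, wy, map_add, Derivation.leibniz, Derivation.leibniz_pow, Derivation.map_algebraMap,
    D.dxx, D.dyx, D.dxy, D.dyy, D.dxxi, D.dyxi, D.dxyi, D.dyyi, D.dxU, D.dyU, D.dxV, D.dyV,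
    map_neg, dx_two, dy_two, dx_three, dy_three, dx_four, dy_four, smul_eq_mul, nsmul_eq_mul]
  push_cast
  ring

theorem h1 : D.DX * LinearMap.mulLeft A D.x = LinearMap.mulLeft A D.x * D.DX + 1 := by
  ext g
  simp only [Module.End.mul_apply, LinearMap.add_apply, LinearMap.mulLeft_apply, DX_apply,
    Derivation.leibniz, D.dxx, smul_eq_mul, Module.End.one_apply]
  ring

theorem h2 : D.DY * LinearMap.mulLeft A D.y = LinearMap.mulLeft A D.y * D.DY + 1 := by
  ext g
  simp only [Module.End.mul_apply, LinearMap.add_apply, LinearMap.mulLeft_apply, DY_apply,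
    Derivation.leibniz, D.dyy, smul_eq_mul, Module.End.one_apply]
  ring

theorem hPQ : Commute D.DX D.DY := by
  refine LinearMap.ext fun g => ?_
  simp only [Module.End.mul_apply, DX_apply, DY_apply, map_add, Derivation.leibniz, smul_eq_mul,
    D.comm, D.closed]
  ring

theorem hPY : Commute D.DX (LinearMap.mulLeft A D.y) := by
  refine LinearMap.ext fun g => ?_
  simp only [Module.End.mul_apply, LinearMap.mulLeft_apply, DX_apply,
    Derivation.leibniz, D.dxy, smul_eq_mul]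
  ring

theorem hQX : Commute D.DY (LinearMap.mulLeft A D.x) := by
  refine LinearMap.ext fun g => ?_
  simp only [Module.End.mul_apply, LinearMap.mulLeft_apply, DY_apply,
    Derivation.leibniz, D.dyx, smul_eq_mul]
  ring

theorem hXY : Commute (LinearMap.mulLeft A D.x) (LinearMap.mulLeft A D.y) := by
  refine LinearMap.ext fun g => ?_
  simp only [Module.End.mul_apply, LinearMap.mulLeft_apply]
  ring

/-- `f` -/
def f : E := D.y ^ 3 - D.x ^ 4 + D.x ^ 2 * D.y ^ 2

/-- The properties of the submodule `N`. -/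
structure Good (S : Submonoid A) (N : Submodule A E) : Prop where
  hX : ∀ g ∈ N, D.x * g ∈ N
  hY : ∀ g ∈ N, D.y * g ∈ N
  hP : ∀ g ∈ N, D.DX g ∈ N
  hQ : ∀ g ∈ N, D.DY g ∈ N
  r1 : ∀ g, (D.x * D.xi - 1) * g ∈ N
  r2 : ∀ g, (D.y * D.yi - 1) * g ∈ N
  r3 : ∀ g, ((D.x + D.y) * D.U - 1) * g ∈ N
  r4 : ∀ g, (D.f * D.V - 1) * g ∈ N
  one : 1 ∈ N
  sat : ∀ q ∈ S, ∀ g : E, q • g ∈ N → g ∈ N

/-- The needed units. -/
structure US (S : Submonoid A) : Prop where
  nat : ∀ J : ℕ, J ≠ 0 → (J : A) ∈ S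
  u0 : ∀ k : ℕ, D.b0 - (k : A) ∈ S
  u1 : ∀ k : ℕ, D.b1 - (k : A) ∈ S
  u2 : ∀ k : ℕ, D.b2 - (k : A) ∈ S
  u3 : ∀ k : ℕ, D.b3 - (k : A) ∈ S
  uc : ∀ n : ℤ, (n : A) + D.b0 + D.b1 + D.b2 + 4 * D.b3 ∈ S
  ud : ∀ n : ℤ, (n : A) + D.b0 + D.b1 + D.b2 + 3 * D.b3 ∈ S
  uh : ∀ n : ℤ, n ≠ 0 → (n : A) + 3 * D.b0 + 3 * D.b1 + 4 * D.b2 + 12 * D.b3 + 9 ∈ S

/-- The relations. -/
def I : Ideal E := Ideal.span {D.x * D.xi - 1, D.y * D.yi - 1, (D.x + D.y) * D.U - 1, D.f * D.V - 1}

variable {D} {S : Submonoid A} {N : Submodule A E}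

theorem Good.hI (hN : D.Good S N) {g : E} (hg : g ∈ D.I) : g ∈ N := by
  have h : ∀ c : E, c * g ∈ N := by
    rw [I] at hg
    induction hg using Submodule.span_induction with
    | mem g hg =>
      intro c
      simp only [Set.mem_insert_iff, Set.mem_singleton_iff] at hg
      rcases hg with rfl | rfl | rfl | rfl
      · rw [mul_comm]; exact hN.r1 c
      · rw [mul_comm]; exact hN.r2 c
      · rw [mul_comm]; exact hN.r3 c
      · rw [mul_comm]; exact hN.r4 c
    | zero => intro c; simp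
    | add g h _ _ hg hh => intro c; rw [mul_add]; exact N.add_mem (hg c) (hh c)
    | smul a g _ hg => intro c; rw [smul_eq_mul, ← mul_assoc]; exact hg (c * a)
  simpa using h 1

/-- equality modulo the relations -/
def Q' (D : Dat A E) : E →+* (E ⧸ D.I) := Ideal.Quotient.mk D.I

theorem Good.congr (hN : D.Good S N) {g h : E} (hg : g ∈ N) (e : D.Q' g = D.Q' h) : h ∈ N := by
  have h1 : h - g ∈ D.I := by
    rw [← Ideal.Quotient.eq]
    exact e.symm
  have h2 := N.add_mem hg (hN.hI h1)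
  rwa [add_sub_cancel] at h2

theorem q1 : D.Q' D.x * D.Q' D.xi = 1 := by
  have h1 : D.x * D.xi - 1 ∈ D.I := Ideal.subset_span (by simp)
  have h2 := Ideal.Quotient.eq.2 h1
  rw [map_mul, map_one] at h2
  exact h2

theorem q2 : D.Q' D.y * D.Q' D.yi = 1 := by
  have h1 : D.y * D.yi - 1 ∈ D.I := Ideal.subset_span (by simp)
  have h2 := Ideal.Quotient.eq.2 h1
  rw [map_mul, map_one] at h2
  exact h2

theorem q3 : (D.Q' D.x + D.Q' D.y) * D.Q' D.U = 1 := by
  have h1 : (D.x + D.y) * D.U - 1 ∈ D.I := Ideal.subset_span (by simp)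
  have h2 := Ideal.Quotient.eq.2 h1
  rw [map_mul, map_one, map_add] at h2
  exact h2

theorem q4 : (D.Q' D.y ^ 3 - D.Q' D.x ^ 4 + D.Q' D.x ^ 2 * D.Q' D.y ^ 2) * D.Q' D.V = 1 := by
  have h1 : D.f * D.V - 1 ∈ D.I := Ideal.subset_span (by simp)
  have h2 := Ideal.Quotient.eq.2 h1
  rw [f, map_mul, map_one, map_add, map_sub, map_mul, map_pow, map_pow, map_pow, map_pow] at h2
  exact h2

/-! ### Torsion -/

/-- torsion modulo `N` -/
def Tor (D : Dat A E) (N : Submodule A E) (g : E) : Prop :=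
  ∃ K : ℕ, D.x ^ K * g ∈ N ∧ D.y ^ K * g ∈ N

theorem Good.pow_x (hN : D.Good S N) {g : E} (hg : g ∈ N) (n : ℕ) : D.x ^ n * g ∈ N := by
  induction n with
  | zero => simpa using hg
  | succ n ih => rw [pow_succ', mul_assoc]; exact hN.hX _ ih

theorem Good.pow_y (hN : D.Good S N) {g : E} (hg : g ∈ N) (n : ℕ) : D.y ^ n * g ∈ N := by
  induction n with
  | zero => simpa using hg
  | succ n ih => rw [pow_succ', mul_assoc]; exact hN.hY _ ih

theorem Good.tor_of_mem {g : E} (hg : g ∈ N) : Tor D N g := ⟨0, by simpa using hg, by simpa using hg⟩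

theorem Good.tor_congr (hN : D.Good S N) {g h : E} (hg : Tor D N g) (e : D.Q' g = D.Q' h) :
    Tor D N h := by
  obtain ⟨K, h1, h2⟩ := hg
  exact ⟨K, hN.congr h1 (by rw [map_mul, map_mul, e]), hN.congr h2 (by rw [map_mul, map_mul, e])⟩

theorem Good.tor_add (hN : D.Good S N) {g h : E} (hg : Tor D N g) (hh : Tor D N h) :
    Tor D N (g + h) := by
  obtain ⟨K, h1, h2⟩ := hg
  obtain ⟨L, h3, h4⟩ := hh
  refine ⟨K + L, ?_, ?_⟩
  · rw [show D.x ^ (K + L) * (g + h) = D.x ^ L * (D.x ^ K * g) + D.x ^ K * (D.x ^ L * h) by ring]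
    exact N.add_mem (hN.pow_x h1 _) (hN.pow_x h3 _)
  · rw [show D.y ^ (K + L) * (g + h) = D.y ^ L * (D.y ^ K * g) + D.y ^ K * (D.y ^ L * h) by ring]
    exact N.add_mem (hN.pow_y h2 _) (hN.pow_y h4 _)

theorem Good.tor_smul (q : A) {g : E} (hg : Tor D N g) : Tor D N (q • g) := by
  obtain ⟨K, h1, h2⟩ := hg
  exact ⟨K, by rw [mul_smul_comm]; exact N.smul_mem _ h1, by rw [mul_smul_comm]; exact N.smul_mem _ h2⟩

theorem Good.tor_amul (q : A) {g : E} (hg : Tor D N g) : Tor D N (algebraMap A E q * g) := by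
  rw [← Algebra.smul_def]; exact Good.tor_smul q hg

theorem Good.tor_sat (hN : D.Good S N) {q : A} (hq : q ∈ S) {g : E}
    (hg : Tor D N (algebraMap A E q * g)) : Tor D N g := by
  obtain ⟨K, h1, h2⟩ := hg
  rw [← Algebra.smul_def] at h1 h2
  exact ⟨K, hN.sat q hq _ (by rw [← mul_smul_comm]; exact h1),
    hN.sat q hq _ (by rw [← mul_smul_comm]; exact h2)⟩

theorem Good.tor_x (hN : D.Good S N) {g : E} (hg : Tor D N g) : Tor D N (D.x * g) := by
  obtain ⟨K, h1, h2⟩ := hg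
  exact ⟨K, by rw [mul_left_comm]; exact hN.hX _ h1, by rw [mul_left_comm]; exact hN.hX _ h2⟩

theorem Good.tor_y (hN : D.Good S N) {g : E} (hg : Tor D N g) : Tor D N (D.y * g) := by
  obtain ⟨K, h1, h2⟩ := hg
  exact ⟨K, by rw [mul_left_comm]; exact hN.hY _ h1, by rw [mul_left_comm]; exact hN.hY _ h2⟩

theorem Good.tor_of_pow (hN : D.Good S N) {g : E} {a b : ℕ} (h1 : Tor D N (D.x ^ a * g))
    (h2 : Tor D N (D.y ^ b * g)) : Tor D N g := by
  obtain ⟨K, h1, -⟩ := h1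
  obtain ⟨L, -, h2⟩ := h2
  refine ⟨(K + a) + (L + b), ?_, ?_⟩
  · rw [show D.x ^ ((K + a) + (L + b)) * g = D.x ^ (L + b) * (D.x ^ K * (D.x ^ a * g)) by ring]
    exact hN.pow_x h1 _
  · rw [show D.y ^ ((K + a) + (L + b)) * g = D.y ^ (K + a) * (D.y ^ L * (D.y ^ b * g)) by ring]
    exact hN.pow_y h2 _

theorem Good.tor_DX (hN : D.Good S N) {g : E} (hg : Tor D N g) : Tor D N (D.DX g) := by
  obtain ⟨K, h1, h2⟩ := hg
  refine ⟨K + 1, ?_, ?_⟩
  · have h3 : D.x ^ (K + 1) * D.DX g = D.DX (D.x * (D.x ^ K * g)) -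
        ((K + 1 : ℕ) : A) • (D.x ^ K * g) := by
      rw [Nat.cast_smul_eq_nsmul]
      simp only [DX_apply, Derivation.leibniz, Derivation.leibniz_pow, D.dxx, smul_eq_mul,
        nsmul_eq_mul]
      rcases K with _ | K
      · simp; ring
      · push_cast
        ring_nf
    rw [h3]
    exact N.sub_mem (hN.hP _ (hN.hX _ h1)) (N.smul_mem _ h1)
  · have h3 : D.y ^ (K + 1) * D.DX g = D.DX (D.y * (D.y ^ K * g)) := by
      simp only [DX_apply, Derivation.leibniz, Derivation.leibniz_pow, D.dxy, smul_eq_mul,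
        nsmul_eq_mul]
      ring
    rw [h3]
    exact hN.hP _ (hN.hY _ h2)

theorem Good.tor_DY (hN : D.Good S N) {g : E} (hg : Tor D N g) : Tor D N (D.DY g) := by
  obtain ⟨K, h1, h2⟩ := hg
  refine ⟨K + 1, ?_, ?_⟩
  · have h3 : D.x ^ (K + 1) * D.DY g = D.DY (D.x * (D.x ^ K * g)) := by
      simp only [DY_apply, Derivation.leibniz, Derivation.leibniz_pow, D.dyx, smul_eq_mul,
        nsmul_eq_mul]
      ring
    rw [h3]
    exact hN.hQ _ (hN.hX _ h1)
  · have h3 : D.y ^ (K + 1) * D.DY g = D.DY (D.y * (D.y ^ K * g)) -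
        ((K + 1 : ℕ) : A) • (D.y ^ K * g) := by
      rw [Nat.cast_smul_eq_nsmul]
      simp only [DY_apply, Derivation.leibniz, Derivation.leibniz_pow, D.dyy, smul_eq_mul,
        nsmul_eq_mul]
      rcases K with _ | K
      · simp; ring
      · push_cast
        ring_nf
    rw [h3]
    exact N.sub_mem (hN.hQ _ (hN.hY _ h2)) (N.smul_mem _ h2)

/-- polynomials in `x`, `y` -/
def Pxy (D : Dat A E) : Subalgebra A E := Algebra.adjoin A {D.x, D.y}

theorem x_mem : D.x ∈ D.Pxy := Algebra.subset_adjoin (by simp)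
theorem y_mem : D.y ∈ D.Pxy := Algebra.subset_adjoin (by simp)

theorem Good.tor_mul (hN : D.Good S N) {p : E} (hp : p ∈ D.Pxy) :
    ∀ g : E, Tor D N g → Tor D N (p * g) := by
  induction hp using Algebra.adjoin_induction with
  | mem p hp =>
    intro g hg
    simp only [Set.mem_insert_iff, Set.mem_singleton_iff] at hp
    rcases hp with rfl | rfl
    · exact hN.tor_x hg
    · exact hN.tor_y hg
  | algebraMap r => intro g hg; exact Good.tor_amul r hg
  | add p q _ _ hp hq => intro g hg; rw [add_mul]; exact hN.tor_add (hp g hg) (hq g hg)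
  | mul p q _ _ hp hq => intro g hg; rw [mul_assoc]; exact hp _ (hq g hg)

theorem Good.tor_neg {g : E} (hg : Tor D N g) : Tor D N (-g) := by
  have := Good.tor_smul (-1) hg
  simpa using this

theorem Good.tor_sub (hN : D.Good S N) {g h : E} (hg : Tor D N g) (hh : Tor D N h) :
    Tor D N (g - h) := by
  rw [sub_eq_add_neg]; exact hN.tor_add hg (Good.tor_neg hh)

end Dat

end Pool.Agent.H867.BS
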