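import Pool.Agent.H867.BS.AlgL

set_option autoImplicit false

open MvPolynomial
open Pool.Agent.H882R3.BS (bsIdeal mem_bsIdeal)

namespace Pool.Agent.H867.BS

/-- affine-linear polynomials -/
def Af (l : MvPolynomial (Fin 4) ℂ) : Prop :=
  ∃ (c : ℂ) (a : Fin 4 → ℂ), ∀ s, eval s l = c + ∑ i, a i * s i

theorem Af.add {l l' : MvPolynomial (Fin 4) ℂ} (h : Af l) (h' : Af l') : Af (l + l') := by
  obtain ⟨c, a, h⟩ := h
  obtain ⟨c', a', h'⟩ := h'
  refine ⟨c + c', a + a', fun s => ?_⟩
  rw [map_add, h, h']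
  simp only [Pi.add_apply, add_mul, Finset.sum_add_distrib]
  ring

theorem af_of_totalDegree {l : MvPolynomial (Fin 4) ℂ} (hl : l.totalDegree ≤ 1) : Af l := by
  rw [l.as_sum]
  apply Finset.sum_induction _ Af (fun _ _ => Af.add)
  · exact ⟨0, 0, fun s => by simp⟩
  · intro m hm
    have h1 := (le_totalDegree hm).trans hl
    rw [Finsupp.sum_fintype _ _ (fun _ => rfl)] at h1
    by_cases h0 : m = 0
    · refine ⟨coeff m l, 0, fun s => ?_⟩
      rw [h0]; simp
    · obtain ⟨i, hi⟩ : ∃ i, m i ≠ 0 := by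
        by_contra hcon
        push Not at hcon
        exact h0 (Finsupp.ext hcon)
      have h2 : ∀ j, j ≠ i → m j = 0 := by
        intro j hj
        have h3 : m i + m j ≤ ∑ k, m k := by
          rw [← Finset.sum_pair (Ne.symm hj)]
          exact Finset.sum_le_sum_of_subset (Finset.subset_univ _)
        omega
      have h4 : m i = 1 := by
        have h3 : m i ≤ ∑ k, m k := Finset.single_le_sum (fun _ _ => Nat.zero_le _) (Finset.mem_univ i)
        omega
      have hm1 : m = Finsupp.single i 1 := by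
        ext j
        by_cases hj : j = i
        · rw [hj, h4]; simp
        · rw [h2 j hj]; simp [Finsupp.single_apply, Ne.symm hj]
      refine ⟨0, Pi.single i (coeff m l), fun s => ?_⟩
      rw [hm1, eval_monomial]
      simp [Pi.single_apply]

/-- an affine-linear polynomial that vanishes on the surface vanishes on the hyperplane -/
theorem Af.vanish {l : MvPolynomial (Fin 4) ℂ} (hl : Af l) (h : ∀ s ∈ VV, eval s l = 0)
    (s : Fin 4 → ℂ) (hs : 3 * (s 0 + s 1) + 4 * s 2 + 12 * s 3 + 31 = 0) : eval s l = 0 := by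
  obtain ⟨c, a, hl⟩ := hl
  have h1 : ∀ t w : ℂ, c + (a 0 * (-(t + 1) * (2 * t + 1)) + a 1 * t +
      a 2 * (-(31 + 3 * (-(t + 1) * (2 * t + 1) + t) + 12 * w) / 4) + a 3 * w) = 0 := by
    intro t w
    have := h _ (gam_mem t w)
    rw [hl, Fin.sum_univ_four] at this
    simpa [gam] using this
  have e1 := h1 0 0
  have e2 := h1 0 1
  have e3 := h1 1 0
  have e4 := h1 (-1) 0
  rw [hl, Fin.sum_univ_four]
  have a3 : a 3 = 3 * a 2 := by linear_combination e2 - e1
  have a0 : a 0 = 3 / 4 * a 2 := by linear_combination (-1 / 4) * (e3 + e4 - 2 * e1)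
  have a1 : a 1 = 3 / 4 * a 2 := by
    linear_combination (1 / 2) * (e3 - e4) + 3 * a0
  have ac : c = 31 / 4 * a 2 := by linear_combination e1 + a0
  rw [a3, a0, a1, ac]
  linear_combination (a 2 / 4) * hs

/-- the same for products -/
theorem prod_vanish (L : Multiset (MvPolynomial (Fin 4) ℂ)) (hL : ∀ l ∈ L, l.totalDegree ≤ 1)
    (h : ∀ s ∈ VV, eval s L.prod = 0) (s : Fin 4 → ℂ)
    (hs : 3 * (s 0 + s 1) + 4 * s 2 + 12 * s 3 + 31 = 0) : eval s L.prod = 0 := by
  induction L using Multiset.induction_on with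
  | empty =>
    have := h _ (gam_mem 0 0)
    simp at this
  | cons a L ih =>
    rw [Multiset.prod_cons, map_mul]
    rcases prime_VV a L.prod (fun s hs => by
      have := h s hs
      rwa [Multiset.prod_cons, map_mul] at this) with h1 | h1
    · rw [(af_of_totalDegree (hL a (Multiset.mem_cons_self a L))).vanish h1 s hs, zero_mul]
    · rw [ih (fun l hl => hL l (Multiset.mem_cons_of_mem hl)) h1, mul_zero]

/-- two polynomials whose product vanishes on the hyperplane -/
theorem prime_line (b c : MvPolynomial (Fin 4) ℂ) {s s' : Fin 4 → ℂ}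
    (hs : 3 * (s 0 + s 1) + 4 * s 2 + 12 * s 3 + 31 = 0)
    (hs' : 3 * (s' 0 + s' 1) + 4 * s' 2 + 12 * s' 3 + 31 = 0)
    (h : ∀ u : Fin 4 → ℂ, 3 * (u 0 + u 1) + 4 * u 2 + 12 * u 3 + 31 = 0 → eval u b * eval u c = 0)
    (hb : eval s b ≠ 0) (hc : eval s' c ≠ 0) : False := by
  have hpoly : ∀ p : MvPolynomial (Fin 4) ℂ, ∃ P : Polynomial ℂ, ∀ z,
      P.eval z = eval (fun i => s i + z * (s' i - s i)) p := by
    intro p
    induction p using MvPolynomial.induction_on with
    | C a => exact ⟨Polynomial.C a, fun z => by simp⟩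
    | add p q hp hq =>
      obtain ⟨P1, h1⟩ := hp
      obtain ⟨P2, h2⟩ := hq
      exact ⟨P1 + P2, fun z => by simp [h1, h2]⟩
    | mul_X p i hp =>
      obtain ⟨P1, h1⟩ := hp
      exact ⟨P1 * (Polynomial.C (s i) + Polynomial.X * Polynomial.C (s' i - s i)),
        fun z => by simp [h1]⟩
  obtain ⟨P1, h1⟩ := hpoly b
  obtain ⟨P2, h2⟩ := hpoly c
  have h0 : P1 * P2 = 0 := by
    apply Polynomial.funext
    intro z
    rw [Polynomial.eval_mul, h1, h2, Polynomial.eval_zero]
    apply h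
    linear_combination (1 - z) * hs + z * hs'
  rcases mul_eq_zero.1 h0 with h3 | h3
  · apply hb
    have := h1 0
    rw [h3] at this
    simpa using this.symm
  · apply hc
    have := h2 1
    rw [h3] at this
    simpa using this.symm

theorem not_radical (G : Set (MvPolynomial (Fin 4) ℂ))
    (hG : ∀ g ∈ G, ∃ L : Multiset (MvPolynomial (Fin 4) ℂ),
      (∀ l ∈ L, l.totalDegree ≤ 1) ∧ g = L.prod) :
    (Ideal.span G).radical ≠ (bsIdeal FA mA).radical := by
  intro heq
  -- the generators vanish on the hyperplane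
  have h1 : ∀ g ∈ G, ∀ s : Fin 4 → ℂ, 3 * (s 0 + s 1) + 4 * s 2 + 12 * s 3 + 31 = 0 →
      eval s g = 0 := by
    intro g hg s hs
    obtain ⟨L, hL, rfl⟩ := hG g hg
    refine prod_vanish L hL (fun u hu => ?_) s hs
    have h2 : L.prod ∈ (bsIdeal FA mA).radical := by
      rw [← heq]
      exact Ideal.le_radical (Ideal.subset_span hg)
    obtain ⟨k, hk⟩ := h2
    have h3 := low_al hk u hu
    rw [map_pow] at h3
    exact eq_zero_of_pow_eq_zero h3
  have h2 : ∀ g ∈ Ideal.span G, ∀ s : Fin 4 → ℂ, 3 * (s 0 + s 1) + 4 * s 2 + 12 * s 3 + 31 = 0 →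
      eval s g = 0 := by
    intro g hg s hs
    have hle : Ideal.span G ≤ RingHom.ker (eval s : MvPolynomial (Fin 4) ℂ →+* ℂ) := by
      rw [Ideal.span_le]
      intro g hg
      exact h1 g hg s hs
    exact hle hg
  obtain ⟨q, hq, hqk⟩ := exists_kkA
  have h3 : ∀ s : Fin 4 → ℂ, 3 * (s 0 + s 1) + 4 * s 2 + 12 * s 3 + 31 = 0 →
      eval s q * eval s kk = 0 := by
    intro s hs
    have h4 : q * kk ∈ (Ideal.span G).radical := by
      rw [heq]; exact Ideal.le_radical hqk
    obtain ⟨k, hk⟩ := h4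
    have h5 := h2 _ hk s hs
    rw [map_pow] at h5
    have h6 := eq_zero_of_pow_eq_zero h5
    rwa [map_mul] at h6
  refine prime_line q kk (s := sst) (s' := ![1, 0, -(31 + 3) / 4, 0]) sst_mem.2 ?_ h3 hq ?_
  · simp
    norm_num
  · simp [kk]

end Pool.Agent.H867.BS
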