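import Mathlib

set_option autoImplicit false

open MvPolynomial

namespace Pool.Agent.H867.BS

/-- the parabolic cylinder -/
def VV : Set (Fin 4 → ℂ) :=
  {s | s 0 + (s 1 + 1) * (2 * s 1 + 1) = 0 ∧ 3 * (s 0 + s 1) + 4 * s 2 + 12 * s 3 + 31 = 0}

/-- its parametrisation -/
noncomputable def gam (t w : ℂ) : Fin 4 → ℂ :=
  ![-(t + 1) * (2 * t + 1), t, -(31 + 3 * (-(t + 1) * (2 * t + 1) + t) + 12 * w) / 4, w]

theorem gam_mem (t w : ℂ) : gam t w ∈ VV := by
  refine ⟨?_, ?_⟩
  · simp [gam]; ring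
  · simp [gam]; ring

theorem mem_VV {s : Fin 4 → ℂ} : s ∈ VV ↔ s = gam (s 1) (s 3) := by
  constructor
  · rintro ⟨h1, h2⟩
    funext i
    fin_cases i
    · simp [gam]; linear_combination h1
    · simp [gam]
    · simp [gam]; linear_combination (1 / 4) * h2 - (3 / 4) * h1
    · simp [gam]
  · intro h
    rw [h]; exact gam_mem _ _

theorem gam_poly (b : MvPolynomial (Fin 4) ℂ) (Q R : Polynomial ℂ) :
    ∃ P : Polynomial ℂ, ∀ z, P.eval z = eval (gam (Q.eval z) (R.eval z)) b := by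
  have hcoord : ∀ i : Fin 4, ∃ P : Polynomial ℂ, ∀ z, P.eval z = gam (Q.eval z) (R.eval z) i := by
    intro i
    fin_cases i
    · exact ⟨-(Q + 1) * (2 * Q + 1), fun z => by simp [gam]⟩
    · exact ⟨Q, fun z => by simp [gam]⟩
    · exact ⟨-(31 + 3 * (-(Q + 1) * (2 * Q + 1) + Q) + 12 * R) * Polynomial.C (1 / 4),
        fun z => by simp [gam]; ring⟩
    · exact ⟨R, fun z => by simp [gam]⟩
  induction b using MvPolynomial.induction_on with
  | C a => exact ⟨Polynomial.C a, fun z => by simp⟩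
  | add p q hp hq =>
    obtain ⟨P1, h1⟩ := hp
    obtain ⟨P2, h2⟩ := hq
    exact ⟨P1 + P2, fun z => by simp [h1, h2]⟩
  | mul_X p i hp =>
    obtain ⟨P1, h1⟩ := hp
    obtain ⟨P2, h2⟩ := hcoord i
    exact ⟨P1 * P2, fun z => by simp [h1, h2]⟩

/-- a polynomial that vanishes at sufficiently many integer points of the surface vanishes on it -/
theorem vanish_VV (b : MvPolynomial (Fin 4) ℂ)
    (h : ∀ n : ℕ, 2 ≤ n → ∃ m₀ : ℕ, ∀ m : ℕ, m₀ ≤ m → eval (gam n m) b = 0) :
    ∀ s ∈ VV, eval s b = 0 := by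
  have h1 : ∀ n : ℕ, 2 ≤ n → ∀ w : ℂ, eval (gam n w) b = 0 := by
    intro n hn w
    obtain ⟨m₀, hm⟩ := h n hn
    obtain ⟨P, hP⟩ := gam_poly b (Polynomial.C (n : ℂ)) Polynomial.X
    simp only [Polynomial.eval_C, Polynomial.eval_X] at hP
    have hP0 : P = 0 := by
      apply Polynomial.eq_zero_of_infinite_isRoot
      refine Set.infinite_of_injective_forall_mem (f := fun k : ℕ => ((m₀ + k : ℕ) : ℂ)) ?_ ?_
      · intro a b hab
        have hab' : ((m₀ + a : ℕ) : ℂ) = ((m₀ + b : ℕ) : ℂ) := hab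
        have : (m₀ + a : ℕ) = m₀ + b := by exact_mod_cast hab'
        omega
      · intro k
        change P.eval _ = 0
        rw [hP]
        exact hm _ (by omega)
    rw [← hP, hP0, Polynomial.eval_zero]
  intro s hs
  rw [mem_VV.1 hs]
  obtain ⟨P, hP⟩ := gam_poly b Polynomial.X (Polynomial.C (s 3))
  simp only [Polynomial.eval_C, Polynomial.eval_X] at hP
  have hP0 : P = 0 := by
    apply Polynomial.eq_zero_of_infinite_isRoot
    refine Set.infinite_of_injective_forall_mem (f := fun k : ℕ => ((2 + k : ℕ) : ℂ)) ?_ ?_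
    · intro a b hab
      have hab' : ((2 + a : ℕ) : ℂ) = ((2 + b : ℕ) : ℂ) := hab
      have : (2 + a : ℕ) = 2 + b := by exact_mod_cast hab'
      omega
    · intro k
      change P.eval _ = 0
      rw [hP]
      exact h1 _ (by omega) _
  rw [← hP, hP0, Polynomial.eval_zero]

/-- two polynomials whose product vanishes on the surface -/
theorem prime_VV (b c : MvPolynomial (Fin 4) ℂ) (h : ∀ s ∈ VV, eval s b * eval s c = 0) :
    (∀ s ∈ VV, eval s b = 0) ∨ ∀ s ∈ VV, eval s c = 0 := by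
  by_contra hcon
  push Not at hcon
  obtain ⟨⟨s, hs, hsb⟩, ⟨s', hs', hsc⟩⟩ := hcon
  set Q : Polynomial ℂ := Polynomial.C (s 1) + Polynomial.X * Polynomial.C (s' 1 - s 1) with hQ
  set R : Polynomial ℂ := Polynomial.C (s 3) + Polynomial.X * Polynomial.C (s' 3 - s 3) with hR
  obtain ⟨P1, h1⟩ := gam_poly b Q R
  obtain ⟨P2, h2⟩ := gam_poly c Q R
  have h0 : P1 * P2 = 0 := by
    apply Polynomial.funext
    intro z
    rw [Polynomial.eval_mul, h1, h2, Polynomial.eval_zero]
    exact h _ (gam_mem _ _)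
  rcases mul_eq_zero.1 h0 with h3 | h3
  · apply hsb
    have := h1 0
    rw [h3, hQ, hR] at this
    simp only [Polynomial.eval_zero, Polynomial.eval_add, Polynomial.eval_C, Polynomial.eval_mul,
      Polynomial.eval_X, zero_mul, add_zero] at this
    rw [mem_VV.1 hs]
    exact this.symm
  · apply hsc
    have := h2 1
    rw [h3, hQ, hR] at this
    simp only [Polynomial.eval_zero, Polynomial.eval_add, Polynomial.eval_C, Polynomial.eval_mul,
      Polynomial.eval_X, one_mul, add_sub_cancel] at this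
    rw [mem_VV.1 hs']
    exact this.symm

/-- the surface is not closed under taking midpoints -/
theorem midpoint_VV : ∃ s ∈ VV, ∃ s' ∈ VV, (fun i => (s i + s' i) / 2) ∉ VV := by
  refine ⟨gam 0 0, gam_mem _ _, gam 1 0, gam_mem _ _, ?_⟩
  rintro ⟨h, -⟩
  simp [gam] at h
  norm_num at h

theorem not_affine (S : AffineSubspace ℂ (Fin 4 → ℂ)) : (S : Set (Fin 4 → ℂ)) ≠ VV := by
  intro hS
  obtain ⟨s, hs, s', hs', h⟩ := midpoint_VV
  rw [← hS] at hs hs' h
  apply h
  have h1 := AffineMap.lineMap_mem (1 / 2 : ℂ) hs hs'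
  have e : (fun i => (s i + s' i) / 2) = AffineMap.lineMap s s' (1 / 2 : ℂ) := by
    funext i
    simp [AffineMap.lineMap_apply]
    ring
  rw [e]
  exact h1

end Pool.Agent.H867.BS
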