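import Pool.Agent.H867.BS.LowNot
import Pool.Agent.H867.BS.Surf

set_option autoImplicit false

open scoped Topology
open MvPolynomial
open Pool.Agent.W459.BS (pd act InD bsIdeal mem_bsIdeal zeroSet IsAlgebraicSet IsIrreducibleSet
  IsComponent exists_component IsRationalAffine)

namespace Pool.Agent.H867.BS

theorem sg_eq (n m J : ℕ) (hJ : 2 * J = (n + 1) * n) :
    (fun j => ((sg (n + 1) (m + 1) J j : ℤ) : ℂ)) = gam n m := by
  have hJ' : (2 : ℂ) * J = (n + 1) * n := by exact_mod_cast hJ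
  funext j
  fin_cases j
  · simp only [sg, gam, Fin.zero_eta, Matrix.cons_val_zero]
    push_cast
    linear_combination (-2) * hJ'
  · simp only [sg, gam, Fin.mk_one, Matrix.cons_val_one, Matrix.cons_val_zero]
    push_cast
    ring
  · simp only [sg, gam, Fin.reduceFinMk, Matrix.cons_val]
    push_cast
    linear_combination (3 / 2) * hJ'
  · simp only [sg, gam, Fin.reduceFinMk, Matrix.cons_val]
    push_cast
    ring

/-- the surface is contained in the zero locus of every Bernstein-Sato polynomial -/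
theorem low_bs {W : Set (Fin 2 → ℂ)} (h0 : (0 : Fin 2 → ℂ) ∈ W) {b : MvPolynomial (Fin 4) ℂ}
    (hb : b ∈ bsIdeal FF W) : ∀ s ∈ VV, eval s b = 0 := by
  apply vanish_VV
  intro n hn
  obtain ⟨J, hJ⟩ : ∃ J, 2 * J = (n + 1) * n := by
    obtain ⟨J, hJ⟩ := (Nat.even_mul_succ_self n)
    exact ⟨J, by rw [mul_comm (n + 1) n]; omega⟩
  have hJ1 : 1 ≤ J := by
    by_contra h
    have : J = 0 := by omega
    rw [this] at hJ
    have : 0 < (n + 1) * n := by positivity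
    omega
  refine ⟨J, fun m hm => ?_⟩
  have h1 := low_gen wclosed (fun j => an_FF 0 j) (sg (n + 1) (m + 1) J)
    (gen_mem (n + 1) (m + 1) J (by omega) hJ1 (by rw [Nat.add_sub_cancel]; exact hJ) (by omega))
    (hb 0 h0)
  rw [← sg_eq n m J hJ]
  by_contra hne
  refine not_mem (n + 1) (m + 1) J (by omega) (by omega) ?_
  refine wclosed.congr _ (wclosed.mul _ (analyticAt_const
    (v := (eval (fun j => ((sg (n + 1) (m + 1) J j : ℤ) : ℂ)) b)⁻¹)) _ h1) _
    (Filter.Eventually.of_forall fun x _ => ?_)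
  rw [← mul_assoc, inv_mul_cancel₀ hne, one_mul]

theorem alg_VV : VV = zeroSet {kk, hh} := by
  ext s
  simp only [VV, zeroSet, Set.mem_ofPred_eq, Set.mem_insert_iff, Set.mem_singleton_iff,
    forall_eq_or_imp, forall_eq]
  have e1 : eval s kk = s 0 + (s 1 + 1) * (2 * s 1 + 1) := by simp [kk]
  have e2 : eval s hh = 3 * (s 0 + s 1) + 4 * s 2 + 12 * s 3 + 31 := by simp [hh]
  rw [e1, e2]

theorem irr_VV : IsIrreducibleSet VV := by
  refine ⟨⟨_, alg_VV⟩, ⟨_, gam_mem 0 0⟩, ?_⟩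
  rintro Z₁ Z₂ ⟨B₁, rfl⟩ ⟨B₂, rfl⟩ h
  by_contra hcon
  push Not at hcon
  obtain ⟨h1, h2⟩ := hcon
  obtain ⟨x₁, hx₁, hx₁'⟩ := Set.not_subset.1 h1
  obtain ⟨x₂, hx₂, hx₂'⟩ := Set.not_subset.1 h2
  simp only [zeroSet, Set.mem_ofPred_eq, not_forall] at hx₁' hx₂'
  obtain ⟨b₁, hb₁, hb₁'⟩ := hx₁'
  obtain ⟨b₂, hb₂, hb₂'⟩ := hx₂'
  rcases prime_VV b₁ b₂ (fun s hs => by
    rcases h hs with h' | h'
    · rw [h' b₁ hb₁, zero_mul]
    · rw [h' b₂ hb₂, mul_zero]) with h3 | h3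
  · exact hb₁' (h3 _ hx₁)
  · exact hb₂' (h3 _ hx₂)

theorem sst_mem : sst ∈ VV := by
  have hI : Complex.I ^ 2 = -1 := Complex.I_sq
  refine ⟨?_, ?_⟩
  · simp [sst]
    linear_combination 2 * hI
  · simp [sst]
    ring

/-- a general criterion -/
theorem comp_of {B : Ideal (MvPolynomial (Fin 4) ℂ)} (h1 : ∀ b ∈ B, ∀ s ∈ VV, eval s b = 0)
    (h2 : ∃ q ∈ SS, q * hh ∈ B) (h3 : ∃ q ∈ SS, q * kk ∈ B) :
    IsComponent (zeroSet (B : Set (MvPolynomial (Fin 4) ℂ))) VV := by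
  have hsub : VV ⊆ zeroSet (B : Set (MvPolynomial (Fin 4) ℂ)) := fun s hs b hb => h1 b hb s hs
  obtain ⟨V', hV', hsV'⟩ := exists_component B sst (hsub sst_mem)
  have key : ∀ τ : AA, (∃ q ∈ SS, q * τ ∈ B) → ∀ s ∈ V', eval s τ = 0 := by
    rintro τ ⟨q, hq, hqτ⟩
    have hcov : V' ⊆ zeroSet {q} ∪ zeroSet {τ} := by
      intro s hs
      have := hV'.2.1 hs _ hqτ
      rw [map_mul] at this
      rcases mul_eq_zero.1 this with h | h
      · left; intro b hb; rw [Set.mem_singleton_iff.1 hb]; exact h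
      · right; intro b hb; rw [Set.mem_singleton_iff.1 hb]; exact h
    rcases hV'.1.2.2 _ _ ⟨_, rfl⟩ ⟨_, rfl⟩ hcov with h | h
    · exact absurd (h hsV' q rfl) hq
    · intro s hs; exact h hs τ rfl
  have hle : V' ⊆ VV := by
    intro s hs
    rw [alg_VV]
    intro b hb
    rcases hb with rfl | hb
    · exact key _ h3 s hs
    · rw [Set.mem_singleton_iff.1 hb]; exact key _ h2 s hs
  have : VV = V' := hV'.2.2 VV irr_VV hsub hle
  rw [this]
  exact hV'

theorem comp_VV {W : Set (Fin 2 → ℂ)} (h0 : (0 : Fin 2 → ℂ) ∈ W) :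
    IsComponent (zeroSet (bsIdeal FF W : Set (MvPolynomial (Fin 4) ℂ))) VV := by
  obtain ⟨q, hq, h⟩ := exists_hh
  obtain ⟨q', hq', h'⟩ := exists_kk
  exact comp_of (fun b hb => low_bs h0 hb) ⟨q, hq, h W⟩ ⟨q', hq', h' W⟩

theorem not_rational : ¬ IsRationalAffine VV := by
  rintro ⟨a, E, hE⟩
  obtain ⟨s, hs, s', hs', h⟩ := midpoint_VV
  apply h
  rw [hE] at hs hs' ⊢
  intro e he
  have h1 := hs e he
  have h2 := hs' e he
  have : ∑ i, (e i : ℂ) * ((s i + s' i) / 2 - (a i : ℂ)) =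
      (∑ i, (e i : ℂ) * (s i - (a i : ℂ)) + ∑ i, (e i : ℂ) * (s' i - (a i : ℂ))) / 2 := by
    rw [← Finset.sum_add_distrib, Finset.sum_div]
    refine Finset.sum_congr rfl fun i _ => ?_
    ring
  rw [this, h1, h2]
  simp

end Pool.Agent.H867.BS
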