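import Pool.Agent.H867.BS.LowIn

set_option autoImplicit false

open scoped Topology
open Pool.Agent.W459.BS (pd act InD bsIdeal mem_bsIdeal zeroSet hasDerivAt_pd analyticAt_pd pd_mul
  pd_eq_fderiv hasDerivAt_upd)

namespace Pool.Agent.H867.BS

/-- germs `x^k A + y^l B` -/
def ZZ (k l : ℕ) : Set ((Fin 2 → ℂ) → ℂ) :=
  {G | ∃ A B : (Fin 2 → ℂ) → ℂ, AnalyticAt ℂ A 0 ∧ AnalyticAt ℂ B 0 ∧
    ∀ᶠ x in 𝓝 (0 : Fin 2 → ℂ), G x = (x 0) ^ k * A x + (x 1) ^ l * B x}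

theorem ZZ_pd0 {k l : ℕ} {G : (Fin 2 → ℂ) → ℂ} (hG : G ∈ ZZ (k + 1) l) : pd 0 G ∈ ZZ k l := by
  obtain ⟨A, B, hA, hB, h⟩ := hG
  refine ⟨fun x => (k + 1) * A x + x 0 * pd 0 A x, pd 0 B,
    (analyticAt_const.mul hA).add ((an_x0 0).mul (analyticAt_pd hA 0)), analyticAt_pd hB 0, ?_⟩
  filter_upwards [h.eventually_nhds, hA.eventually_analyticAt, hB.eventually_analyticAt]
    with x hx hAx hBx
  rw [pd_congr hx]
  have h1 := ((hasDerivAt_pow (k + 1) (x 0)).mul (hasDerivAt_pd hAx.differentiableAt 0)).add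
    ((hasDerivAt_pd hBx.differentiableAt 0).const_mul ((x 1) ^ l))
  have e : (fun t : ℂ => (fun x : Fin 2 → ℂ => (x 0) ^ (k + 1) * A x + (x 1) ^ l * B x)
      (Function.update x 0 t)) = fun t : ℂ => t ^ (k + 1) * A (Function.update x 0 t) +
      (x 1) ^ l * B (Function.update x 0 t) := by
    funext t; simp
  rw [pd, e]
  refine Eq.trans h1.deriv ?_
  simp only [Function.update_eq_self, Nat.add_sub_cancel]
  push_cast
  ring

theorem ZZ_pd1 {k l : ℕ} {G : (Fin 2 → ℂ) → ℂ} (hG : G ∈ ZZ k (l + 1)) : pd 1 G ∈ ZZ k l := by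
  obtain ⟨A, B, hA, hB, h⟩ := hG
  refine ⟨pd 1 A, fun x => (l + 1) * B x + x 1 * pd 1 B x, analyticAt_pd hA 1,
    (analyticAt_const.mul hB).add ((an_x1 0).mul (analyticAt_pd hB 1)), ?_⟩
  filter_upwards [h.eventually_nhds, hA.eventually_analyticAt, hB.eventually_analyticAt]
    with x hx hAx hBx
  rw [pd_congr hx]
  have h1 := ((hasDerivAt_pd hAx.differentiableAt 1).const_mul ((x 0) ^ k)).add
    ((hasDerivAt_pow (l + 1) (x 1)).mul (hasDerivAt_pd hBx.differentiableAt 1))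
  have e : (fun t : ℂ => (fun x : Fin 2 → ℂ => (x 0) ^ k * A x + (x 1) ^ (l + 1) * B x)
      (Function.update x 1 t)) = fun t : ℂ => (x 0) ^ k * A (Function.update x 1 t) +
      t ^ (l + 1) * B (Function.update x 1 t) := by
    funext t; simp
  rw [pd, e]
  refine Eq.trans h1.deriv ?_
  simp only [Function.update_eq_self, Nat.add_sub_cancel]
  push_cast
  ring

theorem ZZ_iter0 (a : ℕ) {k l : ℕ} {G : (Fin 2 → ℂ) → ℂ} (hG : G ∈ ZZ (k + a) l) :
    (pd 0)^[a] G ∈ ZZ k l := by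
  induction a generalizing G with
  | zero => simpa using hG
  | succ a ih =>
    rw [Function.iterate_succ_apply]
    exact ih (ZZ_pd0 hG)

theorem ZZ_iter1 (b : ℕ) {k l : ℕ} {G : (Fin 2 → ℂ) → ℂ} (hG : G ∈ ZZ k (l + b)) :
    (pd 1)^[b] G ∈ ZZ k l := by
  induction b generalizing G with
  | zero => simpa using hG
  | succ b ih =>
    rw [Function.iterate_succ_apply]
    exact ih (ZZ_pd1 hG)

theorem ZZ_zero {k l : ℕ} (hk : k ≠ 0) (hl : l ≠ 0) {G : (Fin 2 → ℂ) → ℂ} (hG : G ∈ ZZ k l) :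
    G 0 = 0 := by
  obtain ⟨A, B, -, -, h⟩ := hG
  rw [h.self_of_nhds]
  simp [hk, hl]

/-- polynomial functions -/
def pl {ι : Type*} (s : Finset ι) (c : ι → ℂ) (i j : ι → ℕ) (x : Fin 2 → ℂ) : ℂ :=
  ∑ t ∈ s, c t * ((x 0) ^ i t * (x 1) ^ j t)

variable {ι : Type*} {s : Finset ι} {c : ι → ℂ} {i j : ι → ℕ}

theorem pd0_pl : pd 0 (pl s c i j) = pl s (fun t => c t * i t) (fun t => i t - 1) j := by
  funext x
  have e : (fun t : ℂ => pl s c i j (Function.update x 0 t)) =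
      fun t : ℂ => ∑ k ∈ s, c k * (t ^ i k * (x 1) ^ j k) := by
    funext t; simp [pl]
  have h : ∀ k ∈ s, HasDerivAt (fun t : ℂ => c k * (t ^ i k * (x 1) ^ j k))
      (c k * ((i k * (x 0) ^ (i k - 1)) * (x 1) ^ j k)) (x 0) := fun k _ =>
    ((hasDerivAt_pow (i k) (x 0)).mul_const ((x 1) ^ j k)).const_mul (c k)
  rw [pd, e]
  refine Eq.trans (HasDerivAt.fun_sum h).deriv ?_
  rw [pl]
  refine Finset.sum_congr rfl fun k _ => ?_
  ring

theorem pd1_pl : pd 1 (pl s c i j) = pl s (fun t => c t * j t) i (fun t => j t - 1) := by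
  funext x
  have e : (fun t : ℂ => pl s c i j (Function.update x 1 t)) =
      fun t : ℂ => ∑ k ∈ s, c k * ((x 0) ^ i k * t ^ j k) := by
    funext t; simp [pl]
  have h : ∀ k ∈ s, HasDerivAt (fun t : ℂ => c k * ((x 0) ^ i k * t ^ j k))
      (c k * ((x 0) ^ i k * (j k * (x 1) ^ (j k - 1)))) (x 1) := fun k _ =>
    ((hasDerivAt_pow (j k) (x 1)).const_mul ((x 0) ^ i k)).const_mul (c k)
  rw [pd, e]
  refine Eq.trans (HasDerivAt.fun_sum h).deriv ?_
  rw [pl]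
  refine Finset.sum_congr rfl fun k _ => ?_
  ring

theorem iter0_pl (a : ℕ) : (pd 0)^[a] (pl s c i j) =
    pl s (fun t => c t * (i t).descFactorial a) (fun t => i t - a) j := by
  induction a with
  | zero => simp
  | succ a ih =>
    rw [Function.iterate_succ_apply', ih, pd0_pl]
    congr 1
    funext t
    rw [Nat.descFactorial_succ]; push_cast; ring

theorem iter1_pl (b : ℕ) : (pd 1)^[b] (pl s c i j) =
    pl s (fun t => c t * (j t).descFactorial b) i (fun t => j t - b) := by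
  induction b with
  | zero => simp
  | succ b ih =>
    rw [Function.iterate_succ_apply', ih, pd1_pl]
    congr 1
    funext t
    rw [Nat.descFactorial_succ]; push_cast; ring

/-- coefficient extraction -/
theorem pl_coeff (a b : ℕ) (t₀ : ι) (ht₀ : t₀ ∈ s) (h0 : i t₀ = a ∧ j t₀ = b)
    (hu : ∀ t ∈ s, i t = a → j t = b → t = t₀) :
    (pd 0)^[a] ((pd 1)^[b] (pl s c i j)) 0 = c t₀ * b.factorial * a.factorial := by
  rw [iter1_pl, iter0_pl, pl, Finset.sum_eq_single t₀]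
  · rw [h0.1, h0.2, Nat.descFactorial_self, Nat.descFactorial_self]
    simp
  · intro t ht hne
    by_cases h1 : i t = a
    · by_cases h2 : j t = b
      · exact absurd (hu t ht h1 h2) hne
      · rcases lt_or_gt_of_ne h2 with h | h
        · rw [Nat.descFactorial_eq_zero_iff_lt.2 h]; simp
        · have : j t - b ≠ 0 := by omega
          simp [this]
    · rcases lt_or_gt_of_ne h1 with h | h
      · rw [Nat.descFactorial_eq_zero_iff_lt.2 h]; simp
      · have : i t - a ≠ 0 := by omega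
        simp [this]
  · intro h; exact absurd ht₀ h

theorem an_pl (x : Fin 2 → ℂ) : AnalyticAt ℂ (pl s c i j) x := by
  have h : ∀ t ∈ s, AnalyticAt ℂ (fun y : Fin 2 → ℂ => c t * ((y 0) ^ i t * (y 1) ^ j t)) x :=
    fun t _ => analyticAt_const.mul (((an_x0 x).pow (i t)).mul ((an_x1 x).pow (j t)))
  have h2 := Finset.analyticAt_fun_sum s h
  exact h2

/-- a germ that vanishes outside the divisor vanishes -/
theorem vanish_of_Om {D : (Fin 2 → ℂ) → ℂ} (hD : AnalyticAt ℂ D 0)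
    (h : ∀ᶠ x in 𝓝 (0 : Fin 2 → ℂ), Om x → D x = 0) : ∀ᶠ x in 𝓝 (0 : Fin 2 → ℂ), D x = 0 := by
  obtain ⟨ε, hε, hb⟩ := Metric.eventually_nhds_iff_ball.1 (h.and hD.eventually_analyticAt)
  have h1 : AnalyticOnNhd ℂ D (Metric.ball 0 ε) := fun x hx => (hb x hx).2
  set r : ℝ := ε / 2 with hr
  have hr0 : 0 < r := by positivity
  set z : Fin 2 → ℂ := fun _ => (r : ℂ) with hz
  have hrc : (r : ℂ) ≠ 0 := by exact_mod_cast hr0.ne'
  have hz1 : z ∈ Metric.ball (0 : Fin 2 → ℂ) ε := by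
    rw [mem_ball_zero_iff, pi_norm_lt_iff hε]
    intro i
    rw [hz]
    simp only [Complex.norm_real, Real.norm_eq_abs, abs_of_pos hr0]
    rw [hr]; linarith
  have hz2 : Om z := by
    refine ⟨hrc, ?_, hrc, ?_⟩
    · change (r : ℂ) + r ≠ 0
      rw [← two_mul]
      exact mul_ne_zero two_ne_zero hrc
    · have : ff z = (r : ℂ) ^ 3 := by
        simp only [ff, hz]; ring
      rw [this]
      exact pow_ne_zero 3 hrc
  have h2 : D =ᶠ[𝓝 z] 0 := by
    filter_upwards [Om_open hz2, Metric.isOpen_ball.mem_nhds hz1] with x hx hx'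
    exact (hb x hx').1 hx
  have h3 := h1.eqOn_zero_of_preconnected_of_eventuallyEq_zero
    (convex_ball (0 : Fin 2 → ℂ) ε).isPreconnected hz1 h2
  filter_upwards [Metric.ball_mem_nhds 0 hε] with x hx
  exact h3 hx

/-- exponents of `x` after multiplication by `x^K` -/
def itn (n J K : ℕ) (t : ℕ × ℕ × ℕ) : ℕ := (K + ax (-4 * J - n) (n - 1) t).toNat
/-- exponents of `y` after multiplication by `y^K` -/
def jtn (m J K : ℕ) (t : ℕ × ℕ × ℕ) : ℕ := (K + ay (3 * J - 3 * m - 4) (m - 1) t).toNat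

theorem itn_eq {n m J K : ℕ} (hn : 2 ≤ n) (hK : 4 * J + n + 4 * m + 7 ≤ K) {t : ℕ × ℕ × ℕ}
    (ht : t ∈ PP (n - 1) (m - 1)) :
    ((itn n J K t : ℕ) : ℤ) = K + ax (-4 * J - n) (n - 1) t := by
  obtain ⟨i, l, j⟩ := t
  simp only [PP, Finset.mem_product, Finset.mem_range] at ht
  simp only [itn, ax]; omega

theorem jtn_eq {n m J K : ℕ} (hm : J + 1 ≤ m) (hK : 4 * J + n + 4 * m + 7 ≤ K) {t : ℕ × ℕ × ℕ}
    (ht : t ∈ PP (n - 1) (m - 1)) :
    ((jtn m J K t : ℕ) : ℤ) = K + ay (3 * J - 3 * m - 4) (m - 1) t := by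
  obtain ⟨i, l, j⟩ := t
  simp only [PP, Finset.mem_product, Finset.mem_range] at ht
  simp only [jtn, ay]; omega

theorem expand_K {k : Type*} [Field k] {n m J K : ℕ} (hn : 2 ≤ n) (hm : J + 1 ≤ m)
    (hK : 4 * J + n + 4 * m + 7 ≤ K) {x y : k} (hx : x ≠ 0) (hy : y ≠ 0) :
    x ^ K * y ^ K * (x ^ (-4 * J - n : ℤ) * (x + y) ^ (n - 1) * y ^ (3 * J - 3 * m - 4 : ℤ) *
      (y ^ 3 - x ^ 4 + x ^ 2 * y ^ 2) ^ (m - 1)) =
      ∑ t ∈ PP (n - 1) (m - 1), (cc (n - 1) (m - 1) t : k) *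
        (x ^ (itn n J K t) * y ^ (jtn m J K t)) := by
  rw [expand _ _ _ _ _ _ hx hy, Finset.mul_sum]
  refine Finset.sum_congr rfl fun t ht => ?_
  rw [← zpow_natCast x (itn n J K t), ← zpow_natCast y (jtn m J K t), itn_eq hn hK ht,
    jtn_eq hm hK ht, zpow_add₀ hx, zpow_add₀ hy, zpow_natCast, zpow_natCast]
  ring

theorem pl_not_mem {n m J K : ℕ} (hn : 2 ≤ n) (hm : J + 1 ≤ m)
    (hK : 4 * J + n + 4 * m + 7 ≤ K) :
    pl (PP (n - 1) (m - 1)) (fun t => (cc (n - 1) (m - 1) t : ℂ)) (itn n J K) (jtn m J K) ∉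
      ZZ K K := by
  intro hmem
  have h1 : (pd 1)^[K - 7] (pl (PP (n - 1) (m - 1))
      (fun t => (cc (n - 1) (m - 1) t : ℂ)) (itn n J K) (jtn m J K)) ∈ ZZ K 7 :=
    ZZ_iter1 (K - 7) (by rwa [show 7 + (K - 7) = K by omega])
  have h2 : (pd 0)^[K - 1] ((pd 1)^[K - 7] (pl (PP (n - 1) (m - 1))
      (fun t => (cc (n - 1) (m - 1) t : ℂ)) (itn n J K) (jtn m J K))) ∈ ZZ 1 7 :=
    ZZ_iter0 (K - 1) (by rwa [show 1 + (K - 1) = K by omega])
  have h3 := ZZ_zero one_ne_zero (by norm_num) h2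
  rw [pl_coeff (K - 1) (K - 7) (0, 0, J)] at h3
  · have hc : (cc (n - 1) (m - 1) (0, 0, J) : ℂ) ≠ 0 := by
      have hch : (m - 1).choose J ≠ 0 := (Nat.choose_pos (by omega)).ne'
      simp only [cc, Nat.choose_zero_right, Nat.sub_zero]
      push_cast
      rw [one_mul, one_mul]
      exact mul_ne_zero (by exact_mod_cast hch) (pow_ne_zero _ (by norm_num))
    refine mul_ne_zero (mul_ne_zero hc ?_) ?_ h3
    · exact_mod_cast Nat.factorial_ne_zero _
    · exact_mod_cast Nat.factorial_ne_zero _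
  · simp only [PP, Finset.mem_product, Finset.mem_range]
    omega
  · simp only [itn, jtn, ax, ay]
    omega
  · rintro ⟨i, l, j⟩ ht hi hj
    simp only [PP, Finset.mem_product, Finset.mem_range] at ht
    simp only [itn, jtn, ax, ay] at hi hj
    rw [Prod.mk.injEq, Prod.mk.injEq]
    omega

theorem not_mem (n m J : ℕ) (hn : 2 ≤ n) (hm : J + 1 ≤ m) : zp FF (sg n m J) ∉ WW := by
  rintro ⟨A, B, hA, hB, M, h⟩
  set K : ℕ := M + 4 * J + n + 4 * m + 7 with hK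
  have hexp : ∀ x : Fin 2 → ℂ, Om x → (x 0) ^ K * (x 1) ^ K * zp FF (sg n m J) x =
      pl (PP (n - 1) (m - 1)) (fun t => (cc (n - 1) (m - 1) t : ℂ)) (itn n J K) (jtn m J K) x := by
    rintro x ⟨h0, hu, hy, hf⟩
    have e1 : zp FF (sg n m J) x = (x 0) ^ (-4 * J - n : ℤ) * (x 0 + x 1) ^ (n - 1) *
        (x 1) ^ (3 * J - 3 * m - 4 : ℤ) * (x 1 ^ 3 - x 0 ^ 4 + x 0 ^ 2 * x 1 ^ 2) ^ (m - 1) := by
      have hf' : (x 1 ^ 3 - x 0 ^ 4 + x 0 ^ 2 * x 1 ^ 2) = ff x := rfl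
      rw [zp, Fin.prod_univ_four, FF0, FF1, FF2, FF3, hf']
      have s0 : sg n m J 0 = -4 * J - n := rfl
      have s1 : sg n m J 1 = n - 1 := rfl
      have s2 : sg n m J 2 = 3 * J - 3 * m - 4 := rfl
      have s3 : sg n m J 3 = m - 1 := rfl
      rw [s0, s1, s2, s3, ← zpow_natCast (x 0 + x 1), ← zpow_natCast (ff x)]
      push_cast [show 1 ≤ n by omega, show 1 ≤ m by omega]
      ring
    rw [e1, expand_K hn hm (by omega) h0 hy, pl]
  -- the difference vanishes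
  have hD := vanish_of_Om (D := fun x =>
    pl (PP (n - 1) (m - 1)) (fun t => (cc (n - 1) (m - 1) t : ℂ)) (itn n J K) (jtn m J K) x -
      ((x 0) ^ K * ((x 1) ^ (K - M) * A x) + (x 1) ^ K * ((x 0) ^ (K - M) * B x)))
    ((an_pl 0).sub ((((an_x0 0).pow _).mul (((an_x1 0).pow _).mul hA)).add
      (((an_x1 0).pow _).mul (((an_x0 0).pow _).mul hB)))) (by
    filter_upwards [h] with x hx hO
    have h1 := hx hO
    rw [← hexp x hO, h1]
    obtain ⟨h0, -, hy, -⟩ := hO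
    obtain ⟨L, hL⟩ : ∃ L, K = L + M := ⟨K - M, by omega⟩
    rw [hL, Nat.add_sub_cancel, pow_add, pow_add]
    field_simp
    ring)
  refine pl_not_mem (K := K) hn hm (by omega) ⟨fun x => (x 1) ^ (K - M) * A x,
    fun x => (x 0) ^ (K - M) * B x, ((an_x1 0).pow _).mul hA, ((an_x0 0).pow _).mul hB, ?_⟩
  filter_upwards [hD] with x hx
  exact sub_eq_zero.1 hx

end Pool.Agent.H867.BS
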