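import Pool.Agent.H867.BS.AlgU
import Pool.Agent.H867.BS.LowNot
import Pool.Agent.H867.BS.Final

set_option autoImplicit false
set_option linter.unusedSimpArgs false

open MvPolynomial
open scoped Topology
open Pool.Agent.H882R3.BS (IsVectorField coeffwise act IsDSubmodule dSpan dSpan_isDSubmodule
  gen_mem_dSpan dSpan_le bsIdeal mem_bsIdeal regSet specSub specSub_isDSubmodule spec)

namespace Pool.Agent.H867.BS

/-- powers of `y` -/
noncomputable def Ty : Submonoid PA := Submonoid.powers (X 1)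
/-- powers of `x` -/
noncomputable def Tx : Submonoid PA := Submonoid.powers (X 0)

theorem reg_y (c : ℤ) (a b : ℤ) (ha : 0 ≤ a) : (c : KA) * (xK ^ a * yK ^ b) ∈ regSet Ty := by
  obtain ⟨i, rfl⟩ := Int.eq_ofNat_of_zero_le ha
  refine ⟨X 1 ^ b.natAbs, ⟨_, rfl⟩, (c : PA) * (X 0 ^ i * X 1 ^ ((b + b.natAbs).toNat)), ?_⟩
  have h1 : yK ^ b.natAbs * yK ^ b = yK ^ ((b + b.natAbs).toNat) := by
    rw [← zpow_natCast, ← zpow_natCast, ← zpow_add₀ yK_ne]
    congr 1
    omega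
  change io (X 1 ^ b.natAbs) * _ = io _
  rw [map_mul io, map_mul io, map_pow io, map_pow io, map_pow io, map_intCast]
  change yK ^ b.natAbs * _ = _ * (xK ^ i * yK ^ _)
  rw [← h1, zpow_natCast]
  ring

theorem reg_x (c : ℤ) (a b : ℤ) (hb : 0 ≤ b) : (c : KA) * (xK ^ a * yK ^ b) ∈ regSet Tx := by
  obtain ⟨i, rfl⟩ := Int.eq_ofNat_of_zero_le hb
  refine ⟨X 0 ^ a.natAbs, ⟨_, rfl⟩, (c : PA) * (X 0 ^ ((a + a.natAbs).toNat) * X 1 ^ i), ?_⟩
  have h1 : xK ^ a.natAbs * xK ^ a = xK ^ ((a + a.natAbs).toNat) := by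
    rw [← zpow_natCast, ← zpow_natCast, ← zpow_add₀ xK_ne]
    congr 1
    omega
  change io (X 0 ^ a.natAbs) * _ = io _
  rw [map_mul io, map_mul io, map_pow io, map_pow io, map_pow io, map_intCast]
  change xK ^ a.natAbs * _ = _ * (xK ^ _ * yK ^ i)
  rw [← h1, zpow_natCast]
  ring

theorem zpK (n m J : ℕ) (hn : 1 ≤ n) (hm : 1 ≤ m) : ∏ j, io (FA j) ^ sg n m J j =
    xK ^ (-4 * J - n : ℤ) * (xK + yK) ^ (n - 1) *
        yK ^ (3 * J - 3 * m - 4 : ℤ) * (yK ^ 3 - xK ^ 4 + xK ^ 2 * yK ^ 2) ^ (m - 1) := by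
  obtain ⟨h0, h1, h2, h3⟩ := io_FA
  have hf' : (yK ^ 3 - xK ^ 4 + xK ^ 2 * yK ^ 2) = fK := rfl
  rw [Fin.prod_univ_four, h0, h1, h2, h3, hf']
  have s0 : sg n m J 0 = -4 * J - n := rfl
  have s1 : sg n m J 1 = n - 1 := rfl
  have s2 : sg n m J 2 = 3 * J - 3 * m - 4 := rfl
  have s3 : sg n m J 3 = m - 1 := rfl
  rw [s0, s1, s2, s3, ← zpow_natCast (xK + yK), ← zpow_natCast fK]
  push_cast [hn, hm]
  ring

theorem genK (n m J : ℕ) (hn : 2 ≤ n) (hJ : 1 ≤ J) (hJn : 2 * J = n * (n - 1))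
    (hm : J + 1 ≤ m) : (C pK : MvPolynomial (Fin 4) KA) ∈ specSub FA (sg n m J) Ty Tx := by
  have hx := xK_ne
  have hy := yK_ne
  have hu := uK_ne
  have hf := fK_ne
  have key : pK * ∏ j, io (FA j) ^ sg n m J j ∈ regSet Ty ⊔ regSet Tx := by
    have e1 : pK * ∏ j, io (FA j) ^ sg n m J j = xK ^ (1 - 4 * J - n : ℤ) * (xK + yK) ^ n *
        yK ^ (3 * J - 3 * m - 3 : ℤ) * (yK ^ 3 - xK ^ 4 + xK ^ 2 * yK ^ 2) ^ m := by
      rw [zpK n m J (by omega) (by omega)]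
      have z0 : xK ^ (1 - 4 * J - n : ℤ) = xK * xK ^ (-4 * J - n : ℤ) := by
        rw [← zpow_one_add₀ hx]; congr 1; ring
      have z1 : (xK + yK) ^ n = (xK + yK) * (xK + yK) ^ (n - 1) := by
        rw [← pow_succ']; congr 1; omega
      have z2 : yK ^ (3 * J - 3 * m - 3 : ℤ) = yK * yK ^ (3 * J - 3 * m - 4 : ℤ) := by
        rw [← zpow_one_add₀ hy]; congr 1; ring
      have hf' : (yK ^ 3 - xK ^ 4 + xK ^ 2 * yK ^ 2) = fK := rfl
      have z3 : fK ^ m = fK * fK ^ (m - 1) := by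
        rw [← pow_succ']; congr 1; omega
      rw [hf', z0, z1, z2, z3, pK]
      ring
    rw [e1, expand _ _ _ _ _ _ hx hy, ← Finset.sum_filter_add_sum_filter_not (PP n m)
      (fun t => ax (1 - 4 * J - n) n t < 0 ∧ ay (3 * J - 3 * m - 3) m t < 0),
      bad_filter n m J hn hJ hm, Finset.sum_pair (by simp)]
    have a1 : ax (1 - 4 * J - n) n (2, 0, J) = -1 := by simp only [ax]; push_cast; ring
    have a2 : ay (3 * J - 3 * m - 3) m (2, 0, J) = -1 := by simp only [ay]; push_cast; ring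
    have a3 : ax (1 - 4 * J - n) n (0, 1, J - 1) = -1 := by
      simp only [ax]; push_cast [hJ]; ring
    have a4 : ay (3 * J - 3 * m - 3) m (0, 1, J - 1) = -1 := by
      simp only [ay]; push_cast [hJ]; ring
    have hc : (cc n m (2, 0, J) : KA) + (cc n m (0, 1, J - 1) : KA) = 0 := by
      exact_mod_cast congrArg (fun z : ℤ => (z : KA)) (cc_cancel n m J hJ hJn hm)
    rw [a1, a2, a3, a4, ← add_mul, hc, zero_mul, zero_add]
    refine AddSubgroup.sum_mem _ fun t ht => ?_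
    rw [Finset.mem_filter] at ht
    have h2 := ht.2
    have h3 : 0 ≤ ax (1 - 4 * J - n) n t ∨ 0 ≤ ay (3 * J - 3 * m - 3) m t := by omega
    rcases h3 with h3 | h3
    · exact AddSubgroup.mem_sup_left (reg_y _ _ _ h3)
    · exact AddSubgroup.mem_sup_right (reg_x _ _ _ h3)
  obtain ⟨w₁, h₁, w₂, h₂, e⟩ := AddSubgroup.mem_sup.1 key
  refine ⟨w₁, h₁, w₂, h₂, ?_⟩
  rw [spec, eval_C, e]
  rfl

theorem an_eval (p : PA) (z : Fin 2 → ℂ) : AnalyticAt ℂ (fun x : Fin 2 → ℂ => eval x p) z := by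
  induction p using MvPolynomial.induction_on with
  | C a => simp only [eval_C]; exact analyticAt_const
  | add p q hp hq => simp only [map_add]; exact hp.add hq
  | mul_X p i hp =>
    simp only [map_mul, eval_X]
    refine hp.mul ?_
    fin_cases i
    · exact an_x0 z
    · exact an_x1 z

theorem not_memK {n m J : ℕ} (hn : 2 ≤ n) (hm : J + 1 ≤ m) {c : ℂ} (hc : c ≠ 0) {w₁ w₂ : KA}
    (h₁ : w₁ ∈ regSet Ty) (h₂ : w₂ ∈ regSet Tx)
    (e : io (C c) * ∏ j, io (FA j) ^ sg n m J j = w₁ + w₂) : False := by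
  have hx := xK_ne
  have hy := yK_ne
  obtain ⟨_, ⟨M₁, rfl⟩, A, hA⟩ := h₁
  obtain ⟨_, ⟨M₂, rfl⟩, B, hB⟩ := h₂
  change io ((X 1) ^ M₁) * w₁ = io A at hA
  change io ((X 0) ^ M₂) * w₂ = io B at hB
  rw [map_pow] at hA hB
  change yK ^ M₁ * w₁ = io A at hA
  change xK ^ M₂ * w₂ = io B at hB
  set K : ℕ := M₁ + M₂ + 4 * J + n + 4 * m + 7 with hK
  set pol : PA := ∑ t ∈ PP (n - 1) (m - 1), C (cc (n - 1) (m - 1) t : ℂ) *
    (X 0 ^ (itn n J K t) * X 1 ^ (jtn m J K t)) with hpol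
  have h3 : C c * pol = X 0 ^ K * (X 1 ^ (K - M₁) * A) + X 1 ^ K * (X 0 ^ (K - M₂) * B) := by
    apply io_inj
    have h4 : io pol = xK ^ K * yK ^ K * ∏ j, io (FA j) ^ sg n m J j := by
      rw [zpK n m J (by omega) (by omega), expand_K hn hm (by omega) hx hy, hpol, map_sum]
      refine Finset.sum_congr rfl fun t _ => ?_
      rw [map_mul, map_mul, map_pow, map_pow]
      congr 1
      rw [show (C (cc (n - 1) (m - 1) t : ℂ) : PA) = ((cc (n - 1) (m - 1) t : ℤ) : PA) by simp,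
        map_intCast]
    rw [map_mul, h4, map_add, map_mul, map_mul, map_mul, map_mul, map_pow, map_pow, map_pow,
      map_pow, ← hA, ← hB]
    change _ = xK ^ K * (yK ^ (K - M₁) * (yK ^ M₁ * w₁)) + yK ^ K * (xK ^ (K - M₂) * (xK ^ M₂ * w₂))
    have e1 : yK ^ (K - M₁) * yK ^ M₁ = yK ^ K := by rw [← pow_add]; congr 1; omega
    have e2 : xK ^ (K - M₂) * xK ^ M₂ = xK ^ K := by rw [← pow_add]; congr 1; omega
    rw [← mul_assoc (yK ^ (K - M₁)), e1, ← mul_assoc (xK ^ (K - M₂)), e2]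
    linear_combination (xK ^ K * yK ^ K) * e
  refine pl_not_mem (K := K) hn hm (by omega) ⟨fun x => c⁻¹ * eval x (X 1 ^ (K - M₁) * A),
    fun x => c⁻¹ * eval x (X 0 ^ (K - M₂) * B), analyticAt_const.mul (an_eval _ _),
    analyticAt_const.mul (an_eval _ _), Filter.Eventually.of_forall fun x => ?_⟩
  have h5 := congrArg (eval x) h3
  rw [map_mul, eval_C, map_add, map_mul, map_mul (eval x) (X 1 ^ K), map_pow, map_pow, eval_X,
    eval_X] at h5
  have h6 : eval x pol = pl (PP (n - 1) (m - 1)) (fun t => (cc (n - 1) (m - 1) t : ℂ))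
      (itn n J K) (jtn m J K) x := by
    rw [hpol, pl, map_sum]
    refine Finset.sum_congr rfl fun t _ => ?_
    simp only [map_mul, eval_C, map_pow, eval_X]
  rw [← h6]
  field_simp
  linear_combination h5

/-- the surface is contained in the zero locus of every Bernstein-Sato polynomial -/
theorem low_al {b : MvPolynomial (Fin 4) ℂ}
    (hb : b ∈ bsIdeal FA mA) : ∀ s ∈ VV, eval s b = 0 := by
  apply vanish_VV
  intro n hn
  obtain ⟨J, hJ⟩ : ∃ J, 2 * J = (n + 1) * n := by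
    obtain ⟨J, hJ⟩ := (Nat.even_mul_succ_self n)
    exact ⟨J, by rw [mul_comm (n + 1) n]; omega⟩
  have hJ1 : 1 ≤ J := by
    by_contra h
    have : J = 0 := by omega
    rw [this] at hJ
    have : 0 < (n + 1) * n := by positivity
    omega
  refine ⟨J, fun m hm => ?_⟩
  have hle : dSpan FA mA ≤ specSub FA (sg (n + 1) (m + 1) J) Ty Tx := by
    apply dSpan_le FA mA (specSub_isDSubmodule FA FA_ne _ _ _)
    intro j
    have hj : j = 0 := Subsingleton.elim _ _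
    rw [hj, gen_eq]
    exact genK (n + 1) (m + 1) J (by omega) hJ1 (by rw [Nat.add_sub_cancel]; exact hJ) (by omega)
  obtain ⟨w₁, h₁, w₂, h₂, e⟩ := hle (mem_bsIdeal.mp hb)
  rw [← sg_eq n m J hJ]
  by_contra hne
  refine not_memK (n := n + 1) (m := m + 1) (J := J) (by omega) (by omega) hne h₁ h₂ ?_
  rw [← e, spec]
  congr 1
  have hev : eval (fun j => ((sg (n + 1) (m + 1) J j : ℤ) : KA)) (map (algebraMap ℂ KA) b) =
      algebraMap ℂ KA (eval (fun j => ((sg (n + 1) (m + 1) J j : ℤ) : ℂ)) b) := by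
    rw [eval_map]
    have h1 : (fun j => ((sg (n + 1) (m + 1) J j : ℤ) : KA)) =
        fun j => algebraMap ℂ KA ((sg (n + 1) (m + 1) J j : ℤ) : ℂ) := by
      funext j; simp
    rw [h1]
    exact (eval₂_comp_left (algebraMap ℂ KA) (RingHom.id ℂ) _ b).symm
  rw [hev, io, ← MvPolynomial.algebraMap_eq, ← IsScalarTower.algebraMap_apply ℂ PA KA]

end Pool.Agent.H867.BS
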