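import Pool.Agent.H867.BS.Model
import Pool.Graph.R_seed8.H882R3.BSLower
import Pool.Graph.R_seed8.H882R3.BSUpper

set_option autoImplicit false
set_option linter.unusedSimpArgs false

open MvPolynomial
open Pool.Agent.H882R3.BS (IsVectorField coeffwise act IsDSubmodule dSpan dSpan_isDSubmodule
  gen_mem_dSpan dSpan_le bsIdeal mem_bsIdeal coeff_coeffwise coeffwise_add coeffwise_monomial
  coeffwise_C exists_der_frac)

namespace Pool.Agent.H867.BS

/-- `ℂ[x, y]` -/
abbrev PA : Type := MvPolynomial (Fin 2) ℂ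
/-- `ℂ(x, y)` -/
abbrev KA : Type := FractionRing PA

/-- the tuple `(x, x + y, y, y^3 - x^4 + x^2 y^2)` of elements of `ℂ[x, y]` -/
noncomputable def FA : Fin 4 → PA :=
  ![X 0, X 0 + X 1, X 1, X 1 ^ 3 - X 0 ^ 4 + X 0 ^ 2 * X 1 ^ 2]

/-- `m = (1, 1, 1, 1)` -/
def mA : Fin 1 → Fin 4 → ℕ := ![![1, 1, 1, 1]]

/-- the inclusion -/
noncomputable def io : PA →+* KA := algebraMap PA KA

theorem io_inj : Function.Injective io := IsFractionRing.injective PA KA
theorem io_ne {p : PA} (h : p ≠ 0) : io p ≠ 0 := fun h' => h (io_inj (by rw [h', map_zero]))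

/-- `x` -/
noncomputable def xK : KA := io (X 0)
/-- `y` -/
noncomputable def yK : KA := io (X 1)
/-- `f` -/
noncomputable def fK : KA := yK ^ 3 - xK ^ 4 + xK ^ 2 * yK ^ 2

theorem xK_ne : xK ≠ 0 := io_ne (X_ne_zero 0)
theorem yK_ne : yK ≠ 0 := io_ne (X_ne_zero 1)
theorem uA_ne : (X 0 + X 1 : PA) ≠ 0 := by
  intro h
  have := congrArg (eval (fun _ => (1 : ℂ))) h
  simp at this
theorem fA_ne : (X 1 ^ 3 - X 0 ^ 4 + X 0 ^ 2 * X 1 ^ 2 : PA) ≠ 0 := by
  intro h
  have := congrArg (eval (fun _ => (1 : ℂ))) h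
  simp at this
theorem uK_ne : xK + yK ≠ 0 := by
  have := io_ne uA_ne
  rwa [map_add] at this
theorem fK_ne : fK ≠ 0 := by
  have := io_ne fA_ne
  rw [map_add, map_sub, map_mul, map_pow, map_pow, map_pow, map_pow] at this
  exact this

theorem FA_ne (j : Fin 4) : FA j ≠ 0 := by
  fin_cases j
  · exact X_ne_zero 0
  · exact uA_ne
  · exact X_ne_zero 1
  · exact fA_ne

theorem io_FA : io (FA 0) = xK ∧ io (FA 1) = xK + yK ∧ io (FA 2) = yK ∧ io (FA 3) = fK := by
  refine ⟨rfl, ?_, rfl, ?_⟩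
  · exact map_add io _ _
  · change io (X 1 ^ 3 - X 0 ^ 4 + X 0 ^ 2 * X 1 ^ 2) = _
    rw [map_add, map_sub, map_mul, map_pow, map_pow, map_pow, map_pow]; rfl

/-- `x_0 (x_0 + x_1) x_1 f` -/
noncomputable def pK : KA := xK * (xK + yK) * yK * fK

theorem prod_FA : ∏ j, io (FA j) = pK := by
  obtain ⟨h0, h1, h2, h3⟩ := io_FA
  rw [Fin.prod_univ_four, h0, h1, h2, h3, pK]

/-- the values of the six generators -/
noncomputable def ptK : Fin 6 → KA := ![xK, yK, xK⁻¹, yK⁻¹, (xK + yK)⁻¹, fK⁻¹]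

/-- `ℂ[s] → K[s]` -/
noncomputable def mpK : AA →+* MvPolynomial (Fin 4) KA := map (algebraMap ℂ KA)

/-- `E → K[s]` -/
noncomputable def evK : EE →+* MvPolynomial (Fin 4) KA := eval₂Hom mpK (fun i => C (ptK i))

theorem evK_C (a : AA) : evK (C a) = mpK a := eval₂Hom_C _ _ _
theorem evK_X (i : Fin 6) : evK (X i) = C (ptK i) := eval₂Hom_X' _ _ _
theorem evK_alg (a : AA) : evK (algebraMap AA EE a) = mpK a := evK_C a
theorem evK_smul (a : AA) (g : EE) : evK (a • g) = mpK a * evK g := by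
  rw [smul_eq_C_mul, map_mul, evK_C]

theorem coeffwise_mul_C (δ : Derivation ℂ KA KA) (g : MvPolynomial (Fin 4) KA) (a : KA) :
    coeffwise δ (g * C a) = coeffwise δ g * C a + g * C (δ a) := by
  ext m
  rw [coeff_coeffwise, coeff_add, mul_comm g (C a), mul_comm _ (C a), mul_comm g (C (δ a)),
    coeff_C_mul, coeff_C_mul, coeff_C_mul, coeff_coeffwise, Derivation.leibniz]
  simp only [smul_eq_mul]
  ring

theorem coeffwise_mpK_mul (δ : Derivation ℂ KA KA) (q : AA) (g : MvPolynomial (Fin 4) KA) :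
    coeffwise δ (mpK q * g) = mpK q * coeffwise δ g := by
  ext m
  rw [coeff_coeffwise, coeff_mul, coeff_mul, map_sum]
  refine Finset.sum_congr rfl fun p _ => ?_
  rw [coeff_coeffwise, mpK, coeff_map, Derivation.leibniz, Derivation.map_algebraMap, smul_zero,
    add_zero, smul_eq_mul]

/-- `∂_x` on `ℂ[x, y]` -/
noncomputable def d0 : Derivation ℂ PA PA := pderiv 0
/-- `∂_y` on `ℂ[x, y]` -/
noncomputable def d1 : Derivation ℂ PA PA := pderiv 1

/-- `∂_x` on `ℂ(x, y)` -/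
noncomputable def D0 : Derivation ℂ KA KA := (exists_der_frac d0).choose
/-- `∂_y` on `ℂ(x, y)` -/
noncomputable def D1 : Derivation ℂ KA KA := (exists_der_frac d1).choose

theorem D0_io (b : PA) : D0 (io b) = io (d0 b) := (exists_der_frac d0).choose_spec b
theorem D1_io (b : PA) : D1 (io b) = io (d1 b) := (exists_der_frac d1).choose_spec b

theorem D0_vf : IsVectorField D0 := fun a => ⟨d0 a, D0_io a⟩
theorem D1_vf : IsVectorField D1 := fun a => ⟨d1 a, D1_io a⟩

theorem D0_x : D0 xK = 1 := by rw [xK, D0_io, d0, pderiv_X_self, map_one]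
theorem D0_y : D0 yK = 0 := by
  rw [yK, D0_io, d0, pderiv_X_of_ne (by decide), map_zero]
theorem D1_x : D1 xK = 0 := by
  rw [xK, D1_io, d1, pderiv_X_of_ne (by decide), map_zero]
theorem D1_y : D1 yK = 1 := by rw [yK, D1_io, d1, pderiv_X_self, map_one]
theorem D0_f : D0 fK = -4 * xK ^ 3 + 2 * xK * yK ^ 2 := by
  simp only [fK, map_add, map_sub, Derivation.leibniz, Derivation.leibniz_pow, D0_x, D0_y,
    smul_eq_mul, nsmul_eq_mul]
  push_cast
  ring
theorem D1_f : D1 fK = 3 * yK ^ 2 + 2 * xK ^ 2 * yK := by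
  simp only [fK, map_add, map_sub, Derivation.leibniz, Derivation.leibniz_pow, D1_x, D1_y,
    smul_eq_mul, nsmul_eq_mul]
  push_cast
  ring

theorem der_inv (D : Derivation ℂ KA KA) {a : KA} (_ha : a ≠ 0) : D a⁻¹ = -a⁻¹ ^ 2 * D a := by
  rw [Derivation.leibniz_inv]; simp

theorem C_two : (C 2 : MvPolynomial (Fin 4) KA) = 2 := map_ofNat C 2
theorem C_three : (C 3 : MvPolynomial (Fin 4) KA) = 3 := map_ofNat C 3
theorem C_four : (C 4 : MvPolynomial (Fin 4) KA) = 4 := map_ofNat C 4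

theorem ddx_ev (i : Fin 6) : C (D0 (ptK i)) = evK (ddx (X i)) := by
  rw [ddx_X]
  have e2 : evK 2 = 2 := map_ofNat _ 2
  have e4 : evK 4 = 4 := map_ofNat _ 4
  fin_cases i
  · simp [ptK, D0_x]
  · simp [ptK, D0_y]
  · change C (D0 xK⁻¹) = evK (- X 2 ^ 2)
    rw [der_inv D0 xK_ne, D0_x, map_neg, map_pow, evK_X]
    change _ = -(C xK⁻¹) ^ 2
    simp only [map_mul, map_neg, map_pow, map_one]; ring
  · simp [ptK, evK_X, der_inv D0 yK_ne, D0_y]
  · change C (D0 (xK + yK)⁻¹) = evK (- X 4 ^ 2)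
    rw [der_inv D0 uK_ne, map_add, D0_x, D0_y, map_neg, map_pow, evK_X]
    change _ = -(C (xK + yK)⁻¹) ^ 2
    simp only [map_mul, map_neg, map_pow, map_one, add_zero]; ring
  · change C (D0 fK⁻¹) = evK (- (-4 * X 0 ^ 3 + 2 * X 0 * X 1 ^ 2) * X 5 ^ 2)
    rw [der_inv D0 fK_ne, D0_f]
    simp only [map_mul, map_neg, map_pow, map_add, C_two, C_four, evK_X, e2, e4]
    change _ = -(-4 * (C xK) ^ 3 + 2 * C xK * (C yK) ^ 2) * (C fK⁻¹) ^ 2
    ring

theorem ddy_ev (i : Fin 6) : C (D1 (ptK i)) = evK (ddy (X i)) := by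
  rw [ddy_X]
  have e2 : evK 2 = 2 := map_ofNat _ 2
  have e3 : evK 3 = 3 := map_ofNat _ 3
  fin_cases i
  · simp [ptK, D1_x]
  · simp [ptK, D1_y]
  · simp [ptK, evK_X, der_inv D1 xK_ne, D1_x]
  · change C (D1 yK⁻¹) = evK (- X 3 ^ 2)
    rw [der_inv D1 yK_ne, D1_y, map_neg, map_pow, evK_X]
    change _ = -(C yK⁻¹) ^ 2
    simp only [map_mul, map_neg, map_pow, map_one]; ring
  · change C (D1 (xK + yK)⁻¹) = evK (- X 4 ^ 2)
    rw [der_inv D1 uK_ne, map_add, D1_x, D1_y, map_neg, map_pow, evK_X]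
    change _ = -(C (xK + yK)⁻¹) ^ 2
    simp only [map_mul, map_neg, map_pow, map_one, zero_add]; ring
  · change C (D1 fK⁻¹) = evK (- (3 * X 1 ^ 2 + 2 * X 0 ^ 2 * X 1) * X 5 ^ 2)
    rw [der_inv D1 fK_ne, D1_f]
    simp only [map_mul, map_neg, map_pow, map_add, C_two, C_three, evK_X, e2, e3]
    change _ = -(3 * (C yK) ^ 2 + 2 * (C xK) ^ 2 * C yK) * (C fK⁻¹) ^ 2
    ring

theorem coeffwise_ev0 (p : EE) : coeffwise D0 (evK p) = evK (ddx p) := by
  induction p using MvPolynomial.induction_on with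
  | C a =>
    have h : ddx (C a) = 0 := ddx.map_algebraMap a
    rw [h, map_zero, evK_C]
    have h2 := coeffwise_mpK_mul D0 a 1
    rw [mul_one] at h2
    rw [h2]
    have h3 : coeffwise (r := 4) D0 1 = 0 := by
      have := coeffwise_C (r := 4) D0 1
      rw [map_one] at this
      rw [this]; simp
    rw [h3, mul_zero]
  | add p q hp hq => rw [map_add, coeffwise_add, hp, hq, map_add, map_add]
  | mul_X p i hp =>
    rw [map_mul, evK_X, coeffwise_mul_C, hp, ddx_ev, Derivation.leibniz, map_add, smul_eq_mul,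
      smul_eq_mul, map_mul, map_mul, evK_X]
    ring

theorem coeffwise_ev1 (p : EE) : coeffwise D1 (evK p) = evK (ddy p) := by
  induction p using MvPolynomial.induction_on with
  | C a =>
    have h : ddy (C a) = 0 := ddy.map_algebraMap a
    rw [h, map_zero, evK_C]
    have h2 := coeffwise_mpK_mul D1 a 1
    rw [mul_one] at h2
    rw [h2]
    have h3 : coeffwise (r := 4) D1 1 = 0 := by
      have := coeffwise_C (r := 4) D1 1
      rw [map_one] at this
      rw [this]; simp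
    rw [h3, mul_zero]
  | add p q hp hq => rw [map_add, coeffwise_add, hp, hq, map_add, map_add]
  | mul_X p i hp =>
    rw [map_mul, evK_X, coeffwise_mul_C, hp, ddy_ev, Derivation.leibniz, map_add, smul_eq_mul,
      smul_eq_mul, map_mul, map_mul, evK_X]
    ring

/-- the element corresponding to `p F^(s+1)` -/
noncomputable def gK (p : EE) : MvPolynomial (Fin 4) KA := evK p * C pK

theorem act0_gK (p : EE) (q : AA) : act FA D0 (mpK q * gK p) = mpK q * gK (DD.DX p) := by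
  obtain ⟨h0, h1, h2, h3⟩ := io_FA
  have hx := xK_ne
  have hy := yK_ne
  have hu := uK_ne
  have hf := fK_ne
  have e2 : evK 2 = 2 := map_ofNat _ 2
  have e4 : evK 4 = 4 := map_ofNat _ 4
  have hlog : D0 pK = pK * (xK⁻¹ + (xK + yK)⁻¹ + fK⁻¹ * (-4 * xK ^ 3 + 2 * xK * yK ^ 2)) := by
    rw [pK]
    simp only [Derivation.leibniz, map_add, D0_x, D0_y, D0_f, smul_eq_mul]
    field_simp
    ring
  rw [act, coeffwise_mpK_mul, gK, coeffwise_mul_C, coeffwise_ev0, hlog, gK]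
  change _ + _ * ∑ j, X j * C (D0 (io (FA j)) / io (FA j)) = _
  rw [Fin.sum_univ_four, h0, h1, h2, h3, D0_x, map_add, D0_x, D0_y, D0_f]
  have ew : evK (DD.DX p) = evK (ddx p) + ((X 0 + 1) * C xK⁻¹ + (X 1 + 1) * C (xK + yK)⁻¹ +
      (X 3 + 1) * ((-4 * C xK ^ 3 + 2 * C xK * C yK ^ 2) * C fK⁻¹)) * evK p := by
    rw [Dat.DX_apply, map_add, map_mul, Dat.wx]
    simp only [DD, map_add, map_mul, evK_alg, evK_X, map_neg, map_pow, e2, e4, map_one, mpK, map_X]
    rfl
  rw [ew]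
  have ec : (C ((-4 * xK ^ 3 + 2 * xK * yK ^ 2) / fK) : MvPolynomial (Fin 4) KA) =
      (-4 * C xK ^ 3 + 2 * C xK * C yK ^ 2) * C fK⁻¹ := by
    rw [div_eq_mul_inv]
    simp only [map_mul, map_neg, map_pow, map_add, C_two, C_four]
  rw [ec]
  simp only [map_add, map_mul, map_neg, map_pow, one_div, add_zero, zero_div, C_0, mul_zero, map_ofNat]
  ring

theorem act1_gK (p : EE) (q : AA) : act FA D1 (mpK q * gK p) = mpK q * gK (DD.DY p) := by
  obtain ⟨h0, h1, h2, h3⟩ := io_FA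
  have hx := xK_ne
  have hy := yK_ne
  have hu := uK_ne
  have hf := fK_ne
  have e2 : evK 2 = 2 := map_ofNat _ 2
  have e3 : evK 3 = 3 := map_ofNat _ 3
  have hlog : D1 pK = pK * (yK⁻¹ + (xK + yK)⁻¹ + fK⁻¹ * (3 * yK ^ 2 + 2 * xK ^ 2 * yK)) := by
    rw [pK]
    simp only [Derivation.leibniz, map_add, D1_x, D1_y, D1_f, smul_eq_mul]
    field_simp
    ring
  rw [act, coeffwise_mpK_mul, gK, coeffwise_mul_C, coeffwise_ev1, hlog, gK]
  change _ + _ * ∑ j, X j * C (D1 (io (FA j)) / io (FA j)) = _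
  rw [Fin.sum_univ_four, h0, h1, h2, h3, D1_x, map_add, D1_x, D1_y, D1_f]
  have ew : evK (DD.DY p) = evK (ddy p) + ((X 2 + 1) * C yK⁻¹ + (X 1 + 1) * C (xK + yK)⁻¹ +
      (X 3 + 1) * ((3 * C yK ^ 2 + 2 * C xK ^ 2 * C yK) * C fK⁻¹)) * evK p := by
    rw [Dat.DY_apply, map_add, map_mul, Dat.wy]
    simp only [DD, map_add, map_mul, evK_alg, evK_X, map_neg, map_pow, e2, e3, map_one, mpK, map_X]
    rfl
  rw [ew]
  have ec : (C ((3 * yK ^ 2 + 2 * xK ^ 2 * yK) / fK) : MvPolynomial (Fin 4) KA) =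
      (3 * C yK ^ 2 + 2 * C xK ^ 2 * C yK) * C fK⁻¹ := by
    rw [div_eq_mul_inv]
    simp only [map_mul, map_neg, map_pow, map_add, C_two, C_three]
  rw [ec]
  simp only [map_add, map_mul, map_neg, map_pow, one_div, zero_add, zero_div, C_0, mul_zero, map_ofNat]
  ring

/-- the submodule -/
noncomputable def Nal : Submodule AA EE where
  carrier := {p | ∃ q ∈ SS, mpK q * gK p ∈ dSpan FA mA}
  add_mem' := by
    rintro a b ⟨q, hq, ha⟩ ⟨q', hq', hb⟩
    refine ⟨q * q', SS.mul_mem hq hq', ?_⟩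
    have h1 := (dSpan_isDSubmodule FA mA).poly_mem (map (algebraMap ℂ PA) q') ha
    have h2 := (dSpan_isDSubmodule FA mA).poly_mem (map (algebraMap ℂ PA) q) hb
    rw [map_map, ← IsScalarTower.algebraMap_eq ℂ PA KA] at h1 h2
    have h3 := (dSpan FA mA).add_mem h1 h2
    have e : mpK (q * q') * gK (a + b) = map (algebraMap ℂ KA) q' * (mpK q * gK a) +
        map (algebraMap ℂ KA) q * (mpK q' * gK b) := by
      simp only [gK, mpK, map_mul, map_add]; ring
    rw [e]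
    exact h3
  zero_mem' := by
    refine ⟨1, SS.one_mem, ?_⟩
    simp only [gK, map_zero, zero_mul, mul_zero]
    exact (dSpan FA mA).zero_mem
  smul_mem' := by
    rintro c a ⟨q, hq, ha⟩
    refine ⟨q, hq, ?_⟩
    have h1 := (dSpan_isDSubmodule FA mA).poly_mem (map (algebraMap ℂ PA) c) ha
    rw [map_map, ← IsScalarTower.algebraMap_eq ℂ PA KA] at h1
    have e : mpK q * gK (c • a) = map (algebraMap ℂ KA) c * (mpK q * gK a) := by
      simp only [gK, evK_smul, mpK]; ring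
    rw [e]
    exact h1

theorem gen_eq : (C (∏ i, algebraMap PA KA (FA i) ^ mA 0 i) : MvPolynomial (Fin 4) KA) = C pK := by
  congr 1
  rw [← prod_FA]
  refine Finset.prod_congr rfl fun i _ => ?_
  have : mA 0 i = 1 := by fin_cases i <;> rfl
  rw [this, pow_one]; rfl

theorem relK_aux {r g : EE} (h : evK r = 0) : r * g ∈ Nal := by
  refine ⟨1, SS.one_mem, ?_⟩
  simp only [gK, map_mul, h, zero_mul, mul_zero]
  exact (dSpan FA mA).zero_mem

theorem good_al : DD.Good SS Nal where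
  hX := by
    rintro g ⟨q, hq, hg⟩
    refine ⟨q, hq, ?_⟩
    have h1 := (dSpan_isDSubmodule FA mA).function_mem (X 0) _ hg
    have e : mpK q * gK (DD.x * g) = C (algebraMap PA KA (X 0)) * (mpK q * gK g) := by
      have e1 : evK DD.x = C (algebraMap PA KA (X 0)) := evK_X 0
      rw [gK, map_mul, e1, gK]; ring
    rw [e]; exact h1
  hY := by
    rintro g ⟨q, hq, hg⟩
    refine ⟨q, hq, ?_⟩
    have h1 := (dSpan_isDSubmodule FA mA).function_mem (X 1) _ hg
    have e : mpK q * gK (DD.y * g) = C (algebraMap PA KA (X 1)) * (mpK q * gK g) := by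
      have e1 : evK DD.y = C (algebraMap PA KA (X 1)) := evK_X 1
      rw [gK, map_mul, e1, gK]; ring
    rw [e]; exact h1
  hP := by
    rintro g ⟨q, hq, hg⟩
    refine ⟨q, hq, ?_⟩
    have h1 := (dSpan_isDSubmodule FA mA).act_mem D0 D0_vf _ hg
    rwa [act0_gK] at h1
  hQ := by
    rintro g ⟨q, hq, hg⟩
    refine ⟨q, hq, ?_⟩
    have h1 := (dSpan_isDSubmodule FA mA).act_mem D1 D1_vf _ hg
    rwa [act1_gK] at h1
  r1 g := relK_aux (by
    have h1 : evK DD.x = C xK := evK_X 0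
    have h2 : evK DD.xi = C xK⁻¹ := evK_X 2
    rw [map_sub, map_mul, h1, h2, ← map_mul, mul_inv_cancel₀ xK_ne, map_one, map_one, sub_self])
  r2 g := relK_aux (by
    have h1 : evK DD.y = C yK := evK_X 1
    have h2 : evK DD.yi = C yK⁻¹ := evK_X 3
    rw [map_sub, map_mul, h1, h2, ← map_mul, mul_inv_cancel₀ yK_ne, map_one, map_one, sub_self])
  r3 g := relK_aux (by
    have h1 : evK DD.y = C yK := evK_X 1
    have h0 : evK DD.x = C xK := evK_X 0
    have h2 : evK DD.U = C (xK + yK)⁻¹ := evK_X 4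
    rw [map_sub, map_mul, map_add, h0, h1, h2, ← map_add, ← map_mul, mul_inv_cancel₀ uK_ne, map_one,
      map_one, sub_self])
  r4 g := relK_aux (by
    have h1 : evK DD.y = C yK := evK_X 1
    have h0 : evK DD.x = C xK := evK_X 0
    have h2 : evK DD.V = C fK⁻¹ := evK_X 5
    have h3 : evK DD.f = C fK := by
      rw [Dat.f, fK]
      simp only [map_add, map_sub, map_mul, map_pow, h0, h1]
    rw [map_sub, map_mul, h3, h2, ← map_mul, mul_inv_cancel₀ fK_ne, map_one,
      map_one, sub_self])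
  one := by
    refine ⟨1, SS.one_mem, ?_⟩
    have h := gen_mem_dSpan FA mA 0
    rw [gen_eq] at h
    simpa [gK] using h
  sat := by
    rintro q hq g ⟨q', hq', hg⟩
    refine ⟨q' * q, SS.mul_mem hq' hq, ?_⟩
    have e : mpK (q' * q) * gK g = mpK q' * gK (q • g) := by
      simp only [gK, evK_smul, map_mul]; ring
    rw [e]; exact hg

theorem exists_memA {τ : AA} (h : ∀ g : EE, τ • g ∈ Nal) :
    ∃ q ∈ SS, q * τ ∈ bsIdeal FA mA := by
  obtain ⟨q, hq, hg⟩ := h (X 2 * X 4 * X 3 * X 5)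
  refine ⟨q, hq, ?_⟩
  rw [mem_bsIdeal]
  have e : mpK q * gK (τ • (X 2 * X 4 * X 3 * X 5)) = map (algebraMap ℂ KA) (q * τ) := by
    have e1 : evK (X 2 * X 4 * X 3 * X 5) = C (xK⁻¹ * (xK + yK)⁻¹ * yK⁻¹ * fK⁻¹) := by
      simp only [map_mul, evK_X]; rfl
    have e2 : xK⁻¹ * (xK + yK)⁻¹ * yK⁻¹ * fK⁻¹ * pK = 1 := by
      have hx := xK_ne
      have hy := yK_ne
      have hu := uK_ne
      have hf := fK_ne
      rw [pK]
      field_simp
    rw [gK, evK_smul, e1, mul_assoc, ← map_mul C, e2, map_one, mul_one, ← map_mul]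
    rfl
  rw [← e]
  exact hg

theorem exists_hhA : ∃ q ∈ SS, q * hh ∈ bsIdeal FA mA :=
  exists_memA fun g => (main_model good_al g).1

theorem exists_kkA : ∃ q ∈ SS, q * kk ∈ bsIdeal FA mA :=
  exists_memA fun g => (main_model good_al g).2

end Pool.Agent.H867.BS
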