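import Pool.Agent.H867.BS.Model
import Pool.Graph.R_seed8.W459.BS.Torus

set_option autoImplicit false
set_option linter.unusedSimpArgs false

open MvPolynomial
open Pool.Agent.W459.BS (pd act InD bsIdeal mem_bsIdeal zeroSet IsAlgebraicSet IsIrreducibleSet
  IsComponent hasDerivAt_pd analyticAt_pd pd_mul)

namespace Pool.Agent.H867.BS

/-- `f = y^3 - x^4 + x^2 y^2` -/
def ff (x : Fin 2 → ℂ) : ℂ := x 1 ^ 3 - x 0 ^ 4 + x 0 ^ 2 * x 1 ^ 2

/-- the tuple `(x, x + y, y, y^3 - x^4 + x^2 y^2)` of functions on `ℂ²` -/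
def FF : Fin 4 → (Fin 2 → ℂ) → ℂ :=
  ![fun x => x 0, fun x => x 0 + x 1, fun x => x 1, fun x => x 1 ^ 3 - x 0 ^ 4 + x 0 ^ 2 * x 1 ^ 2]

theorem FF0 (x : Fin 2 → ℂ) : FF 0 x = x 0 := rfl
theorem FF1 (x : Fin 2 → ℂ) : FF 1 x = x 0 + x 1 := rfl
theorem FF2 (x : Fin 2 → ℂ) : FF 2 x = x 1 := rfl
theorem FF3 (x : Fin 2 → ℂ) : FF 3 x = ff x := rfl

theorem prod_FF (x : Fin 2 → ℂ) : ∏ j, FF j x = x 0 * (x 0 + x 1) * x 1 * ff x := by
  rw [Fin.prod_univ_four]; rfl

/-- the complement of the divisor -/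
def Om (x : Fin 2 → ℂ) : Prop := x 0 ≠ 0 ∧ x 0 + x 1 ≠ 0 ∧ x 1 ≠ 0 ∧ ff x ≠ 0

theorem Om_iff (x : Fin 2 → ℂ) : ∏ j, FF j x ≠ 0 ↔ Om x := by
  rw [prod_FF, Om, mul_ne_zero_iff, mul_ne_zero_iff, mul_ne_zero_iff, and_assoc, and_assoc]

/-- values of the six generators -/
noncomputable def pt (x : Fin 2 → ℂ) : Fin 6 → ℂ :=
  ![x 0, x 1, (x 0)⁻¹, (x 1)⁻¹, (x 0 + x 1)⁻¹, (ff x)⁻¹]

/-- evaluation -/
noncomputable def ev (s : Fin 4 → ℂ) (x : Fin 2 → ℂ) : EE →+* ℂ := eval₂Hom (eval s) (pt x)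

theorem ev_C (s : Fin 4 → ℂ) (x : Fin 2 → ℂ) (a : AA) : ev s x (C a) = eval s a :=
  eval₂Hom_C _ _ _
theorem ev_X (s : Fin 4 → ℂ) (x : Fin 2 → ℂ) (i : Fin 6) : ev s x (X i) = pt x i :=
  eval₂Hom_X' _ _ _
theorem ev_alg (s : Fin 4 → ℂ) (x : Fin 2 → ℂ) (a : AA) :
    ev s x (algebraMap AA EE a) = eval s a := ev_C s x a
theorem ev_smul (s : Fin 4 → ℂ) (x : Fin 2 → ℂ) (a : AA) (g : EE) :
    ev s x (a • g) = eval s a * ev s x g := by
  rw [smul_eq_C_mul, map_mul, ev_C]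

theorem hasDerivAt_ff0 (y t : ℂ) :
    HasDerivAt (fun t : ℂ => y ^ 3 - t ^ 4 + t ^ 2 * y ^ 2)
      (-4 * t ^ 3 + 2 * t * y ^ 2) t := by
  have h1 := (((hasDerivAt_id t).pow 4).const_sub (y ^ 3)).add
    (((hasDerivAt_id t).pow 2).mul_const (y ^ 2))
  refine h1.congr_deriv ?_
  simp only [id_eq, Nat.cast_ofNat]
  ring

theorem hasDerivAt_ff1 (x t : ℂ) :
    HasDerivAt (fun t : ℂ => t ^ 3 - x ^ 4 + x ^ 2 * t ^ 2)
      (3 * t ^ 2 + 2 * x ^ 2 * t) t := by
  have h1 := (((hasDerivAt_id t).pow 3).sub_const (x ^ 4)).add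
    (((hasDerivAt_id t).pow 2).const_mul (x ^ 2))
  refine h1.congr_deriv ?_
  simp only [id_eq, Nat.cast_ofNat]
  ring

theorem pt_deriv0 (s : Fin 4 → ℂ) (x : Fin 2 → ℂ) (hx : Om x) (i : Fin 6) :
    HasDerivAt (fun t : ℂ => pt (Function.update x 0 t) i) (ev s x (ddx (X i))) (x 0) := by
  obtain ⟨h0, h1, h2, h3⟩ := hx
  rw [ddx_X]
  fin_cases i
  · simpa [pt] using hasDerivAt_id' (x 0)
  · simpa [pt] using hasDerivAt_const (x 0) (x 1)
  · have := hasDerivAt_inv h0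
    simpa [pt, ev_X] using this
  · simpa [pt] using hasDerivAt_const (x 0) (x 1)⁻¹
  · have := ((hasDerivAt_id' (x 0)).add_const (x 1)).fun_inv h1
    simpa [pt, ev_X, neg_div] using this
  · have := (hasDerivAt_ff0 (x 1) (x 0)).fun_inv h3
    have e2 : ev s x 2 = 2 := map_ofNat _ 2
    have e3 : ev s x 3 = 3 := map_ofNat _ 3
    have e4 : ev s x 4 = 4 := map_ofNat _ 4
    simp [pt, ev_X, ff, e2, e3, e4]
    refine this.congr_deriv ?_
    rw [div_eq_mul_inv, ← inv_pow]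
    ring

theorem pt_deriv1 (s : Fin 4 → ℂ) (x : Fin 2 → ℂ) (hx : Om x) (i : Fin 6) :
    HasDerivAt (fun t : ℂ => pt (Function.update x 1 t) i) (ev s x (ddy (X i))) (x 1) := by
  obtain ⟨h0, h1, h2, h3⟩ := hx
  rw [ddy_X]
  fin_cases i
  · simpa [pt] using hasDerivAt_const (x 1) (x 0)
  · simpa [pt] using hasDerivAt_id' (x 1)
  · simpa [pt] using hasDerivAt_const (x 1) (x 0)⁻¹
  · have := hasDerivAt_inv h2
    simpa [pt, ev_X] using this
  · have := ((hasDerivAt_id' (x 1)).const_add (x 0)).fun_inv h1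
    simpa [pt, ev_X, neg_div] using this
  · have := (hasDerivAt_ff1 (x 0) (x 1)).fun_inv h3
    have e2 : ev s x 2 = 2 := map_ofNat _ 2
    have e3 : ev s x 3 = 3 := map_ofNat _ 3
    have e4 : ev s x 4 = 4 := map_ofNat _ 4
    simp [pt, ev_X, ff, e2, e3, e4]
    refine this.congr_deriv ?_
    rw [div_eq_mul_inv, ← inv_pow]
    ring

theorem ev_deriv0 (s : Fin 4 → ℂ) (x : Fin 2 → ℂ) (hx : Om x) (p : EE) :
    HasDerivAt (fun t : ℂ => ev s (Function.update x 0 t) p) (ev s x (ddx p)) (x 0) := by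
  induction p using MvPolynomial.induction_on with
  | C a =>
    simp only [ev_C]
    have : ddx (C a) = 0 := ddx.map_algebraMap a
    rw [this, map_zero]
    exact hasDerivAt_const _ _
  | add p q hp hq =>
    simp only [map_add]
    exact hp.add hq
  | mul_X p i hp =>
    have h := hp.mul (pt_deriv0 s x hx i)
    simp only [Function.update_eq_self] at h
    simp only [map_mul, Derivation.leibniz, map_add, smul_eq_mul, ev_X]
    refine h.congr_deriv ?_
    ring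

theorem ev_deriv1 (s : Fin 4 → ℂ) (x : Fin 2 → ℂ) (hx : Om x) (p : EE) :
    HasDerivAt (fun t : ℂ => ev s (Function.update x 1 t) p) (ev s x (ddy p)) (x 1) := by
  induction p using MvPolynomial.induction_on with
  | C a =>
    simp only [ev_C]
    have : ddy (C a) = 0 := ddy.map_algebraMap a
    rw [this, map_zero]
    exact hasDerivAt_const _ _
  | add p q hp hq =>
    simp only [map_add]
    exact hp.add hq
  | mul_X p i hp =>
    have h := hp.mul (pt_deriv1 s x hx i)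
    simp only [Function.update_eq_self] at h
    simp only [map_mul, Derivation.leibniz, map_add, smul_eq_mul, ev_X]
    refine h.congr_deriv ?_
    ring

theorem pd_FF (x : Fin 2 → ℂ) :
    pd 0 (FF 0) x = 1 ∧ pd 0 (FF 1) x = 1 ∧ pd 0 (FF 2) x = 0 ∧
    pd 0 (FF 3) x = -4 * x 0 ^ 3 + 2 * x 0 * x 1 ^ 2 ∧
    pd 1 (FF 0) x = 0 ∧ pd 1 (FF 1) x = 1 ∧ pd 1 (FF 2) x = 1 ∧
    pd 1 (FF 3) x = 3 * x 1 ^ 2 + 2 * x 0 ^ 2 * x 1 := by
  refine ⟨?_, ?_, ?_, ?_, ?_, ?_, ?_, ?_⟩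
  · simp [pd, FF]
  · simp [pd, FF]
  · simp [pd, FF]
  · rw [pd]
    have h : (fun t : ℂ => FF 3 (Function.update x 0 t)) =
      fun t : ℂ => x 1 ^ 3 - t ^ 4 + t ^ 2 * x 1 ^ 2 := by funext t; simp [FF]
    rw [h]; exact (hasDerivAt_ff0 (x 1) (x 0)).deriv
  · simp [pd, FF]
  · simp [pd, FF]
  · simp [pd, FF]
  · rw [pd]
    have h : (fun t : ℂ => FF 3 (Function.update x 1 t)) =
      fun t : ℂ => t ^ 3 - x 0 ^ 4 + x 0 ^ 2 * t ^ 2 := by funext t; simp [FF]
    rw [h]; exact (hasDerivAt_ff1 (x 0) (x 1)).deriv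

theorem prod_deriv0 (x : Fin 2 → ℂ) :
    HasDerivAt (fun t : ℂ => ∏ j, FF j (Function.update x 0 t))
      ((x 0 + x 1) * x 1 * ff x + x 0 * x 1 * ff x +
        x 0 * (x 0 + x 1) * x 1 * (-4 * x 0 ^ 3 + 2 * x 0 * x 1 ^ 2)) (x 0) := by
  have h : (fun t : ℂ => ∏ j, FF j (Function.update x 0 t)) =
      fun t : ℂ => t * (t + x 1) * x 1 * (x 1 ^ 3 - t ^ 4 + t ^ 2 * x 1 ^ 2) := by
    funext t; rw [prod_FF]; simp [ff]
  rw [h]
  have h1 := (((hasDerivAt_id' (x 0)).mul ((hasDerivAt_id' (x 0)).add_const (x 1))).mul_const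
    (x 1)).mul (hasDerivAt_ff0 (x 1) (x 0))
  refine h1.congr_deriv ?_
  simp only [ff, Pi.mul_apply]
  ring

theorem prod_deriv1 (x : Fin 2 → ℂ) :
    HasDerivAt (fun t : ℂ => ∏ j, FF j (Function.update x 1 t))
      (x 0 * x 1 * ff x + x 0 * (x 0 + x 1) * ff x +
        x 0 * (x 0 + x 1) * x 1 * (3 * x 1 ^ 2 + 2 * x 0 ^ 2 * x 1)) (x 1) := by
  have h : (fun t : ℂ => ∏ j, FF j (Function.update x 1 t)) =
      fun t : ℂ => x 0 * (x 0 + t) * t * (t ^ 3 - x 0 ^ 4 + x 0 ^ 2 * t ^ 2) := by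
    funext t; rw [prod_FF]; simp [ff]
  rw [h]
  have h1 := ((((hasDerivAt_id' (x 1)).const_add (x 0)).const_mul (x 0)).mul
    (hasDerivAt_id' (x 1))).mul (hasDerivAt_ff1 (x 0) (x 1))
  refine h1.congr_deriv ?_
  simp only [ff, Pi.mul_apply]
  ring

/-- the function corresponding to `p F^(s+1)` -/
noncomputable def gg (p : EE) : (Fin 4 → ℂ) → (Fin 2 → ℂ) → ℂ := fun s x => ev s x p * ∏ j, FF j x

theorem act0_gg (p : EE) (s : Fin 4 → ℂ) (x : Fin 2 → ℂ) (hx : Om x) :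
    act FF 0 (gg p) s x = gg (DD.DX p) s x := by
  have hx' := hx
  obtain ⟨h0, h1, h2, h3⟩ := hx
  have hd := (ev_deriv0 s x hx' p).mul (prod_deriv0 x)
  have hd' : pd 0 (gg p s) x = _ := hd.deriv
  obtain ⟨a0, a1, a2, a3, -⟩ := pd_FF x
  rw [act, hd', Fin.sum_univ_four, a0, a1, a2, a3, FF0, FF1, FF2, FF3]
  simp only [gg, Function.update_eq_self, Dat.DX_apply, Dat.wx, DD, map_add, map_mul, ev_alg, ev_X,
    eval_X, map_one, map_pow, map_neg, prod_FF]
  have e2 : ev s x 2 = 2 := map_ofNat _ 2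
  have e4 : ev s x 4 = 4 := map_ofNat _ 4
  rw [e2, e4]
  simp only [pt, Matrix.cons_val_zero, Matrix.cons_val_one, Matrix.cons_val]
  generalize ff x = z at h3
  generalize x 0 = X at h0 h1
  generalize x 1 = Y at h1 h2
  field_simp
  ring

theorem act1_gg (p : EE) (s : Fin 4 → ℂ) (x : Fin 2 → ℂ) (hx : Om x) :
    act FF 1 (gg p) s x = gg (DD.DY p) s x := by
  have hx' := hx
  obtain ⟨h0, h1, h2, h3⟩ := hx
  have hd := (ev_deriv1 s x hx' p).mul (prod_deriv1 x)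
  have hd' : pd 1 (gg p s) x = _ := hd.deriv
  obtain ⟨-, -, -, -, a0, a1, a2, a3⟩ := pd_FF x
  rw [act, hd', Fin.sum_univ_four, a0, a1, a2, a3, FF0, FF1, FF2, FF3]
  simp only [gg, Function.update_eq_self, Dat.DY_apply, Dat.wy, DD, map_add, map_mul, ev_alg, ev_X,
    eval_X, map_one, map_pow, map_neg, prod_FF]
  have e2 : ev s x 2 = 2 := map_ofNat _ 2
  have e3 : ev s x 3 = 3 := map_ofNat _ 3
  rw [e2, e3]
  simp only [pt, Matrix.cons_val_zero, Matrix.cons_val_one, Matrix.cons_val]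
  generalize ff x = z at h3
  generalize x 0 = X at h0 h1
  generalize x 1 = Y at h1 h2
  field_simp
  ring

theorem act_smul' (i : Fin 2) (q : AA) (g : (Fin 4 → ℂ) → (Fin 2 → ℂ) → ℂ) :
    act FF i (fun s x => eval s q * g s x) = fun s x => eval s q * act FF i g s x := by
  funext s x
  simp only [act, pd]
  rw [deriv_const_mul_field]
  ring

theorem ev_V (s : Fin 4 → ℂ) (x : Fin 2 → ℂ) : ev s x (X 5) = (ff x)⁻¹ := by rw [ev_X]; rfl

/-- the submodule -/
noncomputable def Nan : Submodule AA EE where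
  carrier := {p | ∃ q ∈ SS, ∀ P, InD FF P (fun s x => eval s q * gg p s x)}
  add_mem' := by
    rintro a b ⟨q, hq, ha⟩ ⟨q', hq', hb⟩
    refine ⟨q * q', SS.mul_mem hq hq', fun P => ?_⟩
    refine InD.congr (Filter.Eventually.of_forall fun x _ s => ?_)
      (InD.add (InD.mul_poly q' (ha P)) (InD.mul_poly q (hb P)))
    simp only [gg, map_mul, map_add]; ring
  zero_mem' := by
    refine ⟨1, SS.one_mem, fun P => ?_⟩
    refine InD.congr (Filter.Eventually.of_forall fun x _ s => ?_)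
      (InD.mul_fun (a := fun _ => 0) analyticAt_const InD.gen)
    simp [gg]
  smul_mem' := by
    rintro c a ⟨q, hq, ha⟩
    refine ⟨q, hq, fun P => ?_⟩
    refine InD.congr (Filter.Eventually.of_forall fun x _ s => ?_) (InD.mul_poly c (ha P))
    simp only [gg, ev_smul]; ring

theorem rel_aux {r g : EE} (h : ∀ s x, Om x → ev s x r = 0) : r * g ∈ Nan := by
  refine ⟨1, SS.one_mem, fun P => ?_⟩
  refine InD.congr (Filter.Eventually.of_forall fun x hx s => ?_)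
    (InD.mul_fun (a := fun _ => 0) analyticAt_const InD.gen)
  rw [Om_iff] at hx
  simp [gg, h s x hx]

theorem good_an : DD.Good SS Nan where
  hX := by
    rintro g ⟨q, hq, hg⟩
    refine ⟨q, hq, fun P => ?_⟩
    refine InD.congr (Filter.Eventually.of_forall fun x _ s => ?_)
      (InD.mul_fun (a := fun x => x 0)
        ((ContinuousLinearMap.proj (R := ℂ) (φ := fun _ : Fin 2 => ℂ) 0).analyticAt P) (hg P))
    simp only [gg, DD, map_mul, ev_X, pt, Matrix.cons_val_zero]; ring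
  hY := by
    rintro g ⟨q, hq, hg⟩
    refine ⟨q, hq, fun P => ?_⟩
    refine InD.congr (Filter.Eventually.of_forall fun x _ s => ?_)
      (InD.mul_fun (a := fun x => x 1)
        ((ContinuousLinearMap.proj (R := ℂ) (φ := fun _ : Fin 2 => ℂ) 1).analyticAt P) (hg P))
    simp only [gg, DD, map_mul, ev_X, pt, Matrix.cons_val_one, Matrix.cons_val_zero]; ring
  hP := by
    rintro g ⟨q, hq, hg⟩
    refine ⟨q, hq, fun P => ?_⟩
    have h := InD.der 0 (hg P)
    rw [act_smul'] at h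
    refine InD.congr (Filter.Eventually.of_forall fun x hx s => ?_) h
    rw [Om_iff] at hx
    simp only [act0_gg g s x hx]
  hQ := by
    rintro g ⟨q, hq, hg⟩
    refine ⟨q, hq, fun P => ?_⟩
    have h := InD.der 1 (hg P)
    rw [act_smul'] at h
    refine InD.congr (Filter.Eventually.of_forall fun x hx s => ?_) h
    rw [Om_iff] at hx
    simp only [act1_gg g s x hx]
  r1 g := rel_aux fun s x hx => by
    have := hx.1
    simp [DD, ev_X, pt, this]
  r2 g := rel_aux fun s x hx => by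
    have := hx.2.2.1
    simp [DD, ev_X, pt, this]
  r3 g := rel_aux fun s x hx => by
    have := hx.2.1
    simp [DD, ev_X, pt, this]
  r4 g := rel_aux fun s x hx => by
    have := hx.2.2.2
    rw [Dat.f]
    have e : ev s x (DD.y ^ 3 - DD.x ^ 4 + DD.x ^ 2 * DD.y ^ 2) = ff x := by
      simp [DD, ev_X, pt, ff]
    rw [map_sub, map_mul, e, map_one]
    have e2 : ev s x DD.V = (ff x)⁻¹ := ev_V s x
    rw [e2, mul_inv_cancel₀ this, sub_self]
  one := by
    refine ⟨1, SS.one_mem, fun P => ?_⟩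
    refine InD.congr (Filter.Eventually.of_forall fun x _ s => ?_) InD.gen
    simp [gg]
  sat := by
    rintro q hq g ⟨q', hq', hg⟩
    refine ⟨q' * q, SS.mul_mem hq' hq, fun P => ?_⟩
    refine InD.congr (Filter.Eventually.of_forall fun x _ s => ?_) (hg P)
    simp only [gg, ev_smul, map_mul]; ring

/-- the two elements of the ideal, up to units at the special point -/
theorem exists_mem_aux {τ : AA} (h : ∀ g : EE, τ • g ∈ Nan) :
    ∃ q ∈ SS, ∀ W : Set (Fin 2 → ℂ), q * τ ∈ bsIdeal FF W := by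
  obtain ⟨q, hq, hg⟩ := h (X 2 * X 4 * X 3 * X 5)
  refine ⟨q, hq, fun W => ?_⟩
  rw [mem_bsIdeal]
  intro P _
  refine InD.congr (Filter.Eventually.of_forall fun x hx s => ?_) (hg P)
  rw [Om_iff] at hx
  obtain ⟨h0, h1, h2, h3⟩ := hx
  simp only [gg, ev_smul, map_mul, ev_X, prod_FF, pt, Matrix.cons_val_zero, Matrix.cons_val_one,
    Matrix.cons_val]
  field_simp

theorem exists_hh : ∃ q ∈ SS, ∀ W : Set (Fin 2 → ℂ), q * hh ∈ bsIdeal FF W :=
  exists_mem_aux fun g => (main_model good_an g).1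

theorem exists_kk : ∃ q ∈ SS, ∀ W : Set (Fin 2 → ℂ), q * kk ∈ bsIdeal FF W :=
  exists_mem_aux fun g => (main_model good_an g).2

end Pool.Agent.H867.BS
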