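import Mathlib

set_option autoImplicit false

namespace Pool.Agent.H867.BS

/-- index set: `(i, l, j)` -/
def PP (p q : ℕ) : Finset (ℕ × ℕ × ℕ) :=
  Finset.range (p + 1) ×ˢ (Finset.range (q + 1) ×ˢ Finset.range (q + 1))

/-- coefficients -/
def cc (p q : ℕ) (t : ℕ × ℕ × ℕ) : ℤ :=
  (p.choose t.1 : ℤ) * ((q.choose t.2.1 : ℤ) * (((q - t.2.1).choose t.2.2 : ℤ) * (-1) ^ t.2.2))

/-- exponents -/
def ax (e0 : ℤ) (p : ℕ) (t : ℕ × ℕ × ℕ) : ℤ := e0 + p - t.1 + 4 * t.2.2 + 2 * t.2.1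
def ay (e2 : ℤ) (q : ℕ) (t : ℕ × ℕ × ℕ) : ℤ := e2 + 3 * q + t.1 - t.2.1 - 3 * t.2.2

variable {k : Type*} [Field k]

theorem f_expand (q : ℕ) (x y : k) : (y ^ 3 - x ^ 4 + x ^ 2 * y ^ 2) ^ q =
    ∑ l ∈ Finset.range (q + 1), ∑ j ∈ Finset.range (q + 1),
      ((q.choose l : k) * (((q - l).choose j : k) * (-1) ^ j)) *
        ((x ^ 2 * y ^ 2) ^ l * ((x ^ 4) ^ j * (y ^ 3) ^ (q - l - j))) := by
  have e : y ^ 3 - x ^ 4 + x ^ 2 * y ^ 2 = x ^ 2 * y ^ 2 + (-x ^ 4 + y ^ 3) := by ring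
  rw [e, add_pow]
  refine Finset.sum_congr rfl fun l hl => ?_
  rw [add_pow]
  have hsub : Finset.range (q - l + 1) ⊆ Finset.range (q + 1) := by
    apply Finset.range_subset_range.2; omega
  rw [Finset.mul_sum, Finset.sum_mul]
  have h2 : ∀ j ∈ Finset.range (q + 1), j ∉ Finset.range (q - l + 1) →
      ((q.choose l : k) * (((q - l).choose j : k) * (-1) ^ j)) *
        ((x ^ 2 * y ^ 2) ^ l * ((x ^ 4) ^ j * (y ^ 3) ^ (q - l - j))) = 0 := by
    intro j _ hj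
    rw [Finset.mem_range, not_lt] at hj
    rw [Nat.choose_eq_zero_of_lt (show q - l < j by omega)]
    simp
  rw [← Finset.sum_subset hsub h2]
  refine Finset.sum_congr rfl fun j _ => ?_
  rw [neg_pow (x ^ 4)]
  ring

theorem expand (e0 e2 : ℤ) (p q : ℕ) (x y : k) (hx : x ≠ 0) (hy : y ≠ 0) :
    x ^ e0 * (x + y) ^ p * y ^ e2 * (y ^ 3 - x ^ 4 + x ^ 2 * y ^ 2) ^ q =
      ∑ t ∈ PP p q, (cc p q t : k) * (x ^ ax e0 p t * y ^ ay e2 q t) := by
  rw [f_expand, add_comm x y, add_pow, PP, Finset.sum_product]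
  have e : ∀ (A : ℕ → k) (B : ℕ → ℕ → k),
      x ^ e0 * (∑ i ∈ Finset.range (p + 1), A i) * y ^ e2 *
        (∑ l ∈ Finset.range (q + 1), ∑ j ∈ Finset.range (q + 1), B l j) =
      ∑ i ∈ Finset.range (p + 1), ∑ l ∈ Finset.range (q + 1), ∑ j ∈ Finset.range (q + 1),
        x ^ e0 * y ^ e2 * A i * B l j := by
    intro A B
    rw [show ∀ a b c d : k, a * b * c * d = b * (a * c * d) by intros; ring, Finset.sum_mul]
    refine Finset.sum_congr rfl fun i _ => ?_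
    rw [Finset.mul_sum, Finset.mul_sum]
    refine Finset.sum_congr rfl fun l _ => ?_
    rw [Finset.mul_sum, Finset.mul_sum]
    refine Finset.sum_congr rfl fun j _ => ?_
    ring
  rw [e]
  refine Finset.sum_congr rfl fun i hi => ?_
  rw [Finset.sum_product]
  refine Finset.sum_congr rfl fun l hl => ?_
  refine Finset.sum_congr rfl fun j hj => ?_
  rw [Finset.mem_range] at hi hl hj
  simp only [cc, ax, ay]
  rcases le_or_gt j (q - l) with h | h
  · have h1 : x ^ (e0 + p - i + 4 * j + 2 * l) =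
        x ^ e0 * x ^ (p - i) * (x ^ 4) ^ j * (x ^ 2) ^ l := by
      rw [← pow_mul, ← pow_mul, ← zpow_natCast, ← zpow_natCast, ← zpow_natCast, ← zpow_add₀ hx,
        ← zpow_add₀ hx, ← zpow_add₀ hx]
      congr 1
      push_cast [show i ≤ p by omega]
      ring
    have h2 : y ^ (e2 + 3 * q + i - l - 3 * j) =
        y ^ e2 * y ^ i * (y ^ 2) ^ l * (y ^ 3) ^ (q - l - j) := by
      rw [← pow_mul, ← pow_mul, ← zpow_natCast, ← zpow_natCast, ← zpow_natCast, ← zpow_add₀ hy,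
        ← zpow_add₀ hy, ← zpow_add₀ hy]
      congr 1
      push_cast [show l ≤ q by omega, show j ≤ q - l from h]
      ring
    rw [h1, h2]
    push_cast
    ring
  · rw [Nat.choose_eq_zero_of_lt h]
    simp

end Pool.Agent.H867.BS
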