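import Mathlib

set_option autoImplicit false

namespace Pool.Agent.H867.BS

variable {A : Type*} [CommRing A] {E : Type*} [AddCommGroup E] [Module A E]

/-- The product `(P X + J) ⋯ (P X + 1)`. -/
def TT (P X : Module.End A E) : ℕ → Module.End A E
  | 0 => 1
  | J + 1 => (P * X + ((J + 1 : ℕ) : Module.End A E)) * TT P X J

variable {P X Q Y : Module.End A E}

theorem pxp (h : P * X = X * P + 1) (n : ℕ) :
    P * X * P ^ n = P ^ (n + 1) * X - (n : Module.End A E) * P ^ n := by
  induction n with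
  | zero => simp
  | succ n ih =>
    have h' : X * P = P * X - 1 := by rw [h]; simp
    calc P * X * P ^ (n + 1) = (P * X * P ^ n) * P := by rw [pow_succ]; simp only [mul_assoc]
      _ = P ^ (n + 1) * (X * P) - (n : Module.End A E) * P ^ (n + 1) := by
          rw [ih, sub_mul, mul_assoc, mul_assoc, ← pow_succ]
      _ = P ^ (n + 1 + 1) * X - ((n + 1 : ℕ) : Module.End A E) * P ^ (n + 1) := by
          rw [h', mul_sub, mul_one, ← mul_assoc, ← pow_succ]
          push_cast
          rw [add_mul, one_mul]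
          abel

theorem TT_P (h : P * X = X * P + 1) (J : ℕ) : TT P X J * P = P ^ (J + 1) * X ^ J := by
  induction J with
  | zero => simp [TT]
  | succ J ih =>
    have h1 := pxp h (J + 1)
    calc TT P X (J + 1) * P = (P * X + ((J + 1 : ℕ) : Module.End A E)) * (TT P X J * P) := by
          rw [TT, mul_assoc]
      _ = (P * X * P ^ (J + 1)) * X ^ J + ((J + 1 : ℕ) : Module.End A E) * P ^ (J + 1) * X ^ J := by
          rw [ih, add_mul]; simp only [mul_assoc]
      _ = P ^ (J + 1 + 1) * X ^ (J + 1) := by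
          rw [h1, sub_mul, sub_add_cancel, mul_assoc, ← pow_succ']

theorem TT_comm {B : Module.End A E} (h1 : Commute B P) (h2 : Commute B X) (J : ℕ) :
    Commute B (TT P X J) := by
  induction J with
  | zero => exact Commute.one_right B
  | succ J ih =>
    exact ((h1.mul_right h2).add_right (Nat.commute_cast B _)).mul_right ih

variable {N : Submodule A E}

theorem end_pow_mem (hP : ∀ g ∈ N, P g ∈ N) (n : ℕ) : ∀ g ∈ N, (P ^ n) g ∈ N := by
  induction n with
  | zero => intro g hg; simpa using hg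
  | succ n ih =>
    intro g hg
    rw [pow_succ', Module.End.mul_apply]
    exact hP _ (ih g hg)

theorem TT_mem (hP : ∀ g ∈ N, P g ∈ N) (hX : ∀ g ∈ N, X g ∈ N) (J : ℕ) :
    ∀ g ∈ N, TT P X J g ∈ N := by
  induction J with
  | zero => intro g hg; simpa [TT] using hg
  | succ J ih =>
    intro g hg
    rw [TT, Module.End.mul_apply, LinearMap.add_apply, Module.End.mul_apply,
      Module.End.natCast_apply]
    exact N.add_mem (hP _ (hX _ (ih g hg))) (N.smul_of_tower_mem _ (ih g hg))

theorem TT_sub_mem (hP : ∀ g ∈ N, P g ∈ N) (hX : ∀ g ∈ N, X g ∈ N) {w : E} (hw : X w ∈ N)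
    (J : ℕ) : TT P X J w - (J.factorial) • w ∈ N := by
  induction J with
  | zero => simp [TT]
  | succ J ih =>
    have e : TT P X (J + 1) w - ((J + 1).factorial) • w =
        P (X (TT P X J w - J.factorial • w)) + J.factorial • P (X w) +
        (J + 1) • (TT P X J w - J.factorial • w) := by
      rw [TT, Module.End.mul_apply, LinearMap.add_apply, Module.End.mul_apply,
        Module.End.natCast_apply, Nat.factorial_succ]
      simp only [map_sub, map_nsmul]
      rw [mul_nsmul', smul_sub]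
      abel
    rw [e]
    exact N.add_mem (N.add_mem (hP _ (hX _ ih)) (N.smul_of_tower_mem _ (hP _ hw)))
      (N.smul_of_tower_mem _ ih)

/-- An element killed by `X` and `Y` modulo `N` that is a sum of derivatives modulo `N` is zero
modulo `N`. -/
theorem kash (h1 : P * X = X * P + 1) (h2 : Q * Y = Y * Q + 1) (hPQ : Commute P Q)
    (hPY : Commute P Y) (hQX : Commute Q X) (hXY : Commute X Y)
    (hP : ∀ g ∈ N, P g ∈ N) (hQ : ∀ g ∈ N, Q g ∈ N) (hX : ∀ g ∈ N, X g ∈ N)
    (hY : ∀ g ∈ N, Y g ∈ N) {w p q n : E} (hw : w = P p + Q q + n) (hn : n ∈ N)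
    (hwX : X w ∈ N) (hwY : Y w ∈ N) {J : ℕ} (hp : (X ^ J) p ∈ N) (hq : (Y ^ J) q ∈ N) :
    J.factorial • J.factorial • w ∈ N := by
  -- `T w ≡ J! w`
  have a1 : TT P X J w - J.factorial • w ∈ N := TT_sub_mem hP hX hwX J
  have a2 : TT Q Y J w - J.factorial • w ∈ N := TT_sub_mem hQ hY hwY J
  have a3 : TT Q Y J (TT P X J w) ∈ N := by
    have b1 : TT P X J w = (P ^ (J + 1)) ((X ^ J) p) + Q (TT P X J q) + TT P X J n := by
      have c1 : TT P X J (P p) = (P ^ (J + 1)) ((X ^ J) p) := by
        rw [← Module.End.mul_apply, TT_P h1, Module.End.mul_apply]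
      have c2 : TT P X J (Q q) = Q (TT P X J q) := by
        rw [← Module.End.mul_apply, ← (TT_comm hPQ.symm hQX J).eq, Module.End.mul_apply]
      rw [← c1, ← c2, hw, map_add, map_add]
    have b2 : TT Q Y J (Q (TT P X J q)) = (Q ^ (J + 1)) (TT P X J ((Y ^ J) q)) := by
      have c1 : TT Q Y J (Q (TT P X J q)) = (Q ^ (J + 1)) ((Y ^ J) (TT P X J q)) := by
        rw [← Module.End.mul_apply, TT_P h2, Module.End.mul_apply]
      have c2 : (Y ^ J) (TT P X J q) = TT P X J ((Y ^ J) q) := by
        rw [← Module.End.mul_apply, ← Module.End.mul_apply,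
          (TT_comm (hPY.symm.pow_left J) (hXY.symm.pow_left J) J).eq]
      rw [c1, c2]
    rw [b1, map_add, map_add, b2]
    exact N.add_mem (N.add_mem (TT_mem hQ hY J _ (end_pow_mem hP _ _ hp))
      (end_pow_mem hQ _ _ (TT_mem hP hX J _ hq))) (TT_mem hQ hY J _ (TT_mem hP hX J _ hn))
  have a4 : TT Q Y J (TT P X J w - J.factorial • w) ∈ N := TT_mem hQ hY J _ a1
  have a5 : J.factorial • TT Q Y J w ∈ N := by
    have := N.sub_mem a3 a4
    rwa [map_sub, sub_sub_cancel, map_nsmul] at this
  have a6 := N.sub_mem a5 (N.smul_of_tower_mem J.factorial a2)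
  rwa [smul_sub, sub_sub_cancel] at a6

/-- The torsion induction. -/
theorem kash_all (S : Submonoid A) (hS : ∀ J : ℕ, J ≠ 0 → (J : A) ∈ S)
    (h1 : P * X = X * P + 1) (h2 : Q * Y = Y * Q + 1) (hPQ : Commute P Q)
    (hPY : Commute P Y) (hQX : Commute Q X) (hXY : Commute X Y)
    (hP : ∀ g ∈ N, P g ∈ N) (hQ : ∀ g ∈ N, Q g ∈ N) (hX : ∀ g ∈ N, X g ∈ N)
    (hY : ∀ g ∈ N, Y g ∈ N) (hsat : ∀ q ∈ S, ∀ g : E, q • g ∈ N → g ∈ N)
    (htor : ∀ v : E, ∃ K : ℕ, (X ^ K) v ∈ N ∧ (Y ^ K) v ∈ N) (τ : A)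
    (hτ : ∀ v : E, ∃ s ∈ S, ∃ p q n : E, n ∈ N ∧ s • τ • v = P p + Q q + n) (v : E) :
    τ • v ∈ N := by
  have key : ∀ (n : ℕ) (v : E), (∀ i j : ℕ, n ≤ i + j → (X ^ i) ((Y ^ j) v) ∈ N) → τ • v ∈ N := by
    intro n
    induction n with
    | zero =>
      intro v hv
      exact N.smul_mem τ (by simpa using hv 0 0 le_rfl)
    | succ n ih =>
      intro v hv
      have e1 : τ • X v ∈ N := by
        apply ih
        intro i j hij
        have e : (X ^ i) ((Y ^ j) (X v)) = (X ^ (i + 1)) ((Y ^ j) v) := by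
          rw [← Module.End.mul_apply (Y ^ j), ← (hXY.pow_right j).eq, Module.End.mul_apply,
            ← Module.End.mul_apply, ← pow_succ]
        rw [e]
        exact hv (i + 1) j (by omega)
      have e2 : τ • Y v ∈ N := by
        apply ih
        intro i j hij
        have e : (X ^ i) ((Y ^ j) (Y v)) = (X ^ i) ((Y ^ (j + 1)) v) := by
          rw [pow_succ Y, Module.End.mul_apply]
        rw [e]
        exact hv i (j + 1) (by omega)
      obtain ⟨s, hs, p, q, m, hm, hw⟩ := hτ v
      obtain ⟨K, hK, -⟩ := htor p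
      obtain ⟨L, -, hL⟩ := htor q
      have hp : (X ^ (K + L)) p ∈ N := by
        rw [add_comm, pow_add, Module.End.mul_apply]
        exact end_pow_mem hX _ _ hK
      have hq : (Y ^ (K + L)) q ∈ N := by
        rw [pow_add, Module.End.mul_apply]
        exact end_pow_mem hY _ _ hL
      have hx : X (s • τ • v) ∈ N := by
        rw [map_smul, map_smul]; exact N.smul_mem s e1
      have hy : Y (s • τ • v) ∈ N := by
        rw [map_smul, map_smul]; exact N.smul_mem s e2
      have h := kash h1 h2 hPQ hPY hQX hXY hP hQ hX hY hw hm hx hy hp hq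
      apply hsat s hs
      apply hsat _ (hS _ (Nat.factorial_ne_zero (K + L)))
      apply hsat _ (hS _ (Nat.factorial_ne_zero (K + L)))
      rwa [Nat.cast_smul_eq_nsmul, Nat.cast_smul_eq_nsmul]
  obtain ⟨K, hK1, hK2⟩ := htor v
  apply key (2 * K) v
  intro i j hij
  rcases le_or_gt K i with h | h
  · obtain ⟨i', rfl⟩ := Nat.exists_eq_add_of_le' h
    rw [← Module.End.mul_apply, ((hXY.pow_left _).pow_right _).eq, Module.End.mul_apply, pow_add,
      Module.End.mul_apply]
    exact end_pow_mem hY _ _ (end_pow_mem hX _ _ hK1)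
  · obtain ⟨j', rfl⟩ := Nat.exists_eq_add_of_le' (show K ≤ j by omega)
    rw [pow_add, Module.End.mul_apply]
    exact end_pow_mem hX _ _ (end_pow_mem hY _ _ hK2)

end Pool.Agent.H867.BS
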