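import Pool.Graph.R_seed8.W459.BS.Torus

set_option autoImplicit false

open scoped Topology
open Pool.Agent.W459.BS (pd act InD bsIdeal mem_bsIdeal zeroSet hasDerivAt_pd analyticAt_pd pd_mul
  pd_eq_fderiv hasDerivAt_upd)

namespace Pool.Agent.H867.BS

variable {n r : ℕ}

/-- a class of functions near `p` outside the divisor, stable under differential operators -/
structure WClosed (F : Fin r → (Fin n → ℂ) → ℂ) (p : Fin n → ℂ) (W : Set ((Fin n → ℂ) → ℂ)) :
    Prop where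
  add : ∀ G ∈ W, ∀ H ∈ W, (fun x => G x + H x) ∈ W
  mul : ∀ a : (Fin n → ℂ) → ℂ, AnalyticAt ℂ a p → ∀ G ∈ W, (fun x => a x * G x) ∈ W
  der : ∀ i : Fin n, ∀ G ∈ W, pd i G ∈ W
  congr : ∀ G ∈ W, ∀ H : (Fin n → ℂ) → ℂ, (∀ᶠ x in 𝓝 p, (∏ j, F j x) ≠ 0 → G x = H x) → H ∈ W
  diff : ∀ G ∈ W, ∀ᶠ x in 𝓝 p, (∏ j, F j x) ≠ 0 → DifferentiableAt ℂ G x

/-- `F^σ` for integer exponents -/
noncomputable def zp (F : Fin r → (Fin n → ℂ) → ℂ) (σ : Fin r → ℤ) (x : Fin n → ℂ) : ℂ :=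
  ∏ j, F j x ^ σ j

theorem zp_ne {F : Fin r → (Fin n → ℂ) → ℂ} {σ : Fin r → ℤ} {x : Fin n → ℂ}
    (hx : (∏ j, F j x) ≠ 0) : zp F σ x ≠ 0 := by
  rw [zp, Finset.prod_ne_zero_iff]
  rw [Finset.prod_ne_zero_iff] at hx
  exact fun j hj => zpow_ne_zero _ (hx j hj)

theorem zp_an {F : Fin r → (Fin n → ℂ) → ℂ} {σ : Fin r → ℤ} {x : Fin n → ℂ}
    (hF : ∀ j, AnalyticAt ℂ (F j) x) (hx : (∏ j, F j x) ≠ 0) :
    AnalyticAt ℂ (zp F σ) x := by
  rw [Finset.prod_ne_zero_iff] at hx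
  exact Finset.analyticAt_fun_prod (f := fun j y => F j y ^ σ j) _
    fun j _ => (hF j).fun_zpow (hx j (Finset.mem_univ j))

theorem pd_zp {F : Fin r → (Fin n → ℂ) → ℂ} {σ : Fin r → ℤ} {x : Fin n → ℂ}
    (hF : ∀ j, DifferentiableAt ℂ (F j) x) (hx : (∏ j, F j x) ≠ 0) (i : Fin n) :
    pd i (zp F σ) x = zp F σ x * ∑ j, (σ j : ℂ) * (pd i (F j) x / F j x) := by
  classical
  rw [Finset.prod_ne_zero_iff] at hx
  have h1 : ∀ j ∈ Finset.univ, HasDerivAt (fun t : ℂ => F j (Function.update x i t) ^ σ j)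
      ((σ j : ℂ) * F j x ^ (σ j - 1) * pd i (F j) x) (x i) := by
    intro j _
    have h2 := hasDerivAt_zpow (σ j) (F j (Function.update x i (x i)))
      (Or.inl (by rw [Function.update_eq_self]; exact hx j (Finset.mem_univ j)))
    have h3 := HasDerivAt.comp (x i) h2 (hasDerivAt_pd (hF j) i)
    rw [Function.update_eq_self] at h3
    exact h3
  have h4 := HasDerivAt.fun_finsetProd h1
  have h5 : pd i (zp F σ) x = _ := h4.deriv
  rw [h5, zp, Finset.mul_sum]
  refine Finset.sum_congr rfl fun j hj => ?_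
  rw [← Finset.prod_erase_mul _ _ hj]
  simp only [Function.update_eq_self, smul_eq_mul]
  rw [zpow_sub_one₀ (hx j hj)]
  have := hx j hj
  field_simp

theorem low_gen {F : Fin r → (Fin n → ℂ) → ℂ} {p : Fin n → ℂ} {W : Set ((Fin n → ℂ) → ℂ)}
    (hW : WClosed F p W) (hF : ∀ j, AnalyticAt ℂ (F j) p) (σ : Fin r → ℤ)
    (hgen : (fun x => (∏ j, F j x) * zp F σ x) ∈ W)
    {g : (Fin r → ℂ) → (Fin n → ℂ) → ℂ} (hg : InD F p g) :
    (fun x => g (fun j => (σ j : ℂ)) x * zp F σ x) ∈ W := by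
  have hFe : ∀ᶠ x in 𝓝 p, ∀ j, AnalyticAt ℂ (F j) x :=
    Filter.eventually_all.2 fun j => (hF j).eventually_analyticAt
  induction hg with
  | gen => exact hgen
  | add _ _ hg hh =>
    refine hW.congr _ (hW.add _ hg _ hh) _ (Filter.Eventually.of_forall fun x _ => ?_)
    ring
  | mul_fun ha _ hg =>
    refine hW.congr _ (hW.mul _ ha _ hg) _ (Filter.Eventually.of_forall fun x _ => ?_)
    ring
  | mul_var j _ hg =>
    refine hW.congr _ (hW.mul _ (analyticAt_const (v := (σ j : ℂ))) _ hg) _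
      (Filter.Eventually.of_forall fun x _ => ?_)
    ring
  | congr he _ hg =>
    refine hW.congr _ hg _ ?_
    filter_upwards [he] with x hx h0
    rw [hx h0]
  | @der g i _ hg =>
    refine hW.congr _ (hW.der i _ hg) _ ?_
    filter_upwards [hW.diff _ hg, hFe] with x hx hFx h0
    have hFd : ∀ j, DifferentiableAt ℂ (F j) x := fun j => (hFx j).differentiableAt
    have hG := hx h0
    have hz := (zp_an (σ := σ) hFx h0).differentiableAt
    have hcont : ∀ᶠ y in 𝓝 x, (∏ j, F j y) ≠ 0 := by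
      have hc : ContinuousAt (fun y => ∏ j, F j y) x :=
        tendsto_finsetProd _ fun j _ => (hFd j).continuousAt
      exact hc.eventually_ne h0
    have hgd : DifferentiableAt ℂ (g (fun j => (σ j : ℂ))) x := by
      have h1 : DifferentiableAt ℂ (fun y => (g (fun j => (σ j : ℂ)) y * zp F σ y) / zp F σ y) x :=
        by simpa only [div_eq_mul_inv] using hG.fun_mul (hz.fun_inv (zp_ne h0))
      refine h1.congr_of_eventuallyEq ?_
      filter_upwards [hcont] with y hy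
      rw [mul_div_cancel_right₀ _ (zp_ne hy)]
    rw [pd_mul hgd hz, pd_zp hFd h0]
    simp only [act]
    ring

end Pool.Agent.H867.BS
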