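import Pool.Agent.H867.BS.LowW
import Pool.Agent.H867.BS.Comb

set_option autoImplicit false

open scoped Topology
open Pool.Agent.W459.BS (pd act InD bsIdeal mem_bsIdeal zeroSet hasDerivAt_pd analyticAt_pd pd_mul
  pd_eq_fderiv hasDerivAt_upd)

namespace Pool.Agent.H867.BS

/-- the integer points -/
def sg (n m J : ℕ) : Fin 4 → ℤ := ![-4 * J - n, n - 1, 3 * J - 3 * m - 4, m - 1]

theorem bad_filter (n m J : ℕ) (hn : 2 ≤ n) (hJ : 1 ≤ J) (hm : J + 1 ≤ m) :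
    (PP n m).filter (fun t => ax (1 - 4 * J - n) n t < 0 ∧ ay (3 * J - 3 * m - 3) m t < 0) =
      {(2, 0, J), (0, 1, J - 1)} := by
  ext ⟨i, l, j⟩
  rw [Finset.mem_filter]
  simp only [PP, ax, ay, Finset.mem_product, Finset.mem_range,
    Finset.mem_insert, Finset.mem_singleton, Prod.mk.injEq]
  constructor
  · rintro ⟨⟨h1, h2, h3⟩, h4, h5⟩
    omega
  · rintro (⟨rfl, rfl, rfl⟩ | ⟨rfl, rfl, rfl⟩)
    · refine ⟨⟨by omega, by omega, by omega⟩, by push_cast; omega, by push_cast; omega⟩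
    · refine ⟨⟨by omega, by omega, by omega⟩, by push_cast; omega, by push_cast; omega⟩

theorem cc_cancel (n m J : ℕ) (hJ : 1 ≤ J) (hJn : 2 * J = n * (n - 1)) (hm : J + 1 ≤ m) :
    cc n m (2, 0, J) + cc n m (0, 1, J - 1) = 0 := by
  obtain ⟨J, rfl⟩ := Nat.exists_eq_add_of_le' hJ
  obtain ⟨m, rfl⟩ := Nat.exists_eq_add_of_le' (show 1 ≤ m by omega)
  have h1 : n.choose 2 = J + 1 := by
    rw [Nat.choose_two_right]; omega
  have h2 : (m + 1) * m.choose J = (m + 1).choose (J + 1) * (J + 1) := Nat.add_one_mul_choose_eq m J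
  have h3 : ((m : ℤ) + 1) * (m.choose J : ℤ) = ((m + 1).choose (J + 1) : ℤ) * ((J : ℤ) + 1) := by
    exact_mod_cast h2
  simp only [cc, h1, Nat.choose_zero_right, Nat.choose_one_right, Nat.sub_zero,
    Nat.add_sub_cancel, Nat.cast_one]
  push_cast
  rw [pow_succ]
  linear_combination (-1) ^ J * h3

theorem gen_mem (n m J : ℕ) (hn : 2 ≤ n) (hJ : 1 ≤ J) (hJn : 2 * J = n * (n - 1))
    (hm : J + 1 ≤ m) : (fun x => (∏ j, FF j x) * zp FF (sg n m J) x) ∈ WW := by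
  have h1 : (fun x : Fin 2 → ℂ => ∑ t ∈ (PP n m).filter
      (fun t => ¬ (ax (1 - 4 * J - n) n t < 0 ∧ ay (3 * J - 3 * m - 3) m t < 0)),
      (cc n m t : ℂ) * ((x 0) ^ ax (1 - 4 * J - n) n t * (x 1) ^ ay (3 * J - 3 * m - 3) m t)) ∈ WW := by
    refine sum_mem_WW _ _ fun t ht => mono_mem _ _ _ ?_
    rw [Finset.mem_filter] at ht
    have := ht.2
    omega
  refine wclosed.congr _ h1 _ (Filter.Eventually.of_forall fun x hx => ?_)
  rw [Om_iff] at hx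
  obtain ⟨h0, hu, hy, hf⟩ := hx
  have e1 : (∏ j, FF j x) * zp FF (sg n m J) x = (x 0) ^ (1 - 4 * J - n : ℤ) * (x 0 + x 1) ^ n *
      (x 1) ^ (3 * J - 3 * m - 3 : ℤ) * (x 1 ^ 3 - x 0 ^ 4 + x 0 ^ 2 * x 1 ^ 2) ^ m := by
    have hf' : (x 1 ^ 3 - x 0 ^ 4 + x 0 ^ 2 * x 1 ^ 2) = ff x := rfl
    rw [prod_FF, zp, Fin.prod_univ_four, FF0, FF1, FF2, FF3, hf']
    have s0 : sg n m J 0 = -4 * J - n := rfl
    have s1 : sg n m J 1 = n - 1 := rfl
    have s2 : sg n m J 2 = 3 * J - 3 * m - 4 := rfl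
    have s3 : sg n m J 3 = m - 1 := rfl
    rw [s0, s1, s2, s3]
    have z0 : (x 0) ^ (1 - 4 * J - n : ℤ) = x 0 * (x 0) ^ (-4 * J - n : ℤ) := by
      rw [← zpow_one_add₀ h0]; congr 1; ring
    have z1 : (x 0 + x 1) ^ n = (x 0 + x 1) * (x 0 + x 1) ^ (n - 1 : ℤ) := by
      rw [← zpow_one_add₀ hu, ← zpow_natCast]; congr 1; ring
    have z2 : (x 1) ^ (3 * J - 3 * m - 3 : ℤ) = x 1 * (x 1) ^ (3 * J - 3 * m - 4 : ℤ) := by
      rw [← zpow_one_add₀ hy]; congr 1; ring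
    have z3 : (ff x) ^ m = ff x * (ff x) ^ (m - 1 : ℤ) := by
      rw [← zpow_one_add₀ hf, ← zpow_natCast]; congr 1; ring
    rw [z0, z1, z2, z3]
    ring
  rw [e1, expand _ _ _ _ _ _ h0 hy, ← Finset.sum_filter_add_sum_filter_not (PP n m)
    (fun t => ax (1 - 4 * J - n) n t < 0 ∧ ay (3 * J - 3 * m - 3) m t < 0),
    bad_filter n m J hn hJ hm, Finset.sum_pair (by simp)]
  have a1 : ax (1 - 4 * J - n) n (2, 0, J) = -1 := by simp only [ax]; push_cast; ring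
  have a2 : ay (3 * J - 3 * m - 3) m (2, 0, J) = -1 := by simp only [ay]; push_cast; ring
  have a3 : ax (1 - 4 * J - n) n (0, 1, J - 1) = -1 := by
    simp only [ax]; push_cast [hJ]; ring
  have a4 : ay (3 * J - 3 * m - 3) m (0, 1, J - 1) = -1 := by
    simp only [ay]; push_cast [hJ]; ring
  rw [a1, a2, a3, a4]
  have hc : (cc n m (2, 0, J) : ℂ) + (cc n m (0, 1, J - 1) : ℂ) = 0 := by
    exact_mod_cast cc_cancel n m J hJ hJn hm
  linear_combination (-((x 0) ^ (-1 : ℤ) * (x 1) ^ (-1 : ℤ))) * hc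

end Pool.Agent.H867.BS
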