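import Pool.Agent.H867.BS.An
import Pool.Agent.H867.BS.LowGen

set_option autoImplicit false

open scoped Topology
open Pool.Agent.W459.BS (pd act InD bsIdeal mem_bsIdeal zeroSet hasDerivAt_pd analyticAt_pd pd_mul
  pd_eq_fderiv hasDerivAt_upd)

namespace Pool.Agent.H867.BS

theorem an_x0 (x : Fin 2 → ℂ) : AnalyticAt ℂ (fun x : Fin 2 → ℂ => x 0) x :=
  (ContinuousLinearMap.proj (R := ℂ) (φ := fun _ : Fin 2 => ℂ) 0).analyticAt x

theorem an_x1 (x : Fin 2 → ℂ) : AnalyticAt ℂ (fun x : Fin 2 → ℂ => x 1) x :=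
  (ContinuousLinearMap.proj (R := ℂ) (φ := fun _ : Fin 2 => ℂ) 1).analyticAt x

/-- functions `A / y^M + B / x^M` near the origin -/
def WW : Set ((Fin 2 → ℂ) → ℂ) :=
  {G | ∃ A B : (Fin 2 → ℂ) → ℂ, AnalyticAt ℂ A 0 ∧ AnalyticAt ℂ B 0 ∧ ∃ M : ℕ,
    ∀ᶠ x in 𝓝 (0 : Fin 2 → ℂ), Om x → G x = A x / (x 1) ^ M + B x / (x 0) ^ M}

/-- the derivative of `A / y^M + B / x^M` -/
theorem pd0_K {A B : (Fin 2 → ℂ) → ℂ} {x : Fin 2 → ℂ} (hA : AnalyticAt ℂ A x)
    (hB : AnalyticAt ℂ B x) (M : ℕ) (h0 : x 0 ≠ 0) (h1 : x 1 ≠ 0) :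
    pd 0 (fun x => A x / (x 1) ^ M + B x / (x 0) ^ M) x =
      (x 1 * pd 0 A x) / (x 1) ^ (M + 1) + (x 0 * pd 0 B x - M * B x) / (x 0) ^ (M + 1) := by
  have h := ((hasDerivAt_pd hA.differentiableAt 0).div_const ((x 1) ^ M)).add
    ((hasDerivAt_pd hB.differentiableAt 0).fun_div (hasDerivAt_pow M (x 0)) (pow_ne_zero M h0))
  have e : (fun t : ℂ => (fun x : Fin 2 → ℂ => A x / (x 1) ^ M + B x / (x 0) ^ M)
      (Function.update x 0 t)) = fun t : ℂ => A (Function.update x 0 t) / (x 1) ^ M +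
      B (Function.update x 0 t) / t ^ M := by
    funext t; simp
  rw [pd, e]
  refine Eq.trans h.deriv ?_
  simp only [Function.update_eq_self]
  rcases M with _ | M
  · simp only [pow_zero, Nat.cast_zero, zero_mul, mul_zero, sub_zero]
    field_simp
    ring
  · simp only [Nat.add_sub_cancel]
    field_simp
    ring

theorem pd1_K {A B : (Fin 2 → ℂ) → ℂ} {x : Fin 2 → ℂ} (hA : AnalyticAt ℂ A x)
    (hB : AnalyticAt ℂ B x) (M : ℕ) (h0 : x 0 ≠ 0) (h1 : x 1 ≠ 0) :
    pd 1 (fun x => A x / (x 1) ^ M + B x / (x 0) ^ M) x =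
      (x 1 * pd 1 A x - M * A x) / (x 1) ^ (M + 1) + (x 0 * pd 1 B x) / (x 0) ^ (M + 1) := by
  have h := ((hasDerivAt_pd hA.differentiableAt 1).fun_div (hasDerivAt_pow M (x 1))
    (pow_ne_zero M h1)).add ((hasDerivAt_pd hB.differentiableAt 1).div_const ((x 0) ^ M))
  have e : (fun t : ℂ => (fun x : Fin 2 → ℂ => A x / (x 1) ^ M + B x / (x 0) ^ M)
      (Function.update x 1 t)) = fun t : ℂ => A (Function.update x 1 t) / t ^ M +
      B (Function.update x 1 t) / (x 0) ^ M := by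
    funext t; simp
  rw [pd, e]
  refine Eq.trans h.deriv ?_
  simp only [Function.update_eq_self]
  rcases M with _ | M
  · simp only [pow_zero, Nat.cast_zero, zero_mul, mul_zero, sub_zero]
    field_simp
    ring
  · simp only [Nat.add_sub_cancel]
    field_simp
    ring

theorem an_FF (x : Fin 2 → ℂ) (j : Fin 4) : AnalyticAt ℂ (FF j) x := by
  have h0 := an_x0 x
  have h1 := an_x1 x
  fin_cases j
  · exact h0
  · exact h0.add h1
  · exact h1
  · exact ((h1.pow 3).sub (h0.pow 4)).add ((h0.pow 2).mul (h1.pow 2))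

theorem Om_open {x : Fin 2 → ℂ} (hx : Om x) : ∀ᶠ y in 𝓝 x, Om y := by
  have hc : ContinuousAt (fun y => ∏ j, FF j y) x :=
    tendsto_finsetProd _ fun j _ => (an_FF x j).continuousAt
  rw [← Om_iff] at hx
  filter_upwards [hc.eventually_ne hx] with y hy
  rwa [Om_iff] at hy

theorem pd_congr {G K : (Fin 2 → ℂ) → ℂ} {x : Fin 2 → ℂ} (h : ∀ᶠ y in 𝓝 x, G y = K y)
    (i : Fin 2) : pd i G x = pd i K x := by
  apply Filter.EventuallyEq.deriv_eq
  have hc : Filter.Tendsto (fun t : ℂ => Function.update x i t) (𝓝 (x i)) (𝓝 x) := by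
    have : Continuous (fun t : ℂ => Function.update x i t) := continuous_const.update i continuous_id
    have h2 := this.tendsto (x i)
    rwa [Function.update_eq_self] at h2
  exact hc.eventually h

theorem wclosed : WClosed FF 0 WW where
  add := by
    rintro G ⟨A, B, hA, hB, M, h⟩ G' ⟨A', B', hA', hB', M', h'⟩
    refine ⟨fun x => (x 1) ^ M' * A x + (x 1) ^ M * A' x,
      fun x => (x 0) ^ M' * B x + (x 0) ^ M * B' x,
      (((an_x1 0).pow M').mul hA).add (((an_x1 0).pow M).mul hA'),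
      (((an_x0 0).pow M').mul hB).add (((an_x0 0).pow M).mul hB'), M + M', ?_⟩
    filter_upwards [h, h'] with x hx hx' hO
    rw [hx hO, hx' hO]
    obtain ⟨h0, -, h1, -⟩ := hO
    field_simp
    ring
  mul := by
    rintro a ha G ⟨A, B, hA, hB, M, h⟩
    refine ⟨fun x => a x * A x, fun x => a x * B x, ha.mul hA, ha.mul hB, M, ?_⟩
    filter_upwards [h] with x hx hO
    rw [hx hO]
    ring
  der := by
    rintro i G ⟨A, B, hA, hB, M, h⟩
    have key : ∀ᶠ x in 𝓝 (0 : Fin 2 → ℂ), Om x → pd i G x =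
        pd i (fun x => A x / (x 1) ^ M + B x / (x 0) ^ M) x := by
      filter_upwards [h.eventually_nhds] with x hx hO
      apply pd_congr
      filter_upwards [hx, Om_open hO] with y hy hy'
      exact hy hy'
    fin_cases i
    · refine ⟨fun x => x 1 * pd 0 A x, fun x => x 0 * pd 0 B x - M * B x,
        (an_x1 0).mul (analyticAt_pd hA 0), ((an_x0 0).mul (analyticAt_pd hB 0)).sub
        (analyticAt_const.mul hB), M + 1, ?_⟩
      filter_upwards [key, hA.eventually_analyticAt, hB.eventually_analyticAt] with x hx hAx hBx hO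
      exact (hx hO).trans (pd0_K hAx hBx M hO.1 hO.2.2.1)
    · refine ⟨fun x => x 1 * pd 1 A x - M * A x, fun x => x 0 * pd 1 B x,
        ((an_x1 0).mul (analyticAt_pd hA 1)).sub (analyticAt_const.mul hA),
        (an_x0 0).mul (analyticAt_pd hB 1), M + 1, ?_⟩
      filter_upwards [key, hA.eventually_analyticAt, hB.eventually_analyticAt] with x hx hAx hBx hO
      exact (hx hO).trans (pd1_K hAx hBx M hO.1 hO.2.2.1)
  congr := by
    rintro G ⟨A, B, hA, hB, M, h⟩ G' hG
    refine ⟨A, B, hA, hB, M, ?_⟩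
    filter_upwards [h, hG] with x hx hx' hO
    rw [← hx hO, hx' ((Om_iff x).2 hO)]
  diff := by
    rintro G ⟨A, B, hA, hB, M, h⟩
    filter_upwards [h.eventually_nhds, hA.eventually_analyticAt, hB.eventually_analyticAt]
      with x hx hAx hBx hO
    rw [Om_iff] at hO
    have h1 : AnalyticAt ℂ (fun x => A x / (x 1) ^ M + B x / (x 0) ^ M) x :=
      (hAx.div ((an_x1 x).pow M) (pow_ne_zero M hO.2.2.1)).add
        (hBx.div ((an_x0 x).pow M) (pow_ne_zero M hO.1))
    refine h1.differentiableAt.congr_of_eventuallyEq ?_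
    filter_upwards [hx, Om_open hO] with y hy hy'
    exact hy hy'

/-- monomials with one nonnegative exponent are in `WW` -/
theorem mono_mem (c : ℂ) (a b : ℤ) (h : 0 ≤ a ∨ 0 ≤ b) :
    (fun x : Fin 2 → ℂ => c * ((x 0) ^ a * (x 1) ^ b)) ∈ WW := by
  rcases h with h | h
  · obtain ⟨i, rfl⟩ := Int.eq_ofNat_of_zero_le h
    refine ⟨fun x => c * (x 0 ^ i * x 1 ^ ((b + b.natAbs).toNat)), fun _ => 0,
      analyticAt_const.mul (((an_x0 0).pow i).mul ((an_x1 0).pow _)), analyticAt_const, b.natAbs,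
      Filter.Eventually.of_forall fun x hO => ?_⟩
    have h1 := hO.2.2.1
    have e : (x 1) ^ b = (x 1) ^ ((b + b.natAbs).toNat) / (x 1) ^ b.natAbs := by
      rw [eq_div_iff (pow_ne_zero _ h1), ← zpow_natCast, ← zpow_add₀ h1, ← zpow_natCast]
      congr 1
      omega
    beta_reduce
    rw [e, zpow_natCast]
    ring
  · obtain ⟨i, rfl⟩ := Int.eq_ofNat_of_zero_le h
    refine ⟨fun _ => 0, fun x => c * (x 0 ^ ((a + a.natAbs).toNat) * x 1 ^ i),
      analyticAt_const, analyticAt_const.mul (((an_x0 0).pow _).mul ((an_x1 0).pow i)), a.natAbs,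
      Filter.Eventually.of_forall fun x hO => ?_⟩
    have h1 := hO.1
    have e : (x 0) ^ a = (x 0) ^ ((a + a.natAbs).toNat) / (x 0) ^ a.natAbs := by
      rw [eq_div_iff (pow_ne_zero _ h1), ← zpow_natCast, ← zpow_add₀ h1, ← zpow_natCast]
      congr 1
      omega
    beta_reduce
    rw [e, zpow_natCast]
    ring

theorem sum_mem_WW {ι : Type*} (s : Finset ι) (T : ι → (Fin 2 → ℂ) → ℂ) (h : ∀ i ∈ s, T i ∈ WW) :
    (fun x => ∑ i ∈ s, T i x) ∈ WW := by
  classical
  induction s using Finset.induction_on with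
  | empty =>
    have := mono_mem 0 0 0 (Or.inl le_rfl)
    refine wclosed.congr _ this _ (Filter.Eventually.of_forall fun x _ => ?_)
    simp
  | insert a s ha ih =>
    have h1 := wclosed.add _ (h a (Finset.mem_insert_self a s)) _
      (ih fun i hi => h i (Finset.mem_insert_of_mem hi))
    refine wclosed.congr _ h1 _ (Filter.Eventually.of_forall fun x _ => ?_)
    rw [Finset.sum_insert ha]

end Pool.Agent.H867.BS
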