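import Pool.Agent.H867.BS.Tors

set_option autoImplicit false
set_option linter.unusedSimpArgs false

namespace Pool.Agent.H867.BS

variable {A E : Type*} [CommRing A] [CommRing E] [Algebra A E] {D : Dat A E}

namespace Dat

variable {S : Submonoid A} {N : Submodule A E}

/-- `x^a` for integers `a` -/
def xp (D : Dat A E) (a : ℤ) : E := D.x ^ a.toNat * D.xi ^ (-a).toNat
/-- `y^a` for integers `a` -/
def yp (D : Dat A E) (a : ℤ) : E := D.y ^ a.toNat * D.yi ^ (-a).toNat

theorem xp_nat (n : ℕ) : D.xp n = D.x ^ n := by simp [xp]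
theorem xp_neg (n : ℕ) : D.xp (-n) = D.xi ^ n := by simp [xp]
theorem yp_nat (n : ℕ) : D.yp n = D.y ^ n := by simp [yp]
theorem yp_neg (n : ℕ) : D.yp (-n) = D.yi ^ n := by simp [yp]

theorem dx_xp (a : ℤ) : D.dx (D.xp (a + 1)) = ((a : E) + 1) * D.xp a := by
  rcases Int.eq_nat_or_neg a with ⟨n, rfl | rfl⟩
  · rw [show ((n : ℤ) + 1) = ((n + 1 : ℕ) : ℤ) by push_cast; ring, xp_nat, xp_nat,
      Derivation.leibniz_pow, D.dxx]
    simp
  · rcases n with _ | n
    · have h1 := xp_nat (D := D) 1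
      have h0 := xp_nat (D := D) 0
      simp only [Nat.cast_one, Nat.cast_zero] at h1 h0
      simp [h1, h0, D.dxx]
    · rw [show (-((n + 1 : ℕ) : ℤ) + 1) = -(n : ℤ) by push_cast; ring, xp_neg, xp_neg, dx_xi]
      push_cast
      ring
theorem dy_xp (a : ℤ) : D.dy (D.xp a) = 0 := by
  rw [xp, Derivation.leibniz, dy_xi, Derivation.leibniz_pow, D.dyx]
  simp
theorem dx_yp (a : ℤ) : D.dx (D.yp a) = 0 := by
  rw [yp, Derivation.leibniz, dx_yi, Derivation.leibniz_pow, D.dxy]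
  simp
theorem dy_yp (a : ℤ) : D.dy (D.yp (a + 1)) = ((a : E) + 1) * D.yp a := by
  rcases Int.eq_nat_or_neg a with ⟨n, rfl | rfl⟩
  · rw [show ((n : ℤ) + 1) = ((n + 1 : ℕ) : ℤ) by push_cast; ring, yp_nat, yp_nat,
      Derivation.leibniz_pow, D.dyy]
    simp
  · rcases n with _ | n
    · have h1 := yp_nat (D := D) 1
      have h0 := yp_nat (D := D) 0
      simp only [Nat.cast_one, Nat.cast_zero] at h1 h0
      simp [h1, h0, D.dyy]
    · rw [show (-((n + 1 : ℕ) : ℤ) + 1) = -(n : ℤ) by push_cast; ring, yp_neg, yp_neg, dy_yi]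
      push_cast
      ring

theorem x_xp (a : ℤ) : D.Q' (D.xp (a + 1)) = D.Q' D.x * D.Q' (D.xp a) := by
  rcases Int.eq_nat_or_neg a with ⟨n, rfl | rfl⟩
  · rw [show ((n : ℤ) + 1) = ((n + 1 : ℕ) : ℤ) by push_cast; ring, xp_nat, xp_nat,
      map_pow, map_pow]
    ring
  · rcases n with _ | n
    · have h1 := xp_nat (D := D) 1
      have h0 := xp_nat (D := D) 0
      simp only [Nat.cast_one, Nat.cast_zero] at h1 h0
      simp [h1, h0]
    · rw [show (-((n + 1 : ℕ) : ℤ) + 1) = -(n : ℤ) by push_cast; ring, xp_neg, xp_neg, map_pow,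
        map_pow]
      linear_combination (-D.Q' D.xi ^ n) * q1 (D := D)
theorem y_yp (a : ℤ) : D.Q' (D.yp (a + 1)) = D.Q' D.y * D.Q' (D.yp a) := by
  rcases Int.eq_nat_or_neg a with ⟨n, rfl | rfl⟩
  · rw [show ((n : ℤ) + 1) = ((n + 1 : ℕ) : ℤ) by push_cast; ring, yp_nat, yp_nat,
      map_pow, map_pow]
    ring
  · rcases n with _ | n
    · have h1 := yp_nat (D := D) 1
      have h0 := yp_nat (D := D) 0
      simp only [Nat.cast_one, Nat.cast_zero] at h1 h0
      simp [h1, h0]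
    · rw [show (-((n + 1 : ℕ) : ℤ) + 1) = -(n : ℤ) by push_cast; ring, yp_neg, yp_neg, map_pow,
        map_pow]
      linear_combination (-D.Q' D.yi ^ n) * q2 (D := D)

theorem xi_xp (a : ℤ) : D.Q' (D.xp a) = D.Q' D.xi * D.Q' (D.xp (a + 1)) := by
  rw [x_xp]; linear_combination (-D.Q' (D.xp a)) * q1 (D := D)
theorem yi_yp (a : ℤ) : D.Q' (D.yp a) = D.Q' D.yi * D.Q' (D.yp (a + 1)) := by
  rw [y_yp]; linear_combination (-D.Q' (D.yp a)) * q2 (D := D)

theorem x_xp_pow (a : ℤ) (n : ℕ) : D.Q' (D.xp (a + n)) = D.Q' D.x ^ n * D.Q' (D.xp a) := by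
  induction n with
  | zero => simp
  | succ n ih =>
    rw [show a + ((n + 1 : ℕ) : ℤ) = (a + n) + 1 by push_cast; ring, x_xp, ih]; ring
theorem y_yp_pow (a : ℤ) (n : ℕ) : D.Q' (D.yp (a + n)) = D.Q' D.y ^ n * D.Q' (D.yp a) := by
  induction n with
  | zero => simp
  | succ n ih =>
    rw [show a + ((n + 1 : ℕ) : ℤ) = (a + n) + 1 by push_cast; ring, y_yp, ih]; ring
theorem xi_xp_pow (a : ℤ) (n : ℕ) : D.Q' (D.xp (a - n)) = D.Q' D.xi ^ n * D.Q' (D.xp a) := by
  induction n with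
  | zero => simp
  | succ n ih =>
    rw [xi_xp (a - ((n + 1 : ℕ) : ℤ)),
      show a - ((n + 1 : ℕ) : ℤ) + 1 = a - n by push_cast; ring, ih]
    ring
theorem yi_yp_pow (a : ℤ) (n : ℕ) : D.Q' (D.yp (a - n)) = D.Q' D.yi ^ n * D.Q' (D.yp a) := by
  induction n with
  | zero => simp
  | succ n ih =>
    rw [yi_yp (a - ((n + 1 : ℕ) : ℤ)),
      show a - ((n + 1 : ℕ) : ℤ) + 1 = a - n by push_cast; ring, ih]
    ring

/-- the monomials -/
def mon (D : Dat A E) (a b : ℤ) (k m : ℕ) : E := D.xp a * D.yp b * D.U ^ k * D.V ^ m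

/-- The elements that are, up to an element of `S`, sums of derivatives modulo `N`. -/
def QQ (D : Dat A E) (S : Submonoid A) (N : Submodule A E) : Submodule A E where
  carrier := {g | ∃ s ∈ S, ∃ p q n : E, n ∈ N ∧ s • g = D.DX p + D.DY q + n}
  add_mem' := by
    rintro g h ⟨s, hs, p, q, n, hn, e⟩ ⟨s', hs', p', q', n', hn', e'⟩
    refine ⟨s * s', S.mul_mem hs hs', s' • p + s • p', s' • q + s • q', s' • n + s • n',
      N.add_mem (N.smul_mem _ hn) (N.smul_mem _ hn'), ?_⟩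
    simp only [map_add, map_smul]
    have e1 : (s * s') • (g + h) = s' • (s • g) + s • (s' • h) := by module
    rw [e1, e, e']
    module
  zero_mem' := ⟨1, S.one_mem, 0, 0, 0, N.zero_mem, by simp⟩
  smul_mem' := by
    rintro c g ⟨s, hs, p, q, n, hn, e⟩
    refine ⟨s, hs, c • p, c • q, c • n, N.smul_mem _ hn, ?_⟩
    simp only [map_smul]
    rw [smul_comm, e]
    module

theorem mem_QQ {g : E} : g ∈ D.QQ S N ↔ ∃ s ∈ S, ∃ p q n : E, n ∈ N ∧
    s • g = D.DX p + D.DY q + n := Iff.rfl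

theorem QQ_of_mem {g : E} (hg : g ∈ N) : g ∈ D.QQ S N :=
  ⟨1, S.one_mem, 0, 0, g, hg, by simp⟩
theorem QQ_DX (g : E) : D.DX g ∈ D.QQ S N :=
  ⟨1, S.one_mem, g, 0, 0, N.zero_mem, by simp⟩
theorem QQ_DY (g : E) : D.DY g ∈ D.QQ S N :=
  ⟨1, S.one_mem, 0, g, 0, N.zero_mem, by simp⟩

theorem QQ_sat {q : A} (hq : q ∈ S) {g : E} (hg : q • g ∈ D.QQ S N) : g ∈ D.QQ S N := by
  obtain ⟨s, hs, p, r, n, hn, e⟩ := hg
  exact ⟨s * q, S.mul_mem hs hq, p, r, n, hn, by rw [mul_smul, e]⟩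

theorem Good.QQ_congr (hN : D.Good S N) {g h : E} (hg : g ∈ D.QQ S N) (e : D.Q' g = D.Q' h) :
    h ∈ D.QQ S N := by
  have h1 : h - g ∈ D.I := by
    rw [← Ideal.Quotient.eq]
    exact e.symm
  have h2 := (D.QQ S N).add_mem hg (QQ_of_mem (hN.hI h1))
  rwa [add_sub_cancel] at h2

/-- the class of a monomial -/
def ph (D : Dat A E) (S : Submonoid A) (N : Submodule A E) (a b : ℤ) (k m : ℕ) :
    E ⧸ (D.QQ S N) := (D.QQ S N).mkQ (D.mon a b k m)

theorem Good.isRec (hN : D.Good S N) : Rec D.b0 D.b1 D.b2 D.b3 (D.ph S N) where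
  r1 a b k m := by
    simp only [ph, ← map_smul, ← map_add, ← map_sub]
    rw [Submodule.mkQ_apply, Submodule.Quotient.mk_eq_zero]
    refine hN.QQ_congr (QQ_DX (D.mon (a + 1) b k m)) ?_
    have h2 := x_xp (D := D) (a + 1)
    have h4 := x_xp_pow (D := D) (a + 1) 3
    have h0 := xi_xp (D := D) a
    have h5 := y_yp_pow (D := D) b 2
    rw [show a + 1 + 1 = a + 2 by ring] at h2
    rw [show a + 1 + ((3 : ℕ) : ℤ) = a + 4 by push_cast; ring] at h4
    rw [show b + ((2 : ℕ) : ℤ) = b + 2 by push_cast; ring] at h5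
    simp only [mon, DX_apply, Derivation.leibniz, dx_xp, dx_yp, dx_U, dx_V, wx, fx,
      Algebra.smul_def, Algebra.algebraMap_self, RingHom.id_apply, smul_eq_mul, map_mul, map_add, map_sub, map_neg, map_pow, map_natCast,
      map_intCast, map_ofNat, map_one, h2, h4, h5, mul_zero, add_zero, map_zero]
    rw [h0]
    ring
  r2 a b k m := by
    simp only [ph, ← map_smul, ← map_add, ← map_sub]
    rw [Submodule.mkQ_apply, Submodule.Quotient.mk_eq_zero]
    refine hN.QQ_congr (QQ_DY (D.mon a (b + 1) k m)) ?_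
    have h2 := y_yp (D := D) (b + 1)
    have h4 := y_yp_pow (D := D) (b + 1) 2
    have h0 := yi_yp (D := D) b
    have h5 := x_xp_pow (D := D) a 2
    rw [show b + 1 + 1 = b + 2 by ring] at h2
    rw [show b + 1 + ((2 : ℕ) : ℤ) = b + 3 by push_cast; ring] at h4
    rw [show a + ((2 : ℕ) : ℤ) = a + 2 by push_cast; ring] at h5
    simp only [mon, DY_apply, Derivation.leibniz, dy_xp, dy_yp, dy_U, dy_V, wy, fy,
      Algebra.smul_def, Algebra.algebraMap_self, RingHom.id_apply, smul_eq_mul, map_mul, map_add, map_sub, map_neg, map_pow, map_natCast,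
      map_intCast, map_ofNat, map_one, h2, h4, h5, mul_zero, add_zero, map_zero]
    rw [h0]
    ring
  r3 a b k m := by
    simp only [ph, ← map_add]
    rw [← sub_eq_zero, ← map_sub, Submodule.mkQ_apply, Submodule.Quotient.mk_eq_zero]
    refine hN.QQ_congr (D.QQ S N).zero_mem ?_
    simp only [mon, map_sub, map_add, map_mul, map_pow, map_zero, x_xp, y_yp]
    linear_combination (D.Q' (D.xp a) * D.Q' (D.yp b) * D.Q' D.U ^ k * D.Q' D.V ^ m) *
      q3 (D := D)
  r4 a b k m := by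
    simp only [ph, ← map_add, ← map_sub]
    rw [← sub_eq_zero, ← map_sub, Submodule.mkQ_apply, Submodule.Quotient.mk_eq_zero]
    refine hN.QQ_congr (D.QQ S N).zero_mem ?_
    have h1 := y_yp_pow (D := D) b 3
    have h2 := y_yp_pow (D := D) b 2
    have h3 := x_xp_pow (D := D) a 4
    have h4 := x_xp_pow (D := D) a 2
    push_cast at h1 h2 h3 h4
    simp only [mon, map_sub, map_add, map_mul, map_pow, map_zero, h1, h2, h3, h4]
    linear_combination (D.Q' (D.xp a) * D.Q' (D.yp b) * D.Q' D.U ^ k * D.Q' D.V ^ m) *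
      q4 (D := D)

theorem inj_of_mem {q : A} (hq : q ∈ S) : Inj (E ⧸ D.QQ S N) q := by
  intro v hv
  obtain ⟨g, rfl⟩ := (D.QQ S N).mkQ_surjective v
  rw [← map_smul, Submodule.mkQ_apply, Submodule.Quotient.mk_eq_zero] at hv
  rw [Submodule.mkQ_apply, Submodule.Quotient.mk_eq_zero]
  exact QQ_sat hq hv

theorem units (hS : D.US S) : Units (E ⧸ D.QQ S N) D.b0 D.b1 D.b2 D.b3 where
  u1 k := inj_of_mem (hS.u1 k)
  u3 k := inj_of_mem (hS.u3 k)
  uc n := inj_of_mem (hS.uc n)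
  ud n := inj_of_mem (hS.ud n)
  uh n hn := inj_of_mem (hS.uh n hn)

theorem Good.ph_zero (hN : D.Good S N) (i j : ℕ) : D.ph S N i j 0 0 = 0 := by
  rw [ph, Submodule.mkQ_apply, Submodule.Quotient.mk_eq_zero]
  apply QQ_of_mem
  rw [mon, xp_nat, yp_nat, pow_zero, pow_zero]
  have := hN.pow_x (hN.pow_y hN.one j) i
  simpa using this

theorem Good.all_of (hN : D.Good S N) (hS : D.US S) {τ : A} (hτ : τ • D.ph S N 2 (-1) 0 0 = 0)
    (g : E) : τ • g ∈ N := by
  have hv := (hN.isRec.smul τ).vanish (units hS) (fun i j => by simp only [hN.ph_zero, smul_zero]) hτ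
  refine kash_all (P := D.DX) (Q := D.DY) (X := LinearMap.mulLeft A D.x)
    (Y := LinearMap.mulLeft A D.y) S hS.nat D.h1 D.h2 D.hPQ D.hPY D.hQX D.hXY hN.hP hN.hQ hN.hX
    hN.hY hN.sat ?_ τ ?_ g
  · intro v
    obtain ⟨K, h1, h2⟩ := hN.tor_all hS v
    refine ⟨K, ?_, ?_⟩
    · rw [LinearMap.pow_mulLeft]; exact h1
    · rw [LinearMap.pow_mulLeft]; exact h2
  · intro v
    have key : τ • v ∈ D.QQ S N := by
      have hg := D.span v
      induction hg using Submodule.span_induction with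
      | mem v hv' =>
        obtain ⟨⟨i, j, a, b, k, m⟩, rfl⟩ := hv'
        have h1 : D.mon (i - a) (j - b) k m ∈ Submodule.comap (τ • LinearMap.id) (D.QQ S N) := by
          have := hv (i - a) (j - b) k m
          rw [ph, ← map_smul, Submodule.mkQ_apply, Submodule.Quotient.mk_eq_zero] at this
          simpa using this
        have h2 : τ • D.mon (i - a) (j - b) k m ∈ D.QQ S N := by simpa using h1
        refine hN.QQ_congr h2 ?_
        simp only [Algebra.smul_def, mon, map_mul, map_pow]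
        rw [xi_xp_pow, yi_yp_pow, xp_nat, yp_nat, map_pow, map_pow]
        ring
      | zero => simp
      | add g h _ _ hg hh => rw [smul_add]; exact add_mem hg hh
      | smul a g _ hg => rw [smul_comm]; exact (D.QQ S N).smul_mem a hg
    exact key

/-- The main abstract result. -/
theorem Good.main (hN : D.Good S N) (hS : D.US S) (g : E) :
    (3 * D.b0 + 3 * D.b1 + 4 * D.b2 + 12 * D.b3 + 9) • g ∈ N ∧
      (2 * D.b1 * (D.b1 - 1) + D.b0 + D.b1 - 1) • g ∈ N := by
  have h := hN.isRec.special (units hS) hN.ph_zero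
  exact ⟨hN.all_of hS h.1 g, hN.all_of hS h.2 g⟩

end Dat

end Pool.Agent.H867.BS
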