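import Pool.Agent.H867.BS.Main

set_option autoImplicit false
set_option linter.unusedSimpArgs false

open MvPolynomial

namespace Pool.Agent.H867.BS

/-- coefficients `ℂ[s₀, s₁, s₂, s₃]` -/
abbrev AA : Type := MvPolynomial (Fin 4) ℂ
/-- polynomials in `x, y, 1/x, 1/y, 1/(x+y), 1/f` -/
abbrev EE : Type := MvPolynomial (Fin 6) AA

/-- `∂_x` -/
noncomputable def ddx : Derivation AA EE EE := mkDerivation AA
  ![1, 0, - X 2 ^ 2, 0, - X 4 ^ 2, - (-4 * X 0 ^ 3 + 2 * X 0 * X 1 ^ 2) * X 5 ^ 2]

/-- `∂_y` -/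
noncomputable def ddy : Derivation AA EE EE := mkDerivation AA
  ![0, 1, 0, - X 3 ^ 2, - X 4 ^ 2, - (3 * X 1 ^ 2 + 2 * X 0 ^ 2 * X 1) * X 5 ^ 2]

theorem ddx_X (i : Fin 6) : ddx (X i) = (![1, 0, - X 2 ^ 2, 0, - X 4 ^ 2,
    - (-4 * X 0 ^ 3 + 2 * X 0 * X 1 ^ 2) * X 5 ^ 2] : Fin 6 → EE) i := mkDerivation_X _ _ _
theorem ddy_X (i : Fin 6) : ddy (X i) = (![0, 1, 0, - X 3 ^ 2, - X 4 ^ 2,
    - (3 * X 1 ^ 2 + 2 * X 0 ^ 2 * X 1) * X 5 ^ 2] : Fin 6 → EE) i := mkDerivation_X _ _ _

theorem ddx_two : ddx 2 = 0 := by simpa using ddx.map_natCast 2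
theorem ddy_two : ddy 2 = 0 := by simpa using ddy.map_natCast 2
theorem ddx_three : ddx 3 = 0 := by simpa using ddx.map_natCast 3
theorem ddy_three : ddy 3 = 0 := by simpa using ddy.map_natCast 3
theorem ddx_four : ddx 4 = 0 := by simpa using ddx.map_natCast 4
theorem ddy_four : ddy 4 = 0 := by simpa using ddy.map_natCast 4

theorem dd_comm (g : EE) : ddx (ddy g) = ddy (ddx g) := by
  have h : ⁅ddx, ddy⁆ = (0 : Derivation AA EE EE) := by
    apply MvPolynomial.derivation_ext
    intro i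
    rw [Derivation.commutator_apply]
    have x0 := ddx_X 0
    have x1 := ddx_X 1
    have x2 := ddx_X 2
    have x3 := ddx_X 3
    have x4 := ddx_X 4
    have x5 := ddx_X 5
    have y0 := ddy_X 0
    have y1 := ddy_X 1
    have y2 := ddy_X 2
    have y3 := ddy_X 3
    have y4 := ddy_X 4
    have y5 := ddy_X 5
    simp only [Matrix.cons_val_zero, Matrix.cons_val_one, Matrix.cons_val] at x0 x1 x2 x3 x4 x5 y0 y1 y2 y3 y4 y5
    fin_cases i <;>
      simp only [Fin.mk_one, Fin.zero_eta, Fin.reduceFinMk, Fin.isValue, Derivation.coe_zero,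
        Pi.zero_apply, x0, x1, x2, x3, x4, x5, y0, y1, y2, y3, y4, y5, map_neg, map_add,
        Derivation.leibniz, Derivation.leibniz_pow, map_zero, Derivation.map_one_eq_zero,
        smul_eq_mul, nsmul_eq_mul, ddx_two, ddy_two, ddx_three, ddy_three, ddx_four, ddy_four] <;>
      push_cast <;> ring
  have h2 := congrArg (fun d : Derivation AA EE EE => d g) h
  simp only [Derivation.commutator_apply, Derivation.coe_zero, Pi.zero_apply] at h2
  exact sub_eq_zero.1 h2

/-- the concrete data -/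
noncomputable def DD : Dat AA EE where
  dx := ddx
  dy := ddy
  comm := dd_comm
  x := X 0
  y := X 1
  xi := X 2
  yi := X 3
  U := X 4
  V := X 5
  b0 := X 0 + 1
  b1 := X 1 + 1
  b2 := X 2 + 1
  b3 := X 3 + 1
  dxx := by rw [ddx_X]; simp
  dyx := by rw [ddy_X]; simp
  dxy := by rw [ddx_X]; simp
  dyy := by rw [ddy_X]; simp
  dxxi := by rw [ddx_X]; simp
  dyxi := by rw [ddy_X]; simp
  dxyi := by rw [ddx_X]; simp
  dyyi := by rw [ddy_X]; simp
  dxU := by rw [ddx_X]; simp
  dyU := by rw [ddy_X]; simp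
  dxV := by rw [ddx_X]; simp
  dyV := by rw [ddy_X]; simp
  span := by
    intro g
    induction g using MvPolynomial.induction_on' with
    | monomial u a =>
      have h : monomial u a = a • (X 0 ^ u 0 * X 1 ^ u 1 * (X 2 ^ u 2 * X 3 ^ u 3 * X 4 ^ u 4 *
          X 5 ^ u 5) : EE) := by
        rw [monomial_eq, smul_eq_C_mul]
        congr 1
        rw [Finsupp.prod_fintype _ _ (fun i => pow_zero _)]
        simp only [Fin.prod_univ_succ, Fin.prod_univ_zero]
        simp only [Fin.succ_zero_eq_one, Fin.succ_one_eq_two]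
        have e3 : (Fin.succ (2 : Fin 5) : Fin 6) = 3 := rfl
        have e4 : (Fin.succ (3 : Fin 5) : Fin 6) = 4 := rfl
        have e5 : (Fin.succ (4 : Fin 5) : Fin 6) = 5 := rfl
        simp
        ring
      rw [h]
      exact Submodule.smul_mem _ _ (Submodule.subset_span ⟨(u 0, u 1, u 2, u 3, u 4, u 5), rfl⟩)
    | add p q hp hq => exact Submodule.add_mem _ hp hq

/-- the special point -/
noncomputable def sst : Fin 4 → ℂ :=
  ![2 + Complex.I, -1 + Complex.I, -(11 + 9 * Complex.I) / 2, -1 + Complex.I]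

/-- polynomials that do not vanish at the special point -/
def SS : Submonoid AA where
  carrier := {q | eval sst q ≠ 0}
  mul_mem' := by
    intro a b ha hb
    simp only [Set.mem_ofPred_eq, map_mul] at ha hb ⊢
    exact mul_ne_zero ha hb
  one_mem' := by simp

theorem mem_SS {q : AA} : q ∈ SS ↔ eval sst q ≠ 0 := Iff.rfl

theorem us : DD.US SS where
  nat J hJ := by
    rw [mem_SS, map_natCast]
    exact_mod_cast hJ
  u0 k := by
    rw [mem_SS]
    intro h
    have h2 := congrArg Complex.im h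
    simp [DD, sst] at h2
  u1 k := by
    rw [mem_SS]
    intro h
    have h2 := congrArg Complex.im h
    simp [DD, sst] at h2
  u2 k := by
    rw [mem_SS]
    intro h
    have h2 := congrArg Complex.im h
    simp [DD, sst] at h2
  u3 k := by
    rw [mem_SS]
    intro h
    have h2 := congrArg Complex.im h
    simp [DD, sst] at h2
  uc n := by
    rw [mem_SS]
    intro h
    have h2 := congrArg Complex.im h
    simp [DD, sst] at h2
    norm_num at h2
  ud n := by
    rw [mem_SS]
    intro h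
    have h2 := congrArg Complex.im h
    simp [DD, sst] at h2
    norm_num at h2
  uh n hn := by
    rw [mem_SS]
    have e : eval sst ((n : AA) + 3 * DD.b0 + 3 * DD.b1 + 4 * DD.b2 + 12 * DD.b3 + 9) = (n : ℂ) := by
      simp [DD, sst]
      ring
    rw [e]
    exact_mod_cast hn

/-- the linear form -/
noncomputable def hh : AA := 3 * (X 0 + X 1) + 4 * X 2 + 12 * X 3 + 31
/-- the quadratic form -/
noncomputable def kk : AA := X 0 + (X 1 + 1) * (2 * X 1 + 1)

theorem main_model {N : Submodule AA EE} (hN : DD.Good SS N) (g : EE) :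
    hh • g ∈ N ∧ kk • g ∈ N := by
  have h := hN.main us g
  have e1 : 3 * DD.b0 + 3 * DD.b1 + 4 * DD.b2 + 12 * DD.b3 + 9 = hh := by
    simp only [DD, hh]; ring
  have e2 : 2 * DD.b1 * (DD.b1 - 1) + DD.b0 + DD.b1 - 1 = kk := by
    simp only [DD, kk]; ring
  rw [e1, e2] at h
  exact h

end Pool.Agent.H867.BS
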