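import Pool.Agent.H867.BS.Abs

set_option autoImplicit false
set_option linter.unusedSimpArgs false

namespace Pool.Agent.H867.BS

variable {A E : Type*} [CommRing A] [CommRing E] [Algebra A E] {D : Dat A E}

namespace Dat

variable {S : Submonoid A} {N : Submodule A E}

/-- `f_x` -/
def fx (D : Dat A E) : E := -4 * D.x ^ 3 + 2 * D.x * D.y ^ 2
/-- `f_y` -/
def fy (D : Dat A E) : E := 3 * D.y ^ 2 + 2 * D.x ^ 2 * D.y

theorem two_mem : (2 : E) ∈ D.Pxy := by
  exact ofNat_mem D.Pxy 2
theorem three_mem : (3 : E) ∈ D.Pxy := by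
  exact ofNat_mem D.Pxy 3
theorem four_mem : (4 : E) ∈ D.Pxy := by
  exact ofNat_mem D.Pxy 4

theorem f_mem : D.f ∈ D.Pxy := by
  rw [f]
  exact add_mem (sub_mem (pow_mem y_mem _) (pow_mem x_mem _)) (mul_mem (pow_mem x_mem _)
    (pow_mem y_mem _))
theorem fx_mem : D.fx ∈ D.Pxy := by
  rw [fx]
  exact add_mem (mul_mem (neg_mem four_mem) (pow_mem x_mem _))
    (mul_mem (mul_mem two_mem x_mem) (pow_mem y_mem _))
theorem fy_mem : D.fy ∈ D.Pxy := by
  rw [fy]
  exact add_mem (mul_mem three_mem (pow_mem y_mem _))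
    (mul_mem (mul_mem two_mem (pow_mem x_mem _)) y_mem)
theorem u_mem : D.x + D.y ∈ D.Pxy := add_mem x_mem y_mem
theorem am_mem (q : A) : algebraMap A E q ∈ D.Pxy := D.Pxy.algebraMap_mem q

theorem dx_xi (n : ℕ) : D.dx (D.xi ^ n) = -(n : E) * D.xi ^ (n + 1) := by
  rw [Derivation.leibniz_pow, D.dxxi]
  rcases n with _ | n
  · simp
  · simp only [nsmul_eq_mul, smul_eq_mul, Nat.add_sub_cancel]; push_cast; ring
theorem dy_xi (n : ℕ) : D.dy (D.xi ^ n) = 0 := by
  rw [Derivation.leibniz_pow, D.dyxi]; simp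
theorem dx_yi (n : ℕ) : D.dx (D.yi ^ n) = 0 := by
  rw [Derivation.leibniz_pow, D.dxyi]; simp
theorem dy_yi (n : ℕ) : D.dy (D.yi ^ n) = -(n : E) * D.yi ^ (n + 1) := by
  rw [Derivation.leibniz_pow, D.dyyi]
  rcases n with _ | n
  · simp
  · simp only [nsmul_eq_mul, smul_eq_mul, Nat.add_sub_cancel]; push_cast; ring
theorem dx_U (n : ℕ) : D.dx (D.U ^ n) = -(n : E) * D.U ^ (n + 1) := by
  rw [Derivation.leibniz_pow, D.dxU]
  rcases n with _ | n
  · simp
  · simp only [nsmul_eq_mul, smul_eq_mul, Nat.add_sub_cancel]; push_cast; ring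
theorem dy_U (n : ℕ) : D.dy (D.U ^ n) = -(n : E) * D.U ^ (n + 1) := by
  rw [Derivation.leibniz_pow, D.dyU]
  rcases n with _ | n
  · simp
  · simp only [nsmul_eq_mul, smul_eq_mul, Nat.add_sub_cancel]; push_cast; ring
theorem dx_V (n : ℕ) : D.dx (D.V ^ n) = -(n : E) * D.fx * D.V ^ (n + 1) := by
  rw [Derivation.leibniz_pow, D.dxV, fx]
  rcases n with _ | n
  · simp
  · simp only [nsmul_eq_mul, smul_eq_mul, Nat.add_sub_cancel]; push_cast; ring
theorem dy_V (n : ℕ) : D.dy (D.V ^ n) = -(n : E) * D.fy * D.V ^ (n + 1) := by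
  rw [Derivation.leibniz_pow, D.dyV, fy]
  rcases n with _ | n
  · simp
  · simp only [nsmul_eq_mul, smul_eq_mul, Nat.add_sub_cancel]; push_cast; ring

theorem Good.tor1 (hN : D.Good S N) (hS : D.US S) (n : ℕ) : Tor D N (D.xi ^ n) := by
  induction n with
  | zero => exact Good.tor_of_mem (by simpa using hN.one)
  | succ n ih =>
    have q1 := q1 (D := D)
    have q3 := q3 (D := D)
    have q4 := q4 (D := D)
    have hu : Tor D N ((D.x + D.y) * D.f * D.xi ^ (n + 1)) := by
      have e1 := hN.tor_mul (mul_mem u_mem f_mem) _ (hN.tor_DX ih)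
      have e2 := hN.tor_mul (mul_mem (am_mem D.b1) f_mem) _ ih
      have e3 := hN.tor_mul (mul_mem (mul_mem (am_mem D.b3) fx_mem) u_mem) _ ih
      apply hN.tor_sat (hS.u0 n)
      refine hN.tor_congr (hN.tor_sub (hN.tor_sub e1 e2) e3) ?_
      simp only [DX_apply, dx_xi, wx, f, fx, map_mul, map_add, map_sub, map_pow, map_neg,
        map_natCast, map_ofNat]
      generalize D.Q' (algebraMap A E D.b0) = b0
      generalize D.Q' (algebraMap A E D.b1) = b1
      generalize D.Q' (algebraMap A E D.b3) = b3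
      generalize D.Q' D.x = x at *
      generalize D.Q' D.xi = xi at *
      generalize D.Q' D.y = y at *
      generalize D.Q' D.U = U at *
      generalize D.Q' D.V = V at *
      linear_combination (b1 * xi ^ n * (y ^ 3 - x ^ 4 + x ^ 2 * y ^ 2)) * q3 +
        b3 * xi ^ n * (x + y) * (-4 * x ^ 3 + 2 * x * y ^ 2) * q4
    have hx : Tor D N (D.x ^ 1 * D.xi ^ (n + 1)) := by
      refine hN.tor_congr ih ?_
      simp only [map_mul, map_pow]
      linear_combination (-D.Q' D.xi ^ n) * q1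
    refine hN.tor_of_pow (b := 4) hx ?_
    have e1 := hN.tor_mul (sub_mem (add_mem (sub_mem (pow_mem y_mem 3) (pow_mem x_mem 4))
      (mul_mem (pow_mem x_mem 2) (pow_mem y_mem 2))) (sub_mem (mul_mem (pow_mem x_mem 3) y_mem)
      (mul_mem x_mem (pow_mem y_mem 3)))) _ hx
    have e2 := hN.tor_sub hu e1
    refine hN.tor_congr e2 ?_
    congr 1
    rw [f]
    ring

theorem Good.tor2 (hN : D.Good S N) (hS : D.US S) (a n : ℕ) :
    Tor D N (D.xi ^ a * D.yi ^ n) := by
  induction n with
  | zero => simpa using hN.tor1 hS a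
  | succ n ih =>
    have q2 := q2 (D := D)
    have q3 := q3 (D := D)
    have q4 := q4 (D := D)
    have hu : Tor D N ((D.x + D.y) * D.f * (D.xi ^ a * D.yi ^ (n + 1))) := by
      have e1 := hN.tor_mul (mul_mem u_mem f_mem) _ (hN.tor_DY ih)
      have e2 := hN.tor_mul (mul_mem (am_mem D.b1) f_mem) _ ih
      have e3 := hN.tor_mul (mul_mem (mul_mem (am_mem D.b3) fy_mem) u_mem) _ ih
      apply hN.tor_sat (hS.u2 n)
      refine hN.tor_congr (hN.tor_sub (hN.tor_sub e1 e2) e3) ?_
      simp only [DY_apply, Derivation.leibniz, dy_xi, dy_yi, wy, f, fy, map_mul, map_add, map_sub,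
        map_pow, map_neg, map_natCast, map_ofNat, smul_eq_mul, mul_zero, map_zero, add_zero]
      generalize D.Q' (algebraMap A E D.b2) = b2
      generalize D.Q' (algebraMap A E D.b1) = b1
      generalize D.Q' (algebraMap A E D.b3) = b3
      generalize D.Q' D.x = x at *
      generalize D.Q' D.xi = xi at *
      generalize D.Q' D.yi = yi at *
      generalize D.Q' D.y = y at *
      generalize D.Q' D.U = U at *
      generalize D.Q' D.V = V at *
      linear_combination (b1 * xi ^ a * yi ^ n * (y ^ 3 - x ^ 4 + x ^ 2 * y ^ 2)) * q3 +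
        b3 * xi ^ a * yi ^ n * (x + y) * (3 * y ^ 2 + 2 * x ^ 2 * y) * q4
    have hy : Tor D N (D.y ^ 1 * (D.xi ^ a * D.yi ^ (n + 1))) := by
      refine hN.tor_congr ih ?_
      simp only [map_mul, map_pow]
      linear_combination (-D.Q' D.xi ^ a * D.Q' D.yi ^ n) * q2
    refine hN.tor_of_pow (a := 5) ?_ hy
    have e1 := hN.tor_mul (add_mem (sub_mem (add_mem (add_mem (mul_mem x_mem (pow_mem y_mem 2))
      (mul_mem (pow_mem x_mem 3) y_mem)) (pow_mem y_mem 3)) (pow_mem x_mem 4))
      (mul_mem (pow_mem x_mem 2) (pow_mem y_mem 2))) _ hy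
    have e2 := hN.tor_sub e1 hu
    refine hN.tor_congr e2 ?_
    congr 1
    rw [f]
    ring

theorem Good.tor3 (hN : D.Good S N) (hS : D.US S) (n : ℕ) :
    ∀ a b : ℕ, Tor D N (D.xi ^ a * D.yi ^ b * D.U ^ n) := by
  induction n with
  | zero => intro a b; simpa using hN.tor2 hS a b
  | succ n ih =>
    intro a b
    have q3 := q3 (D := D)
    have q4 := q4 (D := D)
    have hf : Tor D N (D.f * (D.xi ^ a * D.yi ^ b * D.U ^ (n + 1))) := by
      have e1 := hN.tor_mul f_mem _ (hN.tor_DX (ih a b))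
      have e2 := hN.tor_mul (mul_mem (am_mem (D.b0 - (a : A))) f_mem) _ (ih (a + 1) b)
      have e3 := hN.tor_mul (mul_mem (am_mem D.b3) fx_mem) _ (ih a b)
      apply hN.tor_sat (hS.u1 n)
      refine hN.tor_congr (hN.tor_sub (hN.tor_sub e1 e2) e3) ?_
      simp only [DX_apply, Derivation.leibniz, dx_xi, dx_yi, dx_U, wx, f, fx, map_mul, map_add,
        map_sub, map_pow, map_neg, map_natCast, map_ofNat, smul_eq_mul, mul_zero, map_zero,
        add_zero, zero_add]
      generalize D.Q' (algebraMap A E D.b0) = b0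
      generalize D.Q' (algebraMap A E D.b1) = b1
      generalize D.Q' (algebraMap A E D.b3) = b3
      generalize D.Q' D.x = x at *
      generalize D.Q' D.xi = xi at *
      generalize D.Q' D.yi = yi at *
      generalize D.Q' D.y = y at *
      generalize D.Q' D.U = U at *
      generalize D.Q' D.V = V at *
      linear_combination (b3 * xi ^ a * yi ^ b * U ^ n * (-4 * x ^ 3 + 2 * x * y ^ 2)) * q4
    have hu : Tor D N ((D.x + D.y) * (D.xi ^ a * D.yi ^ b * D.U ^ (n + 1))) := by
      refine hN.tor_congr (ih a b) ?_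
      simp only [map_mul, map_pow, map_add]
      linear_combination (-D.Q' D.xi ^ a * D.Q' D.yi ^ b * D.Q' D.U ^ n) * q3
    have hy : Tor D N (D.y ^ 3 * (D.xi ^ a * D.yi ^ b * D.U ^ (n + 1))) := by
      have e1 := hN.tor_mul (mul_mem (pow_mem x_mem 2) (sub_mem x_mem y_mem)) _ hu
      refine hN.tor_congr (hN.tor_add hf e1) ?_
      congr 1
      rw [f]
      ring
    refine hN.tor_of_pow (a := 3) ?_ hy
    have e1 := hN.tor_mul (add_mem (sub_mem (pow_mem x_mem 2) (mul_mem x_mem y_mem))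
      (pow_mem y_mem 2)) _ hu
    refine hN.tor_congr (hN.tor_sub e1 hy) ?_
    congr 1
    ring

theorem Good.tor4 (hN : D.Good S N) (hS : D.US S) (n : ℕ) :
    ∀ a b k : ℕ, Tor D N (D.xi ^ a * D.yi ^ b * D.U ^ k * D.V ^ n) := by
  induction n with
  | zero => intro a b k; simpa using hN.tor3 hS k a b
  | succ n ih =>
    intro a b k
    have q4 := q4 (D := D)
    have hfx : Tor D N (D.fx * (D.xi ^ a * D.yi ^ b * D.U ^ k * D.V ^ (n + 1))) := by
      have e1 := hN.tor_DX (ih a b k)
      have e2 := hN.tor_mul (am_mem (D.b0 - (a : A))) _ (ih (a + 1) b k)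
      have e3 := hN.tor_mul (am_mem (D.b1 - (k : A))) _ (ih a b (k + 1))
      apply hN.tor_sat (hS.u3 n)
      refine hN.tor_congr (hN.tor_sub (hN.tor_sub e1 e2) e3) ?_
      congr 1
      simp only [DX_apply, Derivation.leibniz, dx_xi, dx_yi, dx_U, dx_V, wx, fx,
        map_sub, map_natCast, smul_eq_mul]
      ring
    have hfy : Tor D N (D.fy * (D.xi ^ a * D.yi ^ b * D.U ^ k * D.V ^ (n + 1))) := by
      have e1 := hN.tor_DY (ih a b k)
      have e2 := hN.tor_mul (am_mem (D.b2 - (b : A))) _ (ih a (b + 1) k)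
      have e3 := hN.tor_mul (am_mem (D.b1 - (k : A))) _ (ih a b (k + 1))
      apply hN.tor_sat (hS.u3 n)
      refine hN.tor_congr (hN.tor_sub (hN.tor_sub e1 e2) e3) ?_
      congr 1
      simp only [DY_apply, Derivation.leibniz, dy_xi, dy_yi, dy_U, dy_V, wy, fy,
        map_sub, map_natCast, smul_eq_mul]
      ring
    have hf : Tor D N (D.f * (D.xi ^ a * D.yi ^ b * D.U ^ k * D.V ^ (n + 1))) := by
      refine hN.tor_congr (ih a b k) ?_
      simp only [map_mul, map_pow, map_add, map_sub, f]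
      linear_combination (-D.Q' D.xi ^ a * D.Q' D.yi ^ b * D.Q' D.U ^ k * D.Q' D.V ^ n) * q4
    have e1 := hN.tor_x hfx
    have e2 := hN.tor_y hfy
    refine hN.tor_of_pow (a := 4) (b := 3) ?_ ?_
    · apply hN.tor_sat (hS.nat 2 (by norm_num))
      have e3 := hN.tor_mul (p := 6) (ofNat_mem D.Pxy 6) _ hf
      have e4 := hN.tor_mul two_mem _ e2
      refine hN.tor_congr (hN.tor_sub (hN.tor_add e1 e4) e3) ?_
      congr 1
      rw [f, fx, fy, map_natCast]
      push_cast
      ring
    · have e3 := hN.tor_mul four_mem _ hf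
      refine hN.tor_congr (hN.tor_sub (hN.tor_sub e3 e1) e2) ?_
      congr 1
      rw [f, fx, fy]
      ring

/-- everything is torsion -/
theorem Good.tor_all (hN : D.Good S N) (hS : D.US S) (g : E) : Tor D N g := by
  have hg := D.span g
  induction hg using Submodule.span_induction with
  | mem g hg =>
    obtain ⟨t, rfl⟩ := hg
    exact hN.tor_mul (mul_mem (pow_mem x_mem _) (pow_mem y_mem _)) _ (hN.tor4 hS _ _ _ _)
  | zero => exact Good.tor_of_mem N.zero_mem
  | add g h _ _ hg hh => exact hN.tor_add hg hh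
  | smul a g _ hg => exact Good.tor_smul a hg

end Dat

end Pool.Agent.H867.BS
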